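import Mathlib

set_option autoImplicit false

/-! Definitions for the construction of `Π⁰₁` classes avoiding the cone above and below a
noncomputable set (problem MP_d2e85a_lc). -/

namespace Pool.Agent.H641R3.PC

open Nat.Partrec (Code)

/-- prefix of an infinite sequence -/
def pr (X : ℕ → Bool) (n : ℕ) : List Bool := (List.range n).map X

/-- a bit as a number -/
def bn (b : Bool) : ℕ := bif b then 1 else 0

/-- a single evaluation attempt with time bound `l` -/
def ev1 (c l : ℕ) (τ : List Bool) (n : ℕ) : Option Bool :=
  if n < l then
    (Code.evaln l (Denumerable.ofNat Code c) (Encodable.encode (τ.map bn, n))).bind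
      (fun v => if v = 1 then some false else if v = 2 then some true else none)
  else none

/-- the universal oracle functional: all resources bounded by the length of `σ` -/
def U (c : ℕ) (σ : List Bool) (n : ℕ) : Option Bool :=
  ((List.range (σ.length + 1)).flatMap (fun l =>
    (List.range (l + 1)).filterMap (fun j => ev1 c l (σ.take j) n))).head?

/-- functionals with the identity added as number `0` -/
def V (m : ℕ) (σ : List Bool) (n : ℕ) : Option Bool :=
  if m = 0 then σ[n]? else U (m - 1) σ n

/-- functional applied to the members of the class, in requirement `j` -/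
def Ps (j : ℕ) : ℕ := if j % 2 = 0 then j / 2 + 1 else 0

/-- functional applied to the set `B`, in requirement `j` -/
def Th (j : ℕ) : ℕ := if j % 2 = 0 then 0 else j / 2 + 1

abbrev Str := List Bool
/-- tag, history, cone, dead -/
abbrev Leaf := ℕ × List (ℕ × Bool) × Str × Bool
abbrev Frame := List Leaf
/-- next tag, stack of frames -/
abbrev St := ℕ × List Frame

/-- all strings of length `n` -/
def strs : ℕ → List Str
  | 0 => [[]]
  | n + 1 => (strs n).flatMap (fun σ => [σ ++ [false], σ ++ [true]])

/-- prefix test -/
def pfx (z ρ : Str) : Bool := decide (ρ.take z.length = z)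

/-- cones of the living leaves -/
def cones (F : Frame) : List Str := F.filterMap (fun l => if l.2.2.2 then none else some l.2.2.1)

/-- bottom cones -/
def bot (st : St) : List Str :=
  match st.2.reverse.head? with
  | none => [[]]
  | some F => cones F

/-- alive strings of length `s` -/
def alive (st : St) (s : ℕ) : List Str :=
  (strs s).filter (fun ρ => (bot st).any (fun z => pfx z ρ))

/-- `β` is computed by `τ` via functional `e` -/
def comp (e : ℕ) (τ β : Str) : Bool :=
  (List.range β.length).all (fun i => decide (U e τ i = β[i]?))

/-- certification: the measure of the strings of length `s` computing `β` exceeds `2^(-t)` -/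
def C (e s : ℕ) (β : Str) (t : ℕ) : Bool :=
  decide (2 ^ s < ((strs s).filter (fun τ => comp e τ β)).length * 2 ^ t)

/-- first alive extension -/
def fresh (A : List Str) (τ : Str) : Str := ((A.filter (fun ρ => pfx τ ρ)).head?).getD τ

/-- refresh the cones of a list of leaves -/
def refresh (A : List Str) (F : Frame) : Frame :=
  F.map (fun l => (l.1, l.2.1, fresh A l.2.2.1, l.2.2.2))

/-- replace leaf number `q` -/
def mk (A : List Str) (F : Frame) (q : ℕ) (R : List Leaf) : Frame :=
  refresh A (F.take q) ++ R ++ refresh A (F.drop (q + 1))

/-- initial segment of values computed from `τ` -/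
def vals (j : ℕ) (τ : Str) : List Bool :=
  ((((List.range τ.length).map (fun n => V (Ps j) τ n)).takeWhile Option.isSome).filterMap id)

/-- permission to follow a computation -/
def permit (b : Option Str) (v : List Bool) : Bool :=
  match b with
  | none => false
  | some w => pfx v w

/-- `β` computes the values of the history `h` -/
def agree (j : ℕ) (h : List (ℕ × Bool)) (β : Str) : Bool :=
  h.all (fun p => decide (V (Th j) β p.1 = some p.2))

/-- splitting actions -/
def splitActs (s j : ℕ) (A : List Str) (F : Frame) (q : ℕ) (l : Leaf) : List Frame :=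
  if l.2.2.2 = false ∧ l.2.1.length < l.1 then
    A.flatMap (fun ρ0 => A.flatMap (fun ρ1 => (List.range s).filterMap (fun n =>
      if pfx l.2.2.1 ρ0 ∧ pfx l.2.2.1 ρ1 ∧ V (Ps j) ρ0 n = some false ∧
          V (Ps j) ρ1 n = some true then
        some (mk A F q [(l.1, l.2.1 ++ [(n, false)], ρ0, false),
          (l.1, l.2.1 ++ [(n, true)], ρ1, false)])
      else none)))
  else []

/-- following actions -/
def followActs (b : Option Str) (j : ℕ) (A : List Str) (F : Frame) (q : ℕ) (l : Leaf) :
    List Frame :=
  if l.2.2.2 = false ∧ l.2.1.length < l.1 ∧ permit b (vals j l.2.2.1) then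
    A.filterMap (fun ρ0 =>
      if pfx l.2.2.1 ρ0 ∧ (V (Ps j) ρ0 (vals j l.2.2.1).length).isSome then
        some (mk A F q [(l.1, l.2.1, ρ0, false)])
      else none)
  else []

/-- is there another living leaf with tag `t` -/
def other (F : Frame) (q t : ℕ) : Bool :=
  (List.range F.length).any (fun i => decide (i ≠ q) &&
    (match F[i]? with
      | none => false
      | some l => decide (l.1 = t) && !l.2.2.2))

/-- killing actions -/
def killActs (e s j : ℕ) (A : List Str) (F : Frame) (q : ℕ) (l : Leaf) : List Frame :=
  if l.2.2.2 = false ∧ l.2.1.length = l.1 ∧ other F q l.1 then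
    (List.range (s + 1)).flatMap (fun i => (strs i).filterMap (fun β =>
      if agree j l.2.1 β ∧ C e s β l.1 then
        some (mk A F q [(l.1, l.2.1, l.2.2.1, true)])
      else none))
  else []

/-- all actions for the leaf number `q` of the frame `F` of level `j` -/
def leafActs (e s : ℕ) (b : Option Str) (A : List Str) (j : ℕ) (F : Frame) (q : ℕ) :
    List Frame :=
  match F[q]? with
  | none => []
  | some l => splitActs s j A F q l ++ followActs b j A F q l ++ killActs e s j A F q l

/-- all actions at level `j` -/
def acts (e s : ℕ) (b : Option Str) (st : St) (j : ℕ) : List (ℕ × Frame) :=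
  match st.2[j]? with
  | none => []
  | some F => (List.range F.length).flatMap (fun q =>
      (leafActs e s b (alive st s) j F q).map (fun F' => (j, F')))

/-- a new frame -/
def newFrame (T : ℕ) (Z : List Str) : Frame :=
  (List.range Z.length).map (fun i => (T + i, [], Z.getD i [], false))

/-- one step of the construction -/
def step (e s : ℕ) (b : Option Str) (st : St) : St :=
  match ((List.range st.2.length).flatMap (acts e s b st)).head? with
  | some a => (st.1, st.2.take a.1 ++ [a.2])
  | none => (st.1 + (bot st).length, st.2 ++ [newFrame st.1 (bot st)])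

/-- the construction -/
def state (e : ℕ) (b : ℕ → Option Str) : ℕ → St
  | 0 => (e + 4, [])
  | s + 1 => step e s (b s) (state e b s)

/-- the pair `(β, t)` is asked at stage `s` -/
def Asked (e : ℕ) (b : ℕ → Option Str) (s : ℕ) (β : Str) (t : ℕ) : Prop :=
  ∃ j F l, (state e b s).2[j]? = some F ∧ l ∈ F ∧ l.1 = t ∧ l.2.1.length = t ∧
    agree j l.2.1 β = true ∧ agree j l.2.1 β.dropLast = false

end Pool.Agent.H641R3.PC
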