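import Mathlib
import Pool.Agent.H641R3.PC.Defs
import Pool.Agent.Helper743.Oracle

set_option autoImplicit false

/-! The universal oracle functional (helper116). -/

namespace Pool.Agent.H641R3.PC

open Nat.Partrec (Code)
open Encodable Denumerable

theorem U_list_prefix (c : ℕ) (s t : List Bool) (n : ℕ) (h : s <+: t) :
    ∃ R, ((List.range (t.length + 1)).flatMap (fun l =>
      (List.range (l + 1)).filterMap (fun j => ev1 c l (t.take j) n))) =
      ((List.range (s.length + 1)).flatMap (fun l =>
        (List.range (l + 1)).filterMap (fun j => ev1 c l (s.take j) n))) ++ R := by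
  obtain ⟨r, rfl⟩ := h
  have h1 : (s ++ r).length + 1 = (s.length + 1) + r.length := by
    rw [List.length_append]; omega
  refine ⟨((List.range r.length).map (fun i => s.length + 1 + i)).flatMap (fun l =>
    (List.range (l + 1)).filterMap (fun j => ev1 c l ((s ++ r).take j) n)), ?_⟩
  rw [h1, List.range_add, List.flatMap_append]
  congr 1
  have h2 : ∀ l ∈ List.range (s.length + 1),
      (List.range (l + 1)).filterMap (fun j => ev1 c l ((s ++ r).take j) n) =
      (List.range (l + 1)).filterMap (fun j => ev1 c l (s.take j) n) := by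
    intro l hl
    rw [List.mem_range] at hl
    apply List.filterMap_congr
    intro j hj
    rw [List.mem_range] at hj
    rw [List.take_append_of_le_length (by omega)]
  rw [List.flatMap_def, List.flatMap_def, List.map_congr_left h2]

theorem U_mono {c : ℕ} {s t : List Bool} {n : ℕ} {v : Bool} (h : s <+: t)
    (hv : U c s n = some v) : U c t n = some v := by
  unfold U at hv ⊢
  obtain ⟨R, hR⟩ := U_list_prefix c s t n h
  rw [hR, List.head?_append, hv]
  rfl

theorem U_mem {c : ℕ} {s : List Bool} {n : ℕ} {v : Bool} (h : U c s n = some v) :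
    ∃ l j, l ≤ s.length ∧ j ≤ l ∧ ev1 c l (s.take j) n = some v := by
  unfold U at h
  have h1 := List.mem_of_mem_head? (Option.mem_def.2 h)
  rw [List.mem_flatMap] at h1
  obtain ⟨l, hl, h2⟩ := h1
  rw [List.mem_filterMap] at h2
  obtain ⟨j, hj, h3⟩ := h2
  rw [List.mem_range] at hl hj
  exact ⟨l, j, by omega, by omega, h3⟩

theorem ev1_lt {c l : ℕ} {τ : List Bool} {n : ℕ} {v : Bool} (h : ev1 c l τ n = some v) :
    n < l := by
  unfold ev1 at h
  by_contra hn
  rw [if_neg hn] at h
  exact absurd h (by simp)

theorem U_lt {c : ℕ} {s : List Bool} {n : ℕ} {v : Bool} (h : U c s n = some v) :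
    n < s.length := by
  obtain ⟨l, j, hl, _, h1⟩ := U_mem h
  have := ev1_lt h1
  omega

theorem ev1_primrec : Primrec (fun p : (ℕ × ℕ) × (List Bool × ℕ) =>
    ev1 p.1.1 p.1.2 p.2.1 p.2.2) := by
  unfold ev1
  have hc : Primrec (fun p : (ℕ × ℕ) × (List Bool × ℕ) => p.1.1) := Primrec.fst.comp Primrec.fst
  have hl : Primrec (fun p : (ℕ × ℕ) × (List Bool × ℕ) => p.1.2) := Primrec.snd.comp Primrec.fst
  have ht : Primrec (fun p : (ℕ × ℕ) × (List Bool × ℕ) => p.2.1) := Primrec.fst.comp Primrec.snd
  have hn : Primrec (fun p : (ℕ × ℕ) × (List Bool × ℕ) => p.2.2) := Primrec.snd.comp Primrec.snd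
  refine Primrec.ite (Primrec.nat_lt.comp hn hl) ?_ (Primrec.const none)
  refine Primrec.option_bind ?_ ?_
  · exact Nat.Partrec.Code.primrec_evaln.comp (Primrec.pair (Primrec.pair hl
      ((Primrec.ofNat Code).comp hc)) (Primrec.encode.comp (Primrec.pair
        (Primrec.list_map ht ((Primrec.dom_finite bn).comp Primrec.snd).to₂) hn)))
  · refine Primrec.ite (Primrec.eq.comp Primrec.snd (Primrec.const 1)) (Primrec.const _) ?_
    exact Primrec.ite (Primrec.eq.comp Primrec.snd (Primrec.const 2)) (Primrec.const _)
      (Primrec.const _)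

theorem U_primrec : Primrec (fun p : ℕ × List Bool × ℕ => U p.1 p.2.1 p.2.2) := by
  unfold U
  refine Primrec.list_head?.comp ?_
  refine Primrec.list_flatMap (Primrec.list_range.comp (Primrec.succ.comp
    (Primrec.list_length.comp (Primrec.fst.comp Primrec.snd)))) ?_
  refine Primrec.listFilterMap (α := (ℕ × List Bool × ℕ) × ℕ)
    (Primrec.list_range.comp (Primrec.succ.comp Primrec.snd)) ?_
  have hq : Primrec (fun q : ((ℕ × List Bool × ℕ) × ℕ) × ℕ => q.1.1) :=
    Primrec.fst.comp Primrec.fst
  exact ev1_primrec.comp (Primrec.pair (Primrec.pair (Primrec.fst.comp hq)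
    (Primrec.snd.comp Primrec.fst)) (Primrec.pair (Primrec.list_take.comp Primrec.snd
      (Primrec.fst.comp (Primrec.snd.comp hq))) (Primrec.snd.comp (Primrec.snd.comp hq))))

theorem pr_take (A : ℕ → Bool) {j L : ℕ} (h : j ≤ L) : (pr A L).take j = pr A j := by
  unfold pr
  rw [← List.map_take, List.take_range, min_eq_left h]

theorem pr_map (A : ℕ → Bool) (j : ℕ) : (pr A j).map bn =
    Pool.Agent.Helper743.pre (fun n => bn (A n)) j := by
  unfold pr Pool.Agent.Helper743.pre
  rw [List.map_map]
  rfl

theorem pr_length (A : ℕ → Bool) (j : ℕ) : (pr A j).length = j := by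
  unfold pr
  rw [List.length_map, List.length_range]

theorem U_complete {A g : ℕ → Bool}
    (h : RecursiveIn {fun n => Part.some (if A n then 1 else 0)}
      (fun n => Part.some (if g n then 1 else 0))) :
    ∃ c, ∀ n, ∃ k, U c (pr A k) n = some (g n) := by
  have hA : (fun n => Part.some (if A n then 1 else 0) : ℕ →. ℕ) =
      ((fun n => bn (A n) : ℕ → ℕ) : ℕ →. ℕ) := by
    funext n
    change Part.some (if A n = true then 1 else 0) = Part.some (bn (A n))
    unfold bn
    cases A n <;> simp
  rw [RecursiveIn.iff_nat, hA] at h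
  obtain ⟨ev, hev, hmono, hspec⟩ := Pool.Agent.Helper743.use_principle _ _ h
  -- a code for the evaluation
  have hcomp : Computable (fun m : ℕ => ((decode (α := List ℕ × ℕ) m).map
      (fun p => encode (ev p.1 p.2))).getD 0) := by
    refine Computable.option_getD ?_ (Computable.const 0)
    refine Computable.option_map Computable.decode ?_
    exact Computable.encode.comp (hev.comp (Computable.fst.comp Computable.snd)
      (Computable.snd.comp Computable.snd))
  obtain ⟨c0, hc0⟩ := Nat.Partrec.Code.exists_code.1 (Partrec.nat_iff.1 hcomp)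
  have hval : ∀ (τ : List ℕ) (n : ℕ) (v : ℕ), v ∈ c0.eval (encode (τ, n)) ↔ v = encode (ev τ n) := by
    intro τ n v
    rw [hc0]
    simp
  refine ⟨encode c0, fun n => ?_⟩
  -- evaluations are correct
  have hsound : ∀ (l j : ℕ) (b : Bool), ev1 (encode c0) l (pr A j) n = some b → b = g n := by
    intro l j b hb
    unfold ev1 at hb
    split_ifs at hb with hn
    rw [Denumerable.ofNat_encode, Option.bind_eq_some_iff] at hb
    obtain ⟨v, hv, hb⟩ := hb
    have hv1 := Nat.Partrec.Code.evaln_sound (Option.mem_def.2 hv)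
    rw [pr_map, hval] at hv1
    have hkey : ∀ w : ℕ, ev (Pool.Agent.Helper743.pre (fun n => bn (A n)) j) n = some w →
        w = if g n then 1 else 0 := by
      intro w hw
      have := (hspec n w).2 ⟨j, hw⟩
      exact (Part.mem_some_iff.1 this)
    rcases hE : ev (Pool.Agent.Helper743.pre (fun n => bn (A n)) j) n with _ | w
    · rw [hE] at hv1
      simp only [Encodable.encode_none] at hv1
      subst hv1
      simp at hb
    · rw [hE] at hv1
      simp only [Encodable.encode_some, Encodable.encode_nat] at hv1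
      have hw := hkey w hE
      subst hv1
      subst hw
      cases hg : g n
      · simp [hg] at hb
        rw [← hb]
      · simp [hg] at hb
        rw [← hb]
  -- some evaluation exists
  obtain ⟨k0, hk0⟩ := (hspec n (if g n then 1 else 0)).1 (Part.mem_some_iff.2 rfl)
  have hm : encode (ev (Pool.Agent.Helper743.pre (fun n => bn (A n)) k0) n) ∈
      c0.eval (encode (Pool.Agent.Helper743.pre (fun n => bn (A n)) k0, n)) := (hval _ _ _).2 rfl
  obtain ⟨l0, hl0⟩ := Nat.Partrec.Code.evaln_complete.1 hm
  let L := l0 + k0 + n + 1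
  have hL : ev1 (encode c0) L (pr A k0) n = some (g n) := by
    have h1 : encode (ev (Pool.Agent.Helper743.pre (fun n => bn (A n)) k0) n) ∈
        Code.evaln L c0 (encode (Pool.Agent.Helper743.pre (fun n => bn (A n)) k0, n)) :=
      Nat.Partrec.Code.evaln_mono (by omega) hl0
    unfold ev1
    rw [if_pos (by omega), Denumerable.ofNat_encode, pr_map, Option.mem_def.1 h1, hk0]
    cases g n <;> simp
  refine ⟨L, ?_⟩
  have hne : ∃ v, U (encode c0) (pr A L) n = some v := by
    unfold U
    rw [← Option.isSome_iff_exists, List.isSome_head?]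
    apply List.ne_nil_of_mem (a := g n)
    rw [List.mem_flatMap]
    refine ⟨L, by rw [List.mem_range, pr_length]; omega, ?_⟩
    rw [List.mem_filterMap]
    refine ⟨k0, by rw [List.mem_range]; omega, ?_⟩
    rw [pr_take A (by omega)]
    exact hL
  obtain ⟨v, hv⟩ := hne
  obtain ⟨l, j, hl, hj, hlj⟩ := U_mem hv
  rw [pr_length] at hl
  rw [pr_take A (by omega)] at hlj
  rw [hv, hsound l j v hlj]

end Pool.Agent.H641R3.PC
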