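import Mathlib
import Pool.Agent.H641R3.PC.A

set_option autoImplicit false

/-! Computability of the construction (helper116). -/

namespace Pool.Agent.H641R3.PC

open Encodable

section gen

variable {α β γ : Type} [Primcodable α] [Primcodable β] [Primcodable γ]

theorem q_filter {f : α → List β} {p : α → β → Bool} (hf : Primrec f) (hp : Primrec₂ p) :
    Primrec fun a => (f a).filter (p a) := by
  have h1 : Primrec fun a => (f a).filterMap (fun b => bif p a b then some b else none) :=
    Primrec.listFilterMap hf (Primrec.cond hp (Primrec.option_some.comp Primrec.snd)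
      (Primrec.const none)).to₂
  refine h1.of_eq fun a => ?_
  rw [← List.filterMap_eq_filter]
  apply List.filterMap_congr
  intro b _
  rcases hb : p a b with _ | _ <;> simp [hb, Option.guard]

theorem q_all {f : α → List β} {p : α → β → Bool} (hf : Primrec f) (hp : Primrec₂ p) :
    Primrec fun a => (f a).all (p a) := by
  have h1 : Primrec fun a => (f a).foldr (fun b s => p a b && s) true :=
    Primrec.list_foldr hf (Primrec.const true) (h := fun a (q : β × Bool) => p a q.1 && q.2)
      (Primrec.and.comp (hp.comp Primrec.fst (Primrec.fst.comp Primrec.snd))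
        (Primrec.snd.comp Primrec.snd)).to₂
  refine h1.of_eq fun a => ?_
  induction f a with
  | nil => rfl
  | cons b l ih => rw [List.foldr_cons, List.all_cons, ih]

theorem q_any {f : α → List β} {p : α → β → Bool} (hf : Primrec f) (hp : Primrec₂ p) :
    Primrec fun a => (f a).any (p a) := by
  have h1 : Primrec fun a => (f a).foldr (fun b s => p a b || s) false :=
    Primrec.list_foldr hf (Primrec.const false) (h := fun a (q : β × Bool) => p a q.1 || q.2)
      (Primrec.or.comp (hp.comp Primrec.fst (Primrec.fst.comp Primrec.snd))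
        (Primrec.snd.comp Primrec.snd)).to₂
  refine h1.of_eq fun a => ?_
  induction f a with
  | nil => rfl
  | cons b l ih => rw [List.foldr_cons, List.any_cons, ih]

theorem q_isSome {f : α → Option β} (hf : Primrec f) : Primrec fun a => (f a).isSome := by
  have := Primrec.option_casesOn hf (Primrec.const false) (Primrec.const true).to₂
  refine this.of_eq fun a => ?_
  cases f a <;> rfl

theorem q_pow2 {f : α → ℕ} (hf : Primrec f) : Primrec fun a => 2 ^ f a := by
  have h1 : Primrec (fun n : ℕ => 2 ^ n) := by
    have := Primrec.nat_rec (α := ℕ) (β := ℕ) (f := fun _ => 1) (g := fun _ p => p.2 * 2)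
      (Primrec.const 1) (Primrec.nat_mul.comp (Primrec.snd.comp Primrec.snd) (Primrec.const 2)).to₂
    have h2 := this.comp (Primrec.const 0) (Primrec.id)
    refine h2.of_eq fun n => ?_
    induction n with
    | zero => rfl
    | succ n ih => rw [pow_succ, ← ih]; rfl
  exact h1.comp hf

/-- the decision of the equality -/
theorem q_eq {f g : α → β} [DecidableEq β] (hf : Primrec f) (hg : Primrec g) :
    Primrec fun a => decide (f a = g a) := (Primrec.eq.comp hf hg).decide

theorem q_bool {f : α → Bool} (hf : Primrec f) : PrimrecPred fun a => f a = true :=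
  Primrec.eq.comp hf (Primrec.const true)

end gen

section funs

variable {α : Type} [Primcodable α]

theorem q_U {c n : α → ℕ} {s : α → List Bool} (hc : Primrec c) (hs : Primrec s) (hn : Primrec n) :
    Primrec fun a => U (c a) (s a) (n a) :=
  U_primrec.comp (Primrec.pair hc (Primrec.pair hs hn))

theorem q_V {c n : α → ℕ} {s : α → List Bool} (hc : Primrec c) (hs : Primrec s) (hn : Primrec n) :
    Primrec fun a => V (c a) (s a) (n a) := by
  unfold V
  exact Primrec.ite (Primrec.eq.comp hc (Primrec.const 0)) (Primrec.list_getElem?.comp hs hn)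
    (q_U (Primrec.pred.comp hc) hs hn)

theorem q_Ps {j : α → ℕ} (hj : Primrec j) : Primrec fun a => Ps (j a) := by
  unfold Ps
  exact Primrec.ite (Primrec.eq.comp (Primrec.nat_mod.comp hj (Primrec.const 2)) (Primrec.const 0))
    (Primrec.succ.comp (Primrec.nat_div.comp hj (Primrec.const 2))) (Primrec.const 0)

theorem q_Th {j : α → ℕ} (hj : Primrec j) : Primrec fun a => Th (j a) := by
  unfold Th
  exact Primrec.ite (Primrec.eq.comp (Primrec.nat_mod.comp hj (Primrec.const 2)) (Primrec.const 0))
    (Primrec.const 0) (Primrec.succ.comp (Primrec.nat_div.comp hj (Primrec.const 2)))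

theorem q_strs {s : α → ℕ} (hs : Primrec s) : Primrec fun a => strs (s a) := by
  have h1 : Primrec strs := by
    have := Primrec.nat_rec (α := ℕ) (β := List Str) (f := fun _ => [[]])
      (g := fun _ p => p.2.flatMap (fun σ => [σ ++ [false], σ ++ [true]]))
      (Primrec.const [[]]) (Primrec.list_flatMap (Primrec.snd.comp Primrec.snd)
        (Primrec.list_cons.comp (Primrec.list_append.comp Primrec.snd (Primrec.const [false]))
          (Primrec.list_cons.comp (Primrec.list_append.comp Primrec.snd (Primrec.const [true]))
            (Primrec.const []))).to₂).to₂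
    have h2 := this.comp (Primrec.const 0) (Primrec.id)
    refine h2.of_eq fun n => ?_
    induction n with
    | zero => rfl
    | succ n ih => rw [strs, ← ih]; rfl
  exact h1.comp hs

theorem q_pfx {z r : α → Str} (hz : Primrec z) (hr : Primrec r) :
    Primrec fun a => pfx (z a) (r a) := by
  unfold pfx
  exact q_eq (Primrec.list_take.comp (Primrec.list_length.comp hz) hr) hz

theorem q_cones {F : α → Frame} (hF : Primrec F) : Primrec fun a => cones (F a) := by
  unfold cones
  refine Primrec.listFilterMap hF ?_
  have hl : Primrec (fun p : α × Leaf => p.2.2.2) := Primrec.snd.comp (Primrec.snd.comp Primrec.snd)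
  exact Primrec.ite (q_bool (Primrec.snd.comp hl)) (Primrec.const none)
    (Primrec.option_some.comp (Primrec.fst.comp hl))

theorem q_bot {S : α → St} (hS : Primrec S) : Primrec fun a => bot (S a) := by
  have h1 : Primrec fun a => (S a).2.reverse.head? :=
    Primrec.list_head?.comp (Primrec.list_reverse.comp (Primrec.snd.comp hS))
  have := Primrec.option_casesOn h1 (Primrec.const [[]]) (q_cones (Primrec.snd (α := α))).to₂
  refine this.of_eq fun a => ?_
  unfold bot
  cases (S a).2.reverse.head? <;> rfl

theorem q_alive {S : α → St} {s : α → ℕ} (hS : Primrec S) (hs : Primrec s) :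
    Primrec fun a => alive (S a) (s a) := by
  unfold alive
  refine q_filter (q_strs hs) ?_
  refine q_any (α := α × Str) ((q_bot hS).comp Primrec.fst) ?_
  exact q_pfx Primrec.snd (Primrec.snd.comp Primrec.fst)

theorem q_comp {e : α → ℕ} {t b : α → Str} (he : Primrec e) (ht : Primrec t) (hb : Primrec b) :
    Primrec fun a => comp (e a) (t a) (b a) := by
  unfold comp
  refine q_all (Primrec.list_range.comp (Primrec.list_length.comp hb)) ?_
  exact q_eq (q_U (he.comp Primrec.fst) (ht.comp Primrec.fst) Primrec.snd)
    (Primrec.list_getElem?.comp (hb.comp Primrec.fst) Primrec.snd)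

theorem q_C {e s t : α → ℕ} {b : α → Str} (he : Primrec e) (hs : Primrec s) (hb : Primrec b)
    (ht : Primrec t) : Primrec fun a => C (e a) (s a) (b a) (t a) := by
  unfold C
  refine (Primrec.nat_lt.comp (q_pow2 hs) (Primrec.nat_mul.comp (Primrec.list_length.comp ?_)
    (q_pow2 ht))).decide
  exact q_filter (q_strs hs) (q_comp (he.comp Primrec.fst) Primrec.snd (hb.comp Primrec.fst))

theorem q_fresh {A : α → List Str} {t : α → Str} (hA : Primrec A) (ht : Primrec t) :
    Primrec fun a => fresh (A a) (t a) := by
  unfold fresh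
  exact Primrec.option_getD.comp (Primrec.list_head?.comp
    (q_filter hA (q_pfx (ht.comp Primrec.fst) Primrec.snd))) ht

theorem q_refresh {A : α → List Str} {F : α → Frame} (hA : Primrec A) (hF : Primrec F) :
    Primrec fun a => refresh (A a) (F a) := by
  unfold refresh
  refine Primrec.list_map hF ?_
  have h1 : Primrec (fun p : α × Leaf => p.2.1) := Primrec.fst.comp Primrec.snd
  have h2 : Primrec (fun p : α × Leaf => p.2.2.1) := Primrec.fst.comp (Primrec.snd.comp Primrec.snd)
  have h3 : Primrec (fun p : α × Leaf => p.2.2.2.1) :=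
    Primrec.fst.comp (Primrec.snd.comp (Primrec.snd.comp Primrec.snd))
  have h4 : Primrec (fun p : α × Leaf => p.2.2.2.2) :=
    Primrec.snd.comp (Primrec.snd.comp (Primrec.snd.comp Primrec.snd))
  exact Primrec.pair h1 (Primrec.pair h2 (Primrec.pair (q_fresh (hA.comp Primrec.fst) h3) h4))

theorem q_mk {A : α → List Str} {F : α → Frame} {q : α → ℕ} {R : α → List Leaf} (hA : Primrec A)
    (hF : Primrec F) (hq : Primrec q) (hR : Primrec R) :
    Primrec fun a => mk (A a) (F a) (q a) (R a) := by
  unfold mk
  exact Primrec.list_append.comp (Primrec.list_append.comp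
    (q_refresh hA (Primrec.list_take.comp hq hF)) hR)
    (q_refresh hA (Primrec.list_drop.comp (Primrec.succ.comp hq) hF))

theorem q_vals {j : α → ℕ} {t : α → Str} (hj : Primrec j) (ht : Primrec t) :
    Primrec fun a => vals (j a) (t a) := by
  unfold vals
  refine Primrec.listFilterMap (f := fun a => ((List.range (t a).length).map
    (fun n => V (Ps (j a)) (t a) n)).takeWhile Option.isSome) ?_ Primrec.snd.to₂
  refine (Primrec.list_takeWhile (q_isSome Primrec.id)).comp ?_
  exact Primrec.list_map (Primrec.list_range.comp (Primrec.list_length.comp ht))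
    (q_V ((q_Ps hj).comp Primrec.fst) (ht.comp Primrec.fst) Primrec.snd)

theorem q_permit {b : α → Option Str} {v : α → List Bool} (hb : Primrec b) (hv : Primrec v) :
    Primrec fun a => permit (b a) (v a) := by
  have := Primrec.option_casesOn hb (Primrec.const false)
    (q_pfx (hv.comp Primrec.fst) Primrec.snd : Primrec fun p : α × Str => pfx (v p.1) p.2).to₂
  refine this.of_eq fun a => ?_
  unfold permit
  cases b a <;> rfl

theorem q_agree {j : α → ℕ} {h : α → List (ℕ × Bool)} {b : α → Str} (hj : Primrec j)
    (hh : Primrec h) (hb : Primrec b) : Primrec fun a => agree (j a) (h a) (b a) := by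
  unfold agree
  refine q_all hh ?_
  exact q_eq (q_V ((q_Th hj).comp Primrec.fst) (hb.comp Primrec.fst)
    (Primrec.fst.comp Primrec.snd)) (Primrec.option_some.comp (Primrec.snd.comp Primrec.snd))

section acts

variable {s j q : α → ℕ} {A : α → List Str} {F : α → Frame} {l : α → Leaf}

theorem q_splitActs (hs : Primrec s) (hj : Primrec j) (hA : Primrec A) (hF : Primrec F)
    (hq : Primrec q) (hl : Primrec l) :
    Primrec fun a => splitActs (s a) (j a) (A a) (F a) (q a) (l a) := by
  unfold splitActs
  have l1 : Primrec fun a => (l a).1 := Primrec.fst.comp hl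
  have l2 : Primrec fun a => (l a).2.1 := Primrec.fst.comp (Primrec.snd.comp hl)
  have l3 : Primrec fun a => (l a).2.2.1 := Primrec.fst.comp (Primrec.snd.comp (Primrec.snd.comp hl))
  have l4 : Primrec fun a => (l a).2.2.2 := Primrec.snd.comp (Primrec.snd.comp (Primrec.snd.comp hl))
  refine Primrec.ite ?_ ?_ (Primrec.const [])
  · exact (Primrec.eq.comp l4 (Primrec.const false)).and
      (Primrec.nat_lt.comp (Primrec.list_length.comp l2) l1)
  refine Primrec.list_flatMap hA ?_
  refine Primrec.list_flatMap (α := α × Str) (hA.comp Primrec.fst) ?_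
  refine Primrec.listFilterMap (α := (α × Str) × Str)
    (Primrec.list_range.comp ((hs.comp Primrec.fst).comp Primrec.fst)) ?_
  have b : Primrec fun p : ((α × Str) × Str) × ℕ => p.1.1.1 :=
    Primrec.fst.comp (Primrec.fst.comp Primrec.fst)
  have r0 : Primrec fun p : ((α × Str) × Str) × ℕ => p.1.1.2 :=
    Primrec.snd.comp (Primrec.fst.comp Primrec.fst)
  have r1 : Primrec fun p : ((α × Str) × Str) × ℕ => p.1.2 := Primrec.snd.comp Primrec.fst
  have hn : Primrec fun p : ((α × Str) × Str) × ℕ => p.2 := Primrec.snd
  refine Primrec.ite ?_ (Primrec.option_some.comp ?_) (Primrec.const none)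
  · refine (q_bool (q_pfx (l3.comp b) r0)).and ((q_bool (q_pfx (l3.comp b) r1)).and ?_)
    exact (Primrec.eq.comp (q_V ((q_Ps hj).comp b) r0 hn) (Primrec.const (some false))).and
      (Primrec.eq.comp (q_V ((q_Ps hj).comp b) r1 hn) (Primrec.const (some true)))
  · refine q_mk (hA.comp b) (hF.comp b) (hq.comp b) ?_
    refine Primrec.list_cons.comp ?_ (Primrec.list_cons.comp ?_ (Primrec.const []))
    · exact Primrec.pair (l1.comp b) (Primrec.pair (Primrec.list_append.comp (l2.comp b)
        (Primrec.list_cons.comp (Primrec.pair hn (Primrec.const false)) (Primrec.const [])))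
        (Primrec.pair r0 (Primrec.const false)))
    · exact Primrec.pair (l1.comp b) (Primrec.pair (Primrec.list_append.comp (l2.comp b)
        (Primrec.list_cons.comp (Primrec.pair hn (Primrec.const true)) (Primrec.const [])))
        (Primrec.pair r1 (Primrec.const false)))

theorem q_followActs {b : α → Option Str} (hb : Primrec b) (hj : Primrec j) (hA : Primrec A)
    (hF : Primrec F) (hq : Primrec q) (hl : Primrec l) :
    Primrec fun a => followActs (b a) (j a) (A a) (F a) (q a) (l a) := by
  unfold followActs
  have l1 : Primrec fun a => (l a).1 := Primrec.fst.comp hl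
  have l2 : Primrec fun a => (l a).2.1 := Primrec.fst.comp (Primrec.snd.comp hl)
  have l3 : Primrec fun a => (l a).2.2.1 := Primrec.fst.comp (Primrec.snd.comp (Primrec.snd.comp hl))
  have l4 : Primrec fun a => (l a).2.2.2 := Primrec.snd.comp (Primrec.snd.comp (Primrec.snd.comp hl))
  refine Primrec.ite ?_ ?_ (Primrec.const [])
  · exact (Primrec.eq.comp l4 (Primrec.const false)).and
      ((Primrec.nat_lt.comp (Primrec.list_length.comp l2) l1).and
        (q_bool (q_permit hb (q_vals hj l3))))
  refine Primrec.listFilterMap hA ?_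
  have b' : Primrec fun p : α × Str => p.1 := Primrec.fst
  refine Primrec.ite ?_ (Primrec.option_some.comp ?_) (Primrec.const none)
  · exact (q_bool (q_pfx (l3.comp b') Primrec.snd)).and
      (q_bool (q_isSome (q_V ((q_Ps hj).comp b') Primrec.snd
        (Primrec.list_length.comp ((q_vals hj l3).comp b')))))
  · refine q_mk (hA.comp b') (hF.comp b') (hq.comp b') ?_
    refine Primrec.list_cons.comp ?_ (Primrec.const [])
    exact Primrec.pair (l1.comp b') (Primrec.pair (l2.comp b')
      (Primrec.pair Primrec.snd (Primrec.const false)))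

theorem q_other {t : α → ℕ} (hF : Primrec F) (hq : Primrec q) (ht : Primrec t) :
    Primrec fun a => other (F a) (q a) (t a) := by
  unfold other
  refine q_any (Primrec.list_range.comp (Primrec.list_length.comp hF)) ?_
  refine Primrec.and.comp ?_ ?_
  · exact ((Primrec.eq.comp Primrec.snd (hq.comp Primrec.fst)).not).decide
  · have h1 : Primrec fun p : α × ℕ => (F p.1)[p.2]? :=
      Primrec.list_getElem?.comp (hF.comp Primrec.fst) Primrec.snd
    have h2 : Primrec fun p : (α × ℕ) × Leaf => decide (p.2.1 = t p.1.1) && !p.2.2.2.2 := by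
      refine Primrec.and.comp (q_eq (Primrec.fst.comp Primrec.snd)
        (ht.comp (Primrec.fst.comp Primrec.fst))) (Primrec.not.comp ?_)
      exact Primrec.snd.comp (Primrec.snd.comp (Primrec.snd.comp Primrec.snd))
    have := Primrec.option_casesOn h1 (Primrec.const false) h2.to₂
    refine this.of_eq fun p => ?_
    cases (F p.1)[p.2]? <;> rfl

theorem q_killActs {e : α → ℕ} (he : Primrec e) (hs : Primrec s) (hj : Primrec j) (hA : Primrec A)
    (hF : Primrec F) (hq : Primrec q) (hl : Primrec l) :
    Primrec fun a => killActs (e a) (s a) (j a) (A a) (F a) (q a) (l a) := by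
  unfold killActs
  have l1 : Primrec fun a => (l a).1 := Primrec.fst.comp hl
  have l2 : Primrec fun a => (l a).2.1 := Primrec.fst.comp (Primrec.snd.comp hl)
  have l3 : Primrec fun a => (l a).2.2.1 := Primrec.fst.comp (Primrec.snd.comp (Primrec.snd.comp hl))
  have l4 : Primrec fun a => (l a).2.2.2 := Primrec.snd.comp (Primrec.snd.comp (Primrec.snd.comp hl))
  refine Primrec.ite ?_ ?_ (Primrec.const [])
  · exact (Primrec.eq.comp l4 (Primrec.const false)).and
      ((Primrec.eq.comp (Primrec.list_length.comp l2) l1).and (q_bool (q_other hF hq l1)))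
  refine Primrec.list_flatMap (Primrec.list_range.comp (Primrec.succ.comp hs)) ?_
  refine Primrec.listFilterMap (α := α × ℕ) (q_strs Primrec.snd) ?_
  have b' : Primrec fun p : (α × ℕ) × Str => p.1.1 := Primrec.fst.comp Primrec.fst
  refine Primrec.ite ?_ (Primrec.option_some.comp ?_) (Primrec.const none)
  · exact (q_bool (q_agree (hj.comp b') (l2.comp b') Primrec.snd)).and
      (q_bool (q_C (he.comp b') (hs.comp b') Primrec.snd (l1.comp b')))
  · refine q_mk (hA.comp b') (hF.comp b') (hq.comp b') ?_
    refine Primrec.list_cons.comp ?_ (Primrec.const [])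
    exact Primrec.pair (l1.comp b') (Primrec.pair (l2.comp b')
      (Primrec.pair (l3.comp b') (Primrec.const true)))

theorem q_leafActs {e : α → ℕ} {b : α → Option Str} (he : Primrec e) (hs : Primrec s)
    (hb : Primrec b) (hA : Primrec A) (hj : Primrec j) (hF : Primrec F) (hq : Primrec q) :
    Primrec fun a => leafActs (e a) (s a) (b a) (A a) (j a) (F a) (q a) := by
  have h1 : Primrec fun a => (F a)[q a]? := Primrec.list_getElem?.comp hF hq
  have h2 : Primrec fun p : α × Leaf => splitActs (s p.1) (j p.1) (A p.1) (F p.1) (q p.1) p.2 ++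
      followActs (b p.1) (j p.1) (A p.1) (F p.1) (q p.1) p.2 ++
      killActs (e p.1) (s p.1) (j p.1) (A p.1) (F p.1) (q p.1) p.2 := by
    have f : Primrec fun p : α × Leaf => p.1 := Primrec.fst
    have g : Primrec fun p : α × Leaf => p.2 := Primrec.snd
    exact Primrec.list_append.comp (Primrec.list_append.comp
      (q_splitActs (hs.comp f) (hj.comp f) (hA.comp f) (hF.comp f) (hq.comp f) g)
      (q_followActs (hb.comp f) (hj.comp f) (hA.comp f) (hF.comp f) (hq.comp f) g))
      (q_killActs (he.comp f) (hs.comp f) (hj.comp f) (hA.comp f) (hF.comp f) (hq.comp f) g)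
  have := Primrec.option_casesOn h1 (Primrec.const []) h2.to₂
  refine this.of_eq fun a => ?_
  unfold leafActs
  cases (F a)[q a]? <;> rfl

theorem q_acts {e : α → ℕ} {b : α → Option Str} {S : α → St} (he : Primrec e) (hs : Primrec s)
    (hb : Primrec b) (hS : Primrec S) (hj : Primrec j) :
    Primrec fun a => acts (e a) (s a) (b a) (S a) (j a) := by
  have h1 : Primrec fun a => (S a).2[j a]? := Primrec.list_getElem?.comp (Primrec.snd.comp hS) hj
  have h2 : Primrec fun p : α × Frame => (List.range p.2.length).flatMap (fun q =>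
      (leafActs (e p.1) (s p.1) (b p.1) (alive (S p.1) (s p.1)) (j p.1) p.2 q).map
        (fun F' => (j p.1, F'))) := by
    refine Primrec.list_flatMap (Primrec.list_range.comp (Primrec.list_length.comp Primrec.snd)) ?_
    have f : Primrec fun p : (α × Frame) × ℕ => p.1.1 := Primrec.fst.comp Primrec.fst
    refine Primrec.list_map (α := (α × Frame) × ℕ) (q_leafActs (he.comp f) (hs.comp f) (hb.comp f)
      ((q_alive hS hs).comp f) (hj.comp f) (Primrec.snd.comp Primrec.fst) Primrec.snd) ?_
    exact Primrec.pair ((hj.comp f).comp Primrec.fst) Primrec.snd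
  have := Primrec.option_casesOn h1 (Primrec.const []) h2.to₂
  refine this.of_eq fun a => ?_
  unfold acts
  cases (S a).2[j a]? <;> rfl

theorem q_newFrame {T : α → ℕ} {Z : α → List Str} (hT : Primrec T) (hZ : Primrec Z) :
    Primrec fun a => newFrame (T a) (Z a) := by
  unfold newFrame
  refine Primrec.list_map (Primrec.list_range.comp (Primrec.list_length.comp hZ)) ?_
  exact Primrec.pair (Primrec.nat_add.comp (hT.comp Primrec.fst) Primrec.snd)
    (Primrec.pair (Primrec.const []) (Primrec.pair ((Primrec.list_getD []).comp
      (hZ.comp Primrec.fst) Primrec.snd) (Primrec.const false)))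

theorem q_step {e : α → ℕ} {b : α → Option Str} {S : α → St} (he : Primrec e) (hs : Primrec s)
    (hb : Primrec b) (hS : Primrec S) : Primrec fun a => step (e a) (s a) (b a) (S a) := by
  have h1 : Primrec fun a =>
      ((List.range (S a).2.length).flatMap (acts (e a) (s a) (b a) (S a))).head? := by
    refine Primrec.list_head?.comp (Primrec.list_flatMap (Primrec.list_range.comp
      (Primrec.list_length.comp (Primrec.snd.comp hS))) ?_)
    have f : Primrec fun p : α × ℕ => p.1 := Primrec.fst
    exact q_acts (he.comp f) (hs.comp f) (hb.comp f) (hS.comp f) Primrec.snd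
  have h2 : Primrec fun a => (((S a).1 + (bot (S a)).length,
      (S a).2 ++ [newFrame (S a).1 (bot (S a))]) : St) := by
    refine Primrec.pair (Primrec.nat_add.comp (Primrec.fst.comp hS)
      (Primrec.list_length.comp (q_bot hS))) ?_
    exact Primrec.list_append.comp (Primrec.snd.comp hS) (Primrec.list_cons.comp
      (q_newFrame (Primrec.fst.comp hS) (q_bot hS)) (Primrec.const []))
  have h3 : Primrec fun p : α × (ℕ × Frame) => (((S p.1).1, (S p.1).2.take p.2.1 ++ [p.2.2]) : St) := by
    have f : Primrec fun p : α × (ℕ × Frame) => p.1 := Primrec.fst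
    refine Primrec.pair (Primrec.fst.comp (hS.comp f)) ?_
    exact Primrec.list_append.comp (Primrec.list_take.comp (Primrec.fst.comp Primrec.snd)
      (Primrec.snd.comp (hS.comp f))) (Primrec.list_cons.comp (Primrec.snd.comp Primrec.snd)
        (Primrec.const []))
  have := Primrec.option_casesOn h1 h2 h3.to₂
  refine this.of_eq fun a => ?_
  unfold step
  cases ((List.range (S a).2.length).flatMap (acts (e a) (s a) (b a) (S a))).head? <;> rfl

end acts

end funs

theorem C_primrec : Primrec (fun p : (ℕ × ℕ) × (Str × ℕ) => C p.1.1 p.1.2 p.2.1 p.2.2) :=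
  q_C (Primrec.fst.comp Primrec.fst) (Primrec.snd.comp Primrec.fst) (Primrec.fst.comp Primrec.snd)
    (Primrec.snd.comp Primrec.snd)

theorem step_primrec : Primrec (fun p : (ℕ × ℕ) × (Option Str × St) =>
    step p.1.1 p.1.2 p.2.1 p.2.2) :=
  q_step (Primrec.fst.comp Primrec.fst) (Primrec.snd.comp Primrec.fst)
    (Primrec.fst.comp Primrec.snd) (Primrec.snd.comp Primrec.snd)

theorem rec_comp {σ : Type} [Primcodable σ] {g : ℕ → ℕ → σ → σ}
    (hg : Computable fun p : (ℕ × ℕ) × σ => g p.1.1 p.1.2 p.2) {f : ℕ → σ} (hf : Computable f)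
    (F : ℕ → ℕ → σ) (h0 : ∀ e, F e 0 = f e) (hs : ∀ e s, F e (s + 1) = g e s (F e s)) :
    Computable₂ F := by
  have h1 : Computable (fun p : ℕ × ℕ => f p.1) := hf.comp Computable.fst
  have h2 : Computable₂ (fun (p : ℕ × ℕ) (q : ℕ × σ) => g p.1 q.1 q.2) := by
    have f1 : Computable (fun r : (ℕ × ℕ) × (ℕ × σ) => r.1.1) :=
      Computable.fst.comp Computable.fst
    have f2 : Computable (fun r : (ℕ × ℕ) × (ℕ × σ) => r.2.1) :=
      Computable.fst.comp Computable.snd
    have f3 : Computable (fun r : (ℕ × ℕ) × (ℕ × σ) => r.2.2) :=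
      Computable.snd.comp Computable.snd
    exact hg.comp (Computable.pair (Computable.pair f1 f2) f3)
  have := Computable.nat_rec (Computable.snd : Computable (fun p : ℕ × ℕ => p.2)) h1 h2
  refine this.of_eq ?_
  rintro ⟨e, s⟩
  induction s with
  | zero => exact (h0 e).symm
  | succ s ih =>
    rw [hs, ← ih]

theorem state_computable {b : ℕ → Option Str} (hb : Computable b) :
    Computable₂ (fun e s => state e b s) := by
  have h0 : Computable (fun e : ℕ => ((e + 4, []) : St)) :=
    (Primrec.pair (Primrec.nat_add.comp Primrec.id (Primrec.const 4)) (Primrec.const [])).to_comp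
  have hstep : Computable (fun p : (ℕ × ℕ) × St => step p.1.1 p.1.2 (b p.1.2) p.2) := by
    have h1 := step_primrec.to_comp
    have h2 : Computable (fun p : (ℕ × ℕ) × St =>
        ((p.1, (b p.1.2, p.2)) : (ℕ × ℕ) × (Option Str × St))) :=
      Computable.pair Computable.fst
        (Computable.pair (hb.comp (Computable.snd.comp Computable.fst)) Computable.snd)
    have h3 := h1.comp h2
    exact h3
  exact rec_comp (g := fun e s st => step e s (b s) st) hstep h0 _ (fun e => by rw [state])
    (fun e s => by rw [state])

end Pool.Agent.H641R3.PC
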