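import Pool.Agent.H641R3.PC.A

set_option autoImplicit false

namespace Pool.Agent.H641R3.PC

theorem mem_strs {ρ : Str} {n : ℕ} : ρ ∈ strs n ↔ ρ.length = n := by
  induction n generalizing ρ with
  | zero => simp [strs]
  | succ n ih =>
    simp only [strs, List.mem_flatMap, List.mem_cons, List.not_mem_nil, or_false]
    constructor
    · rintro ⟨σ, hσ, rfl | rfl⟩ <;> simp [ih.1 hσ]
    · intro h
      have hne : ρ ≠ [] := by rintro rfl; simp at h
      refine ⟨ρ.dropLast, ih.2 (by simp [h]), ?_⟩
      have h1 := List.dropLast_append_getLast hne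
      cases hb : ρ.getLast hne with
      | false => left; rw [← hb, h1]
      | true => right; rw [← hb, h1]

theorem strs_nodup (n : ℕ) : (strs n).Nodup := by
  induction n with
  | zero => simp [strs]
  | succ n ih =>
    rw [strs, List.nodup_flatMap]
    refine ⟨fun σ _ => by simp, ?_⟩
    refine ih.imp_of_mem ?_
    intro a b ha hb hne
    rw [mem_strs] at ha hb
    intro x hx hy
    simp only [List.mem_cons, List.not_mem_nil, or_false] at hx hy
    have hx' : x.dropLast = a := by rcases hx with rfl | rfl <;> simp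
    have hy' : x.dropLast = b := by rcases hy with rfl | rfl <;> simp
    exact hne (hx'.symm.trans hy')

theorem length_strs (n : ℕ) : (strs n).length = 2 ^ n := by
  induction n with
  | zero => simp [strs]
  | succ n ih =>
    rw [strs, List.length_flatMap]
    simp [ih, pow_succ]

theorem pfx_iff {z ρ : Str} : pfx z ρ = true ↔ z <+: ρ := by
  rw [pfx, decide_eq_true_iff, List.prefix_iff_eq_take]
  exact eq_comm

attribute [simp] pr_length

theorem pr_succ (X : ℕ → Bool) (n : ℕ) : pr X (n + 1) = pr X n ++ [X n] := by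
  simp [pr, List.range_succ]

theorem pr_getElem? (X : ℕ → Bool) (n x : ℕ) : (pr X n)[x]? = if x < n then some (X x) else none := by
  by_cases h : x < n
  · simp [pr, h]
  · simp [pr, h]

theorem pr_prefix (X : ℕ → Bool) {n m : ℕ} (h : n ≤ m) : pr X n <+: pr X m := by
  obtain ⟨k, rfl⟩ := Nat.exists_eq_add_of_le h
  clear h
  induction k with
  | zero => simp
  | succ k ih =>
    rw [← Nat.add_assoc, pr_succ]
    exact ih.trans (List.prefix_append _ _)

theorem take_pr (X : ℕ → Bool) (n m : ℕ) (h : m ≤ n) : (pr X n).take m = pr X m := by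
  have := pr_prefix X h
  rw [List.prefix_iff_eq_take] at this
  simpa using this.symm

theorem eq_pr_of_prefix {X : ℕ → Bool} {n : ℕ} {σ : List Bool} (h : σ <+: pr X n) :
    σ = pr X σ.length := by
  have h1 : σ.length ≤ n := by simpa using h.length_le
  rw [List.prefix_iff_eq_take] at h
  rw [take_pr X n _ h1] at h
  exact h

theorem pr_eq_ofFn (X : ℕ → Bool) (n : ℕ) : List.ofFn (fun i : Fin n => X i) = pr X n := by
  apply List.ext_getElem?
  intro i
  rw [pr_getElem?]
  by_cases h : i < n
  · simp [h]
  · simp [h]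

theorem prefix_of_length_le {σ τ ρ : Str} (h1 : σ <+: ρ) (h2 : τ <+: ρ) (h : σ.length ≤ τ.length) :
    σ <+: τ := List.prefix_of_prefix_length_le h1 h2 h

theorem mem_cones {F : Frame} {τ : Str} :
    τ ∈ cones F ↔ ∃ l ∈ F, l.2.2.2 = false ∧ l.2.2.1 = τ := by
  simp only [cones, List.mem_filterMap]
  constructor
  · rintro ⟨l, hl, h⟩
    refine ⟨l, hl, ?_⟩
    cases hd : l.2.2.2 with
    | false => simpa [hd] using h
    | true => simp [hd] at h
  · rintro ⟨l, hl, hd, h⟩
    exact ⟨l, hl, by simp [hd, h]⟩

theorem bot_nil (T : ℕ) : bot (T, []) = [[]] := rfl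

theorem bot_concat (T : ℕ) (Fs : List Frame) (F : Frame) : bot (T, Fs ++ [F]) = cones F := by
  simp [bot]

theorem mem_alive {st : St} {s : ℕ} {ρ : Str} :
    ρ ∈ alive st s ↔ ρ.length = s ∧ ∃ z ∈ bot st, z <+: ρ := by
  simp [alive, mem_strs, pfx_iff]

theorem fresh_prefix (A : List Str) (τ : Str) : τ <+: fresh A τ := by
  unfold fresh
  cases h : (A.filter (fun ρ => pfx τ ρ)).head? with
  | none => simp
  | some ρ =>
    have := List.mem_of_head? h
    rw [List.mem_filter, pfx_iff] at this
    exact this.2

theorem fresh_mem {A : List Str} {τ ρ : Str} (hρ : ρ ∈ A) (h : τ <+: ρ) : fresh A τ ∈ A := by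
  unfold fresh
  cases h' : (A.filter (fun ρ => pfx τ ρ)).head? with
  | none =>
    rw [List.head?_eq_none_iff, List.filter_eq_nil_iff] at h'
    exact absurd (pfx_iff.2 h) (h' ρ hρ)
  | some ρ =>
    have := List.mem_of_head? h'
    rw [List.mem_filter] at this
    exact this.1

theorem fresh_cases (A : List Str) (τ : Str) : fresh A τ ∈ A ∨ fresh A τ = τ := by
  unfold fresh
  cases h' : (A.filter (fun ρ => pfx τ ρ)).head? with
  | none => right; rfl
  | some ρ =>
    have := List.mem_of_head? h'
    rw [List.mem_filter] at this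
    left; exact this.1

/-- the effect of an action -/
def ActRel (e s : ℕ) (b : Option Str) (A : List Str) (j : ℕ) (F1 : Frame) (l : Leaf) (F2 : Frame)
    (R : List Leaf) : Prop :=
  l.2.2.2 = false ∧
  ((l.2.1.length < l.1 ∧ ∃ ρ0 ∈ A, ∃ ρ1 ∈ A, ∃ n, n < s ∧ l.2.2.1 <+: ρ0 ∧ l.2.2.1 <+: ρ1 ∧
      V (Ps j) ρ0 n = some false ∧ V (Ps j) ρ1 n = some true ∧
      R = [(l.1, l.2.1 ++ [(n, false)], ρ0, false), (l.1, l.2.1 ++ [(n, true)], ρ1, false)]) ∨
   (l.2.1.length < l.1 ∧ permit b (vals j l.2.2.1) = true ∧ ∃ ρ0 ∈ A, l.2.2.1 <+: ρ0 ∧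
      (V (Ps j) ρ0 (vals j l.2.2.1).length).isSome ∧ R = [(l.1, l.2.1, ρ0, false)]) ∨
   (l.2.1.length = l.1 ∧ (∃ l' ∈ F1 ++ F2, l'.1 = l.1 ∧ l'.2.2.2 = false) ∧
      ∃ β : Str, β.length ≤ s ∧ agree j l.2.1 β = true ∧ C e s β l.1 = true ∧
      R = [(l.1, l.2.1, l.2.2.1, true)]))

theorem split_at {F : Frame} {q : ℕ} {l : Leaf} (h : F[q]? = some l) :
    F = F.take q ++ l :: F.drop (q + 1) := by
  obtain ⟨hq, rfl⟩ := List.getElem?_eq_some_iff.1 h
  rw [List.cons_getElem_drop_succ, List.take_append_drop]

theorem other_iff {F : Frame} {q t : ℕ} {l : Leaf} (_h : F[q]? = some l) :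
    other F q t = true ↔ ∃ l' ∈ F.take q ++ F.drop (q + 1), l'.1 = t ∧ l'.2.2.2 = false := by
  unfold other
  rw [List.any_eq_true]
  constructor
  · rintro ⟨i, hi, h2⟩
    rw [List.mem_range] at hi
    rw [Bool.and_eq_true, decide_eq_true_iff] at h2
    obtain ⟨hne, h2⟩ := h2
    have hi' : F[i]? = some F[i] := List.getElem?_eq_getElem hi
    rw [hi'] at h2
    simp only [Bool.and_eq_true, decide_eq_true_iff, Bool.not_eq_true'] at h2
    refine ⟨F[i], ?_, h2⟩
    rw [List.mem_append]
    rcases Nat.lt_or_ge i q with h3 | h3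
    · left
      rw [List.mem_take_iff_getElem]
      exact ⟨i, by omega, rfl⟩
    · right
      rw [List.mem_drop_iff_getElem]
      refine ⟨i - (q + 1), by omega, ?_⟩
      congr 1
      omega
  · rintro ⟨l', hl', h2⟩
    rw [List.mem_append] at hl'
    rcases hl' with h3 | h3
    · rw [List.mem_take_iff_getElem] at h3
      obtain ⟨i, hi, rfl⟩ := h3
      have hi2 : i < F.length := by omega
      refine ⟨i, List.mem_range.2 hi2, ?_⟩
      rw [Bool.and_eq_true, decide_eq_true_iff]
      refine ⟨by omega, ?_⟩
      rw [List.getElem?_eq_getElem hi2]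
      simp [h2]
    · rw [List.mem_drop_iff_getElem] at h3
      obtain ⟨i, hi, rfl⟩ := h3
      have hi2 : q + 1 + i < F.length := by omega
      refine ⟨q + 1 + i, List.mem_range.2 hi2, ?_⟩
      rw [Bool.and_eq_true, decide_eq_true_iff]
      refine ⟨by omega, ?_⟩
      rw [List.getElem?_eq_getElem hi2]
      simp [h2]

theorem mem_leafActs {e s : ℕ} {b : Option Str} {A : List Str} {j : ℕ} {F : Frame} {q : ℕ}
    {F' : Frame} :
    F' ∈ leafActs e s b A j F q ↔ ∃ l R, F[q]? = some l ∧
      ActRel e s b A j (F.take q) l (F.drop (q + 1)) R ∧ F' = mk A F q R := by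
  unfold leafActs
  cases hq : F[q]? with
  | none => simp
  | some l =>
    simp only [List.mem_append, Option.some.injEq, exists_and_left, exists_eq_left']
    constructor
    · rintro ((h | h) | h)
      · unfold splitActs at h
        split at h
        · rename_i hc
          simp only [List.mem_flatMap, List.mem_filterMap, List.mem_range] at h
          obtain ⟨ρ0, h0, ρ1, h1, n, hn, h2⟩ := h
          split at h2
          · rename_i h3
            simp only [pfx_iff] at h3
            refine ⟨_, ⟨hc.1, Or.inl ⟨hc.2, ρ0, h0, ρ1, h1, n, hn, h3.1, h3.2.1, h3.2.2.1,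
              h3.2.2.2, rfl⟩⟩, ?_⟩
            simpa using h2.symm
          · simp at h2
        · simp at h
      · unfold followActs at h
        split at h
        · rename_i hc
          simp only [List.mem_filterMap] at h
          obtain ⟨ρ0, h0, h2⟩ := h
          split at h2
          · rename_i h3
            simp only [pfx_iff] at h3
            refine ⟨_, ⟨hc.1, Or.inr (Or.inl ⟨hc.2.1, hc.2.2, ρ0, h0, h3.1, h3.2, rfl⟩)⟩, ?_⟩
            simpa using h2.symm
          · simp at h2
        · simp at h
      · unfold killActs at h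
        split at h
        · rename_i hc
          simp only [List.mem_flatMap, List.mem_filterMap, List.mem_range] at h
          obtain ⟨i, hi, β, hβ, h2⟩ := h
          split at h2
          · rename_i h3
            rw [mem_strs] at hβ
            refine ⟨_, ⟨hc.1, Or.inr (Or.inr ⟨hc.2.1, (other_iff hq).1 hc.2.2, β, by omega,
              h3.1, h3.2, rfl⟩)⟩, ?_⟩
            simpa using h2.symm
          · simp at h2
        · simp at h
    · rintro ⟨R, ⟨hd, h | h | h⟩, rfl⟩
      · obtain ⟨hc, ρ0, h0, ρ1, h1, n, hn, h3, h4, h5, h6, rfl⟩ := h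
        left; left
        unfold splitActs
        rw [if_pos ⟨hd, hc⟩]
        simp only [List.mem_flatMap, List.mem_filterMap, List.mem_range]
        refine ⟨ρ0, h0, ρ1, h1, n, hn, ?_⟩
        rw [if_pos ⟨pfx_iff.2 h3, pfx_iff.2 h4, h5, h6⟩]
      · obtain ⟨hc, hp, ρ0, h0, h3, h4, rfl⟩ := h
        left; right
        unfold followActs
        rw [if_pos ⟨hd, hc, hp⟩]
        simp only [List.mem_filterMap]
        refine ⟨ρ0, h0, ?_⟩
        rw [if_pos ⟨pfx_iff.2 h3, h4⟩]
      · obtain ⟨hc, ho, β, hβ, h3, h4, rfl⟩ := h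
        right
        unfold killActs
        rw [if_pos ⟨hd, hc, (other_iff hq).2 ho⟩]
        simp only [List.mem_flatMap, List.mem_filterMap, List.mem_range]
        refine ⟨β.length, by omega, β, mem_strs.2 rfl, ?_⟩
        rw [if_pos ⟨h3, h4⟩]

theorem mem_acts {e s : ℕ} {b : Option Str} {st : St} {j : ℕ} {a : ℕ × Frame} :
    a ∈ acts e s b st j ↔ a.1 = j ∧ ∃ F1 l F2 R, st.2[j]? = some (F1 ++ l :: F2) ∧
      ActRel e s b (alive st s) j F1 l F2 R ∧
      a.2 = refresh (alive st s) F1 ++ R ++ refresh (alive st s) F2 := by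
  unfold acts
  cases hj : st.2[j]? with
  | none => simp
  | some F =>
    simp only [List.mem_flatMap, List.mem_range, List.mem_map, Option.some.injEq]
    constructor
    · rintro ⟨q, hq, F', hF', rfl⟩
      rw [mem_leafActs] at hF'
      obtain ⟨l, R, hl, hR, rfl⟩ := hF'
      exact ⟨rfl, F.take q, l, F.drop (q + 1), R, split_at hl, hR, rfl⟩
    · rintro ⟨rfl, F1, l, F2, R, rfl, hR, ha⟩
      refine ⟨F1.length, by simp, _, mem_leafActs.2 ⟨l, R, by simp, ?_, rfl⟩, ?_⟩
      · simpa using hR
      · ext1
        · rfl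
        · rw [ha]; simp [mk]

theorem head?_flatMap {α β : Type*} (f : α → List β) (l : List α) (a : β)
    (h : (l.flatMap f).head? = some a) :
    ∃ l1 x l2, l = l1 ++ x :: l2 ∧ a ∈ f x ∧ ∀ y ∈ l1, f y = [] := by
  induction l with
  | nil => simp at h
  | cons x l ih =>
    rw [List.flatMap_cons] at h
    cases hx : f x with
    | nil =>
      rw [hx, List.nil_append] at h
      obtain ⟨l1, y, l2, h1, h2, h3⟩ := ih h
      refine ⟨x :: l1, y, l2, by rw [h1]; rfl, h2, ?_⟩
      intro z hz
      rcases List.mem_cons.1 hz with rfl | hz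
      · exact hx
      · exact h3 z hz
    | cons c cs =>
      rw [hx] at h
      simp only [List.cons_append, List.head?_cons, Option.some.injEq] at h
      subst h
      exact ⟨[], x, l, rfl, by rw [hx]; simp, by simp⟩

theorem step_cases (e s : ℕ) (b : Option Str) (st : St) :
    (∃ j F1 l F2 R, st.2[j]? = some (F1 ++ l :: F2) ∧
      ActRel e s b (alive st s) j F1 l F2 R ∧ (∀ i < j, acts e s b st i = []) ∧
      step e s b st = (st.1, st.2.take j ++
        [refresh (alive st s) F1 ++ R ++ refresh (alive st s) F2])) ∨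
    ((∀ i, acts e s b st i = []) ∧
      step e s b st = (st.1 + (bot st).length, st.2 ++ [newFrame st.1 (bot st)])) := by
  unfold step
  cases h : ((List.range st.2.length).flatMap (acts e s b st)).head? with
  | none =>
    right
    refine ⟨?_, rfl⟩
    intro i
    rw [List.head?_eq_none_iff, List.flatMap_eq_nil_iff] at h
    by_cases hi : i < st.2.length
    · exact h i (List.mem_range.2 hi)
    · unfold acts
      rw [List.getElem?_eq_none (by omega)]
  | some a =>
    left
    obtain ⟨l1, x, l2, h1, h2, h3⟩ := head?_flatMap _ _ _ h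
    have hx : l1.length = x := by
      have := congrArg (fun l => l[l1.length]?) h1
      simp only [List.getElem?_append_right (le_refl _), Nat.sub_self, List.getElem?_cons_zero] at this
      rw [List.getElem?_eq_some_iff] at this
      obtain ⟨hlt, h4⟩ := this
      simpa using h4
    rw [mem_acts] at h2
    obtain ⟨ha, F1, l, F2, R, h5, h6, h7⟩ := h2
    refine ⟨x, F1, l, F2, R, h5, h6, ?_, ?_⟩
    · intro i hi
      apply h3
      have : (List.range st.2.length)[i]? = some i := by
        rw [List.getElem?_range]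
        have := congrArg List.length h1
        simp at this
        omega
      rw [h1, List.getElem?_append_left (by omega)] at this
      exact List.mem_of_getElem? this
    · simp only [ha, h7]

end Pool.Agent.H641R3.PC
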