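import Pool.Agent.H641R3.PC.Mono

set_option autoImplicit false

namespace Pool.Agent.H641R3.PC

theorem comp_iff {e : ℕ} {τ β : Str} : comp e τ β = true ↔ ∀ i < β.length, U e τ i = β[i]? := by
  simp [comp]

theorem comp_mono {e : ℕ} {τ τ' β : Str} (h : τ <+: τ') (hc : comp e τ β = true) :
    comp e τ' β = true := by
  rw [comp_iff] at hc ⊢
  intro i hi
  have h1 := hc i hi
  rw [List.getElem?_eq_getElem hi] at h1 ⊢
  exact U_mono h h1

theorem comp_comparable {e : ℕ} {τ β β' : Str} (h : comp e τ β = true) (h' : comp e τ β' = true)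
    (hl : β.length ≤ β'.length) : β <+: β' := by
  rw [comp_iff] at h h'
  rw [List.prefix_iff_getElem?]
  intro i hi
  rw [← h' i (by omega), h i hi, List.getElem?_eq_getElem hi]

theorem countP_ext (p : Str → Bool) (hp : ∀ σ b, p σ = true → p (σ ++ [b]) = true) (l : List Str) :
    2 * l.countP p ≤ (l.flatMap (fun σ => [σ ++ [false], σ ++ [true]])).countP p := by
  induction l with
  | nil => simp
  | cons σ l ih =>
    rw [List.flatMap_cons, List.countP_append, List.countP_cons]
    by_cases h : p σ = true
    · have h1 := hp σ false h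
      have h2 := hp σ true h
      simp only [h, h1, h2, List.countP_cons, List.countP_nil, if_true]
      omega
    · simp only [h]
      simp only [Bool.false_eq_true, if_false]
      omega

theorem C_iff {e s : ℕ} {β : Str} {t : ℕ} :
    C e s β t = true ↔ 2 ^ s < (strs s).countP (fun τ => comp e τ β) * 2 ^ t := by
  simp [C, List.countP_eq_length_filter]

theorem C_succ {e s : ℕ} {β : Str} {t : ℕ} (h : C e s β t = true) : C e (s + 1) β t = true := by
  rw [C_iff] at h ⊢
  have h1 := countP_ext (fun τ => comp e τ β) (fun σ b hσ => comp_mono (List.prefix_append _ _) hσ)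
    (strs s)
  rw [strs, pow_succ]
  calc 2 ^ s * 2 < ((strs s).countP (fun τ => comp e τ β) * 2 ^ t) * 2 := by omega
    _ = (2 * (strs s).countP (fun τ => comp e τ β)) * 2 ^ t := by ring
    _ ≤ _ := Nat.mul_le_mul_right _ h1

theorem C_mono {e s s' : ℕ} {β : Str} {t : ℕ} (h : s ≤ s') (hC : C e s β t = true) :
    C e s' β t = true := by
  induction s', h using Nat.le_induction with
  | base => exact hC
  | succ n _ ih => exact C_succ ih

theorem count_sum (p : Str → Str → Bool) (L M : List Str) (h : ∀ τ ∈ M, L.countP (p τ) ≤ 1) :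
    (L.map (fun β => M.countP (fun τ => p τ β))).sum ≤ M.length := by
  induction M with
  | nil => simp
  | cons τ M ih =>
    have h1 := ih (fun τ hτ => h τ (List.mem_cons_of_mem _ hτ))
    have h2 := h τ List.mem_cons_self
    have h3 : (L.map (fun β => (τ :: M).countP (fun τ => p τ β))).sum =
        (L.map (fun β => M.countP (fun τ => p τ β))).sum + L.countP (p τ) := by
      clear h1 h2 ih h
      induction L with
      | nil => simp
      | cons β L ihL =>
        rw [List.map_cons, List.sum_cons, ihL, List.map_cons, List.sum_cons, List.countP_cons,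
          List.countP_cons]
        omega
    rw [h3, List.length_cons]
    omega

theorem countP_le_one {p : Str → Bool} {L : List Str}
    (h : L.Pairwise (fun β β' => ¬ (p β = true ∧ p β' = true))) : L.countP p ≤ 1 := by
  induction L with
  | nil => simp
  | cons β L ih =>
    rw [List.pairwise_cons] at h
    rw [List.countP_cons]
    by_cases hβ : p β = true
    · have : L.countP p = 0 := by
        rw [List.countP_eq_zero]
        intro β' hβ' hp
        exact h.1 β' hβ' ⟨hβ, hp⟩
      rw [this, hβ]; simp
    · simp only [hβ]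
      have := ih h.2
      simpa using this

theorem C_bound {e s t : ℕ} {L : List Str}
    (hinc : L.Pairwise (fun β β' => ¬ β <+: β' ∧ ¬ β' <+: β)) (hC : ∀ β ∈ L, C e s β t = true) :
    L.length < 2 ^ t := by
  have h1 : (L.map (fun β => (strs s).countP (fun τ => comp e τ β))).sum ≤ 2 ^ s := by
    rw [← length_strs s]
    apply count_sum
    intro τ _
    apply countP_le_one
    refine hinc.imp ?_
    rintro β β' ⟨h2, h3⟩ ⟨h4, h5⟩
    rcases Nat.le_total β.length β'.length with h | h
    · exact h2 (comp_comparable h4 h5 h)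
    · exact h3 (comp_comparable h5 h4 h)
  have h2 : L.length * (2 ^ s + 1) ≤
      (L.map (fun β => (strs s).countP (fun τ => comp e τ β))).sum * 2 ^ t := by
    clear h1 hinc
    induction L with
    | nil => simp
    | cons β L ih =>
      have h3 := ih (fun β hβ => hC β (List.mem_cons_of_mem _ hβ))
      have h4 := C_iff.1 (hC β List.mem_cons_self)
      rw [List.map_cons, List.sum_cons, List.length_cons, Nat.add_mul, Nat.add_mul]
      omega
  by_contra hlt
  push Not at hlt
  have h3 : 2 ^ t * (2 ^ s + 1) ≤ 2 ^ s * 2 ^ t :=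
    calc 2 ^ t * (2 ^ s + 1) ≤ L.length * (2 ^ s + 1) := Nat.mul_le_mul_right _ hlt
      _ ≤ _ := h2
      _ ≤ _ := Nat.mul_le_mul_right _ h1
  have h4 : 0 < 2 ^ t := by positivity
  nlinarith

end Pool.Agent.H641R3.PC
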