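import Pool.Agent.H641R3.PC.Defs

set_option autoImplicit false

namespace Pool.Agent.H641R3.PC

/-- tags for which the string `β` is asked in the state `st` -/
def asksL (st : St) (β : Str) : List ℕ :=
  (List.range st.2.length).flatMap (fun j => ((st.2[j]?).getD []).filterMap (fun l =>
    if l.2.1.length = l.1 ∧ agree j l.2.1 β = true ∧ agree j l.2.1 β.dropLast = false
    then some l.1 else none))

/-- all states `state e b s'` with `e < s`, `s' ≤ s` -/
def tbl (b : ℕ → Option Str) (s : ℕ) : List (ℕ × St) :=
  (List.range (s * (s + 1))).map (fun k => (k / (s + 1), state (k / (s + 1)) b (k % (s + 1))))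

/-- `σ` starts with the first `i + 3` values computed by `ρ` via functional `i` -/
def hitN (i : ℕ) (ρ σ : Str) : Bool :=
  (List.range (i + 3)).all (fun n => decide ((U i ρ n).isSome = true ∧ U i ρ n = σ[n]?))

/-- `σ` respects the hungry set of the pair `(β, t)` -/
def respects (e : ℕ) (β : Str) (t : ℕ) (σ : Str) : Bool :=
  (List.range (σ.length + 1)).all (fun s' => !comp e (σ.take s') β || C e s' β t)

/-- membership in the tree of the first class -/
def TA (T : List (ℕ × St)) (ρ σ : Str) : Bool :=
  (T.all (fun p => (List.range (ρ.length + 1)).all (fun K =>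
    (asksL p.2 (ρ.take K)).all (fun t => respects p.1 (ρ.take K) t σ)))) &&
  (List.range σ.length).all (fun i => !hitN i ρ σ)

/-- membership in the tree of the second class -/
def TQ (st : St) (σ : Str) : Bool := (bot st).any (fun z => pfx z σ)

/-- the tree of the first class as a function of a prefix `ρ` of `B` and a code of a string -/
def treeA (b : ℕ → Option Str) (ρ : Str) (x : ℕ) : Bool :=
  match Encodable.decode (α := Str) x with
  | none => false
  | some σ => TA (tbl b σ.length) ρ σ

/-- the tree of the second class -/
def treeQ (e : ℕ) (b : ℕ → Option Str) (x : ℕ) : Bool :=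
  match Encodable.decode (α := Str) x with
  | none => false
  | some σ => TQ (state e b σ.length) σ

end Pool.Agent.H641R3.PC
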