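import Pool.Agent.H641R3.PC.Uniq
import Pool.Agent.H641R3.PC.Defs2

set_option autoImplicit false

namespace Pool.Agent.H641R3.PC

theorem mem_asksL {st : St} {β : Str} {t : ℕ} : t ∈ asksL st β ↔
    ∃ j F l, st.2[j]? = some F ∧ l ∈ F ∧ l.1 = t ∧ l.2.1.length = t ∧
    agree j l.2.1 β = true ∧ agree j l.2.1 β.dropLast = false := by
  unfold asksL
  simp only [List.mem_flatMap, List.mem_range, List.mem_filterMap]
  constructor
  · rintro ⟨j, hj, l, hl, h⟩
    rw [List.getElem?_eq_getElem hj] at hl
    split at h
    · rename_i h1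
      simp only [Option.some.injEq] at h
      exact ⟨j, _, l, List.getElem?_eq_getElem hj, hl, h, h1.1.trans h, h1.2.1, h1.2.2⟩
    · simp at h
  · rintro ⟨j, F, l, h1, h2, h3, h4, h5, h6⟩
    refine ⟨j, (List.getElem?_eq_some_iff.1 h1).1, l, ?_, ?_⟩
    · rw [h1]; exact h2
    · rw [if_pos ⟨h4.trans h3.symm, h5, h6⟩, h3]

theorem mem_asksL_state {e : ℕ} {b : ℕ → Option Str} {s : ℕ} {β : Str} {t : ℕ} :
    t ∈ asksL (state e b s) β ↔ Asked e b s β t := mem_asksL

theorem mem_tbl {b : ℕ → Option Str} {s : ℕ} {p : ℕ × St} :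
    p ∈ tbl b s ↔ ∃ e s', e < s ∧ s' ≤ s ∧ p = (e, state e b s') := by
  unfold tbl
  rw [List.mem_map]
  constructor
  · rintro ⟨k, hk, rfl⟩
    rw [List.mem_range] at hk
    refine ⟨k / (s + 1), k % (s + 1), ?_, ?_, rfl⟩
    · rw [Nat.div_lt_iff_lt_mul (by omega)]; exact hk
    · have := Nat.mod_lt k (show s + 1 > 0 by omega); omega
  · rintro ⟨e, s', he, hs', rfl⟩
    refine ⟨e * (s + 1) + s', ?_, ?_⟩
    · rw [List.mem_range]
      calc e * (s + 1) + s' < e * (s + 1) + (s + 1) := by omega
        _ = (e + 1) * (s + 1) := by ring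
        _ ≤ s * (s + 1) := Nat.mul_le_mul_right _ he
    · have h1 : (e * (s + 1) + s') / (s + 1) = e := by
        rw [Nat.mul_comm, Nat.mul_add_div (by omega), Nat.div_eq_of_lt (by omega)]
        omega
      have h2 : (e * (s + 1) + s') % (s + 1) = s' := by
        rw [Nat.mul_comm, Nat.mul_add_mod, Nat.mod_eq_of_lt (by omega)]
      rw [h1, h2]

theorem respects_iff {e : ℕ} {β : Str} {t : ℕ} {σ : Str} :
    respects e β t σ = true ↔ ∀ s' ≤ σ.length, comp e (σ.take s') β = true → C e s' β t = true := by
  unfold respects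
  rw [List.all_eq_true]
  constructor
  · intro h s' hs' hc
    have := h s' (List.mem_range.2 (by omega))
    rw [hc] at this
    simpa using this
  · intro h s' hs'
    rw [List.mem_range] at hs'
    by_cases hc : comp e (σ.take s') β = true
    · rw [h s' (by omega) hc]; simp
    · simp [hc]

theorem hitN_iff {i : ℕ} {ρ σ : Str} :
    hitN i ρ σ = true ↔ ∀ n < i + 3, (U i ρ n).isSome = true ∧ U i ρ n = σ[n]? := by
  simp [hitN]

theorem TA_iff {b : ℕ → Option Str} {s : ℕ} {B : ℕ → Bool} {σ : Str} (hσ : σ.length = s) :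
    TA (tbl b s) (pr B s) σ = true ↔
      (∀ e < s, ∀ s' ≤ s, ∀ K ≤ s, ∀ t, Asked e b s' (pr B K) t → respects e (pr B K) t σ = true) ∧
      (∀ i < s, hitN i (pr B s) σ = false) := by
  unfold TA
  rw [Bool.and_eq_true, List.all_eq_true, List.all_eq_true]
  constructor
  · rintro ⟨h1, h2⟩
    refine ⟨?_, ?_⟩
    · intro e he s' hs' K hK t ht
      have h3 := h1 (e, state e b s') (mem_tbl.2 ⟨e, s', he, hs', rfl⟩)
      rw [List.all_eq_true] at h3
      have h4 := h3 K (List.mem_range.2 (by simp; omega))
      rw [List.all_eq_true, take_pr B s K hK] at h4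
      exact h4 t (mem_asksL_state.2 ht)
    · intro i hi
      have := h2 i (List.mem_range.2 (by omega))
      simpa using this
  · rintro ⟨h1, h2⟩
    refine ⟨?_, ?_⟩
    · intro p hp
      obtain ⟨e, s', he, hs', rfl⟩ := mem_tbl.1 hp
      rw [List.all_eq_true]
      intro K hK
      rw [List.mem_range, pr_length] at hK
      rw [List.all_eq_true, take_pr B s K (by omega)]
      intro t ht
      exact h1 e he s' hs' K (by omega) t (mem_asksL_state.1 ht)
    · intro i hi
      rw [List.mem_range, hσ] at hi
      rw [h2 i hi]; rfl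

theorem TA_take {b : ℕ → Option Str} {s : ℕ} {B : ℕ → Bool} {σ : Str} (hσ : σ.length = s)
    (h : TA (tbl b s) (pr B s) σ = true) {m : ℕ} (hm : m ≤ s) :
    TA (tbl b m) (pr B m) (σ.take m) = true := by
  rw [TA_iff hσ] at h
  rw [TA_iff (by simp; omega)]
  obtain ⟨h1, h2⟩ := h
  refine ⟨?_, ?_⟩
  · intro e he s' hs' K hK t ht
    have := h1 e (by omega) s' (by omega) K (by omega) t ht
    rw [respects_iff] at this ⊢
    intro s'' hs'' hc
    have hs3 : s'' ≤ m := by
      simp only [List.length_take] at hs''
      omega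
    rw [List.take_take, Nat.min_eq_left hs3] at hc
    exact this s'' (by omega) hc
  · intro i hi
    have := h2 i (by omega)
    by_contra hne
    have hne' : hitN i (pr B m) (σ.take m) = true := by simpa using hne
    rw [hitN_iff] at hne'
    have : hitN i (pr B s) σ = true := by
      rw [hitN_iff]
      intro n hn
      obtain ⟨h3, h4⟩ := hne' n hn
      obtain ⟨v, hv⟩ := Option.isSome_iff_exists.1 h3
      have h5 := U_mono (pr_prefix B hm) hv
      rw [h5]
      refine ⟨rfl, ?_⟩
      rw [hv] at h4
      have h6 : n < (σ.take m).length := (List.getElem?_eq_some_iff.1 h4.symm).1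
      have h7 : n < m := by simp only [List.length_take] at h6; omega
      rw [List.getElem?_take_of_lt h7] at h4
      exact h4
    simp_all

/-- counting extensions -/
theorem countP_take (p : Str → Bool) (m s : ℕ) (h : m ≤ s) :
    (strs s).countP (fun σ => p (σ.take m)) = 2 ^ (s - m) * (strs m).countP p := by
  induction s, h using Nat.le_induction with
  | base =>
    rw [Nat.sub_self, pow_zero, one_mul]
    apply List.countP_congr
    intro σ hσ
    rw [mem_strs] at hσ
    rw [← hσ, List.take_length]
  | succ s hs ih =>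
    rw [strs]
    have : ∀ l : List Str, (∀ σ ∈ l, σ.length = s) →
        (l.flatMap (fun σ => [σ ++ [false], σ ++ [true]])).countP (fun σ => p (σ.take m)) =
        2 * l.countP (fun σ => p (σ.take m)) := by
      intro l
      induction l with
      | nil => simp
      | cons σ l ihl =>
        intro hl
        have h1 := ihl (fun σ hσ => hl σ (List.mem_cons_of_mem _ hσ))
        have h2 := hl σ List.mem_cons_self
        rw [List.flatMap_cons, List.countP_append, List.countP_cons, h1]
        have e1 : (σ ++ [false]).take m = σ.take m := List.take_append_of_le_length (by omega)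
        have e2 : (σ ++ [true]).take m = σ.take m := List.take_append_of_le_length (by omega)
        simp only [List.countP_cons, List.countP_nil, e1, e2]
        omega
    rw [this _ (fun σ hσ => mem_strs.1 hσ), ih]
    have : s + 1 - m = (s - m) + 1 := by omega
    rw [this, pow_succ]
    ring

/-- the hungry set of `(β, t)` is small -/
theorem count_respects (e : ℕ) (β : Str) (t s : ℕ) :
    (strs s).countP (fun σ => !respects e β t σ) * 2 ^ t ≤ 2 ^ s := by
  classical
  by_cases hex : ∃ m, m ≤ s ∧ C e m β t = false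
  · -- largest such stage
    obtain ⟨m, hm, hmax⟩ : ∃ m, (m ≤ s ∧ C e m β t = false) ∧
        ∀ m', m' ≤ s → C e m' β t = false → m' ≤ m := by
      refine ⟨Nat.findGreatest (fun m => C e m β t = false) s, ⟨Nat.findGreatest_le s, ?_⟩, ?_⟩
      · obtain ⟨m, hm1, hm2⟩ := hex
        exact Nat.findGreatest_spec (P := fun m => C e m β t = false) hm1 hm2
      · intro m' h1 h2
        exact Nat.le_findGreatest h1 h2
    have hle : (strs s).countP (fun σ => !respects e β t σ) ≤
        (strs s).countP (fun σ => comp e (σ.take m) β) := by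
      apply List.countP_mono_left
      intro σ hσ hr
      rw [mem_strs] at hσ
      by_contra hc
      have : respects e β t σ = true := by
        rw [respects_iff]
        intro s' hs' hc'
        by_contra hC
        have h1 := hmax s' (by omega) (by simpa using hC)
        apply hc
        refine comp_mono ?_ hc'
        rw [List.prefix_take_iff]
        exact ⟨List.take_prefix _ _, by simp; omega⟩
      rw [this] at hr
      simp at hr
    rw [countP_take (fun τ => comp e τ β) m s hm.1] at hle
    have h2 : (strs m).countP (fun τ => comp e τ β) * 2 ^ t ≤ 2 ^ m := by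
      by_contra hlt
      push Not at hlt
      have := C_iff.2 hlt
      rw [hm.2] at this
      simp at this
    calc (strs s).countP (fun σ => !respects e β t σ) * 2 ^ t
        ≤ (2 ^ (s - m) * (strs m).countP (fun τ => comp e τ β)) * 2 ^ t :=
          Nat.mul_le_mul_right _ hle
      _ = 2 ^ (s - m) * ((strs m).countP (fun τ => comp e τ β) * 2 ^ t) := by ring
      _ ≤ 2 ^ (s - m) * 2 ^ m := Nat.mul_le_mul_left _ h2
      _ = 2 ^ s := by rw [← pow_add]; congr 1; omega
  · have : (strs s).countP (fun σ => !respects e β t σ) = 0 := by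
      rw [List.countP_eq_zero]
      intro σ hσ
      rw [mem_strs] at hσ
      have : respects e β t σ = true := by
        rw [respects_iff]
        intro s' hs' _
        by_contra hC
        exact hex ⟨s', by omega, by simpa using hC⟩
      simp [this]
    rw [this]
    simp

theorem count_hitN (i : ℕ) (ρ : Str) (s : ℕ) :
    (strs s).countP (fun σ => hitN i ρ σ) * 2 ^ (i + 3) ≤ 2 ^ s := by
  rcases Nat.lt_or_ge s (i + 3) with h | h
  · have : (strs s).countP (fun σ => hitN i ρ σ) = 0 := by
      rw [List.countP_eq_zero]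
      intro σ hσ hh
      rw [mem_strs] at hσ
      rw [hitN_iff] at hh
      obtain ⟨h1, h2⟩ := hh s h
      rw [h2, List.getElem?_eq_none (by omega)] at h1
      simp at h1
    rw [this]; simp
  · let w : Str := (List.range (i + 3)).map (fun n => (U i ρ n).getD false)
    have hle : (strs s).countP (fun σ => hitN i ρ σ) ≤
        (strs s).countP (fun σ => decide (σ.take (i + 3) = w)) := by
      apply List.countP_mono_left
      intro σ hσ hh
      rw [mem_strs] at hσ
      rw [hitN_iff] at hh
      rw [decide_eq_true_iff]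
      apply List.ext_getElem?
      intro n
      rcases Nat.lt_or_ge n (i + 3) with hn | hn
      · obtain ⟨h1, h2⟩ := hh n hn
        rw [List.getElem?_take_of_lt hn, ← h2]
        obtain ⟨v, hv⟩ := Option.isSome_iff_exists.1 h1
        simp [w, hn, hv]
      · rw [List.getElem?_eq_none (by simp; omega), List.getElem?_eq_none (by simp [w]; omega)]
    rw [countP_take (fun τ => decide (τ = w)) (i + 3) s h] at hle
    have h1 : (strs (i + 3)).countP (fun τ => decide (τ = w)) ≤ 1 := by
      have := List.nodup_iff_count_le_one.1 (strs_nodup (i + 3)) w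
      rw [List.count] at this
      have e1 : (fun τ : Str => decide (τ = w)) = (fun x => x == w) := by
        funext x
        rw [Bool.eq_iff_iff]
        simp
      rw [e1]
      exact this
    calc (strs s).countP (fun σ => hitN i ρ σ) * 2 ^ (i + 3)
        ≤ (2 ^ (s - (i + 3)) * (strs (i + 3)).countP (fun τ => decide (τ = w))) * 2 ^ (i + 3) :=
          Nat.mul_le_mul_right _ hle
      _ ≤ (2 ^ (s - (i + 3)) * 1) * 2 ^ (i + 3) :=
          Nat.mul_le_mul_right _ (Nat.mul_le_mul_left _ h1)
      _ = 2 ^ s := by rw [mul_one, ← pow_add]; congr 1; omega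

theorem geom (c n : ℕ) : ∑ k ∈ Finset.range n, ((1 : ℚ) / 2) ^ (c + k) ≤ 2 * (1 / 2) ^ c := by
  have : ∑ k ∈ Finset.range n, ((1 : ℚ) / 2) ^ (c + k) + 2 * (1 / 2) ^ (c + n) =
      2 * (1 / 2) ^ c := by
    induction n with
    | zero => simp
    | succ n ih =>
      rw [Finset.sum_range_succ, ← ih, ← Nat.add_assoc, pow_succ]
      ring
  have h2 : (0 : ℚ) ≤ 2 * (1 / 2) ^ (c + n) := by positivity
  linarith

theorem exists_TA (b : ℕ → Option Str) (B : ℕ → Bool) (s : ℕ) :
    ∃ σ : Str, σ.length = s ∧ TA (tbl b s) (pr B s) σ = true := by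
  classical
  by_contra hno
  push Not at hno
  -- bad sets
  let Bd : ℕ → ℕ → Finset Str := fun e t => (strs s).toFinset.filter (fun σ =>
    ∃ s' K, Asked e b s' (pr B K) t ∧ respects e (pr B K) t σ = false)
  let Nd : ℕ → Finset Str := fun i => (strs s).toFinset.filter (fun σ => hitN i (pr B s) σ = true)
  let T := ∑ e ∈ Finset.range s, ∑ s' ∈ Finset.range (s + 1), (state e b s').1
  have hcov : (strs s).toFinset ⊆
      ((Finset.range s).biUnion (fun e => (Finset.range T).biUnion (fun k => Bd e (e + 4 + k)))) ∪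
      ((Finset.range s).biUnion Nd) := by
    intro σ hσ
    have hl : σ.length = s := mem_strs.1 (List.mem_toFinset.1 hσ)
    have h1 := hno σ hl
    rw [Ne, TA_iff hl, not_and_or] at h1
    rw [Finset.mem_union]
    rcases h1 with h1 | h1
    · left
      push Not at h1
      obtain ⟨e, he, s', hs', K, hK, t, h2, h3⟩ := h1
      rw [Finset.mem_biUnion]
      refine ⟨e, Finset.mem_range.2 he, ?_⟩
      rw [Finset.mem_biUnion]
      have hge := asked_ge h2
      refine ⟨t - (e + 4), ?_, ?_⟩
      · rw [Finset.mem_range]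
        have h4 : t < (state e b s').1 := by
          obtain ⟨j, F, l, k1, k2, k3, _⟩ := h2
          rw [← k3]
          exact ((state_inv e b s').fr j F k1).lt l k2
        have h5 : (state e b s').1 ≤ ∑ s' ∈ Finset.range (s + 1), (state e b s').1 :=
          Finset.single_le_sum (f := fun s' => (state e b s').1) (fun _ _ => Nat.zero_le _)
            (Finset.mem_range.2 (by omega))
        have h6 : ∑ s' ∈ Finset.range (s + 1), (state e b s').1 ≤ T :=
          Finset.single_le_sum (f := fun e => ∑ s' ∈ Finset.range (s + 1), (state e b s').1)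
            (fun _ _ => Nat.zero_le _) (Finset.mem_range.2 he)
        omega
      · rw [Nat.add_sub_cancel' hge]
        rw [Finset.mem_filter]
        exact ⟨hσ, s', K, h2, by simpa using h3⟩
    · right
      push Not at h1
      obtain ⟨i, hi, h2⟩ := h1
      rw [Finset.mem_biUnion]
      exact ⟨i, Finset.mem_range.2 hi, Finset.mem_filter.2 ⟨hσ, by simpa using h2⟩⟩
  have hcard : ((strs s).toFinset.card : ℚ) = 2 ^ s := by
    rw [List.toFinset_card_of_nodup (strs_nodup s), length_strs]; norm_num
  have hcount : ∀ (p : Str → Bool), (((strs s).toFinset.filter (fun σ => p σ = true)).card : ℚ) =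
      ((strs s).countP p : ℕ) := by
    intro p
    rw [← List.toFinset_filter, List.toFinset_card_of_nodup ((strs_nodup s).filter _),
      List.countP_eq_length_filter]
  have hBd : ∀ e t, ((Bd e t).card : ℚ) ≤ 2 ^ s * (1 / 2) ^ t := by
    intro e t
    by_cases hex : ∃ s' K, Asked e b s' (pr B K) t
    · obtain ⟨s', K, hA⟩ := hex
      have hsub : Bd e t ⊆ (strs s).toFinset.filter
          (fun σ => (!respects e (pr B K) t σ) = true) := by
        intro σ hσ
        rw [Finset.mem_filter] at hσ ⊢
        obtain ⟨h1, s'', K', h2, h3⟩ := hσ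
        refine ⟨h1, ?_⟩
        have : pr B K' = pr B K := asked_unique h2 hA (pr_prefix B (le_max_left K' K))
          (pr_prefix B (le_max_right K' K))
        rw [← this, h3]; rfl
      have h1 : ((Bd e t).card : ℚ) ≤ ((strs s).countP (fun σ => !respects e (pr B K) t σ) : ℕ) := by
        rw [← hcount]
        exact_mod_cast Finset.card_le_card hsub
      have h2 := count_respects e (pr B K) t s
      have h3 : (((strs s).countP (fun σ => !respects e (pr B K) t σ) : ℕ) : ℚ) * 2 ^ t ≤ 2 ^ s := by
        exact_mod_cast h2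
      have h4 : (0 : ℚ) < 2 ^ t := by positivity
      rw [one_div, inv_pow, ← div_eq_mul_inv, le_div_iff₀ h4]
      exact le_trans (mul_le_mul_of_nonneg_right h1 h4.le) h3
    · have : Bd e t = ∅ := by
        rw [Finset.eq_empty_iff_forall_notMem]
        intro σ hσ
        rw [Finset.mem_filter] at hσ
        obtain ⟨_, s'', K', h2, _⟩ := hσ
        exact hex ⟨s'', K', h2⟩
      rw [this]
      simp
      try positivity
  have hNd : ∀ i, ((Nd i).card : ℚ) ≤ 2 ^ s * (1 / 2) ^ (3 + i) := by
    intro i
    have h1 : ((Nd i).card : ℚ) = ((strs s).countP (fun σ => hitN i (pr B s) σ) : ℕ) := hcount _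
    have h2 : (((strs s).countP (fun σ => hitN i (pr B s) σ) : ℕ) : ℚ) * 2 ^ (i + 3) ≤ 2 ^ s := by
      exact_mod_cast count_hitN i (pr B s) s
    have h4 : (0 : ℚ) < 2 ^ (3 + i) := by positivity
    rw [one_div, inv_pow, ← div_eq_mul_inv, le_div_iff₀ h4, h1, Nat.add_comm 3 i]
    exact h2
  have hsum : ((strs s).toFinset.card : ℚ) ≤
      (∑ e ∈ Finset.range s, ∑ k ∈ Finset.range T, (2 : ℚ) ^ s * (1 / 2) ^ (e + 4 + k)) +
      ∑ i ∈ Finset.range s, (2 : ℚ) ^ s * (1 / 2) ^ (3 + i) := by
    have h1 : ((strs s).toFinset.card : ℚ) ≤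
        ((∑ e ∈ Finset.range s, ∑ k ∈ Finset.range T, (Bd e (e + 4 + k)).card +
          ∑ i ∈ Finset.range s, (Nd i).card : ℕ) : ℚ) := by
      have h2 := Finset.card_le_card hcov
      have h3 := Finset.card_union_le
        ((Finset.range s).biUnion (fun e => (Finset.range T).biUnion (fun k => Bd e (e + 4 + k))))
        ((Finset.range s).biUnion Nd)
      have h4 := Finset.card_biUnion_le (s := Finset.range s)
        (t := fun e => (Finset.range T).biUnion (fun k => Bd e (e + 4 + k)))
      have h5 := Finset.card_biUnion_le (s := Finset.range s) (t := Nd)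
      have h6 : ∑ e ∈ Finset.range s, ((Finset.range T).biUnion (fun k => Bd e (e + 4 + k))).card ≤
          ∑ e ∈ Finset.range s, ∑ k ∈ Finset.range T, (Bd e (e + 4 + k)).card :=
        Finset.sum_le_sum (fun e _ => Finset.card_biUnion_le)
      exact_mod_cast (by omega :
        (strs s).toFinset.card ≤ ∑ e ∈ Finset.range s, ∑ k ∈ Finset.range T,
          (Bd e (e + 4 + k)).card + ∑ i ∈ Finset.range s, (Nd i).card)
    refine le_trans h1 ?_
    push_cast
    exact add_le_add (Finset.sum_le_sum (fun e _ => Finset.sum_le_sum (fun k _ => hBd e _)))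
      (Finset.sum_le_sum (fun i _ => hNd i))
  have hpos : (0 : ℚ) < 2 ^ s := by positivity
  have hA : (∑ e ∈ Finset.range s, ∑ k ∈ Finset.range T, (2 : ℚ) ^ s * (1 / 2) ^ (e + 4 + k)) ≤
      2 ^ s * (1 / 4) := by
    calc (∑ e ∈ Finset.range s, ∑ k ∈ Finset.range T, (2 : ℚ) ^ s * (1 / 2) ^ (e + 4 + k))
        = ∑ e ∈ Finset.range s, 2 ^ s * ∑ k ∈ Finset.range T, ((1 : ℚ) / 2) ^ (e + 4 + k) := by
          apply Finset.sum_congr rfl
          intro e _
          rw [Finset.mul_sum]
      _ ≤ ∑ e ∈ Finset.range s, 2 ^ s * (2 * (1 / 2) ^ (e + 4)) :=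
          Finset.sum_le_sum (fun e _ => mul_le_mul_of_nonneg_left (geom (e + 4) T) hpos.le)
      _ = 2 ^ s * 2 * ∑ e ∈ Finset.range s, ((1 : ℚ) / 2) ^ (4 + e) := by
          rw [Finset.mul_sum]
          apply Finset.sum_congr rfl
          intro e _
          rw [Nat.add_comm 4 e]
          ring
      _ ≤ 2 ^ s * 2 * (2 * (1 / 2) ^ 4) :=
          mul_le_mul_of_nonneg_left (geom 4 s) (by positivity)
      _ = 2 ^ s * (1 / 4) := by ring
  have hN : ∑ i ∈ Finset.range s, (2 : ℚ) ^ s * (1 / 2) ^ (3 + i) ≤ 2 ^ s * (1 / 4) := by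
    rw [← Finset.mul_sum]
    calc 2 ^ s * ∑ i ∈ Finset.range s, ((1 : ℚ) / 2) ^ (3 + i) ≤ 2 ^ s * (2 * (1 / 2) ^ 3) :=
          mul_le_mul_of_nonneg_left (geom 3 s) hpos.le
      _ = 2 ^ s * (1 / 4) := by ring
  rw [hcard] at hsum
  linarith

/-- König's lemma -/
theorem koenig {P : Str → Prop} (hex : ∀ n, ∃ σ : Str, σ.length = n ∧ P σ)
    (hcl : ∀ σ m, P σ → m ≤ σ.length → P (σ.take m)) : ∃ X : ℕ → Bool, ∀ n, P (pr X n) := by
  classical
  let E : Str → Prop := fun σ => ∀ n, σ.length ≤ n → ∃ τ : Str, τ.length = n ∧ σ <+: τ ∧ P τ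
  have hE0 : E [] := by
    intro n _
    obtain ⟨σ, h1, h2⟩ := hex n
    exact ⟨σ, h1, List.nil_prefix, h2⟩
  have hEs : ∀ σ : Str, E σ → ∃ b, E (σ ++ [b]) := by
    intro σ hσ
    by_contra hno
    push Not at hno
    have h0 := hno false
    have h1 := hno true
    simp only [E] at h0 h1
    push Not at h0 h1
    obtain ⟨n0, hn0, h0⟩ := h0
    obtain ⟨n1, hn1, h1⟩ := h1
    simp only [List.length_append, List.length_cons, List.length_nil] at hn0 hn1
    obtain ⟨τ, hτ1, hτ2, hτ3⟩ := hσ (max n0 n1) (by omega)
    obtain ⟨u, rfl⟩ := hτ2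
    cases u with
    | nil => simp at hτ1; omega
    | cons c u =>
      have hp : σ ++ [c] <+: σ ++ c :: u := ⟨u, by simp⟩
      cases c with
      | false =>
        apply h0 ((σ ++ false :: u).take n0) (by simp at hτ1 ⊢; omega)
        · rw [List.prefix_take_iff]
          exact ⟨hp, by simp; omega⟩
        · exact hcl _ _ hτ3 (by omega)
      | true =>
        apply h1 ((σ ++ true :: u).take n1) (by simp at hτ1 ⊢; omega)
        · rw [List.prefix_take_iff]
          exact ⟨hp, by simp; omega⟩
        · exact hcl _ _ hτ3 (by omega)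
  choose! f hf using hEs
  let sq : ℕ → Str := fun n => Nat.rec [] (fun _ σ => σ ++ [f σ]) n
  have hsq : ∀ n, E (sq n) := by
    intro n
    induction n with
    | zero => exact hE0
    | succ n ih => exact hf _ ih
  have hlen : ∀ n, (sq n).length = n := by
    intro n
    induction n with
    | zero => rfl
    | succ n ih =>
      show (sq n ++ [f (sq n)]).length = n + 1
      simp [ih]
  refine ⟨fun n => f (sq n), fun n => ?_⟩
  have hpr : pr (fun n => f (sq n)) n = sq n := by
    induction n with
    | zero => rfl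
    | succ n ih => rw [pr_succ, ih]
  rw [hpr]
  obtain ⟨τ, h1, h2, h3⟩ := hsq n (sq n).length (le_refl _)
  have : sq n = τ := h2.eq_of_length h1.symm
  rw [this]; exact h3

end Pool.Agent.H641R3.PC
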