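import Pool.Agent.H641R3.PC.Stab
import Pool.Agent.H641R3.PC.Cert

set_option autoImplicit false

namespace Pool.Agent.H641R3.PC

/-- limit computable -/
def Delta2 (B : ℕ → Bool) : Prop :=
  ∃ a : ℕ → ℕ → Bool, Computable₂ a ∧ ∀ n, ∃ S, ∀ s ≥ S, a n s = B n

/-- approximation of the common value of all living extensions of `τ` -/
def apx (e : ℕ) (b : ℕ → Option Str) (j : ℕ) (τ : Str) (n s : ℕ) : Bool :=
  (((alive (state e b s) s).filterMap (fun ρ => if pfx τ ρ then V (Ps j) ρ n else none)).head?).getD
    false

theorem agree_iff {j : ℕ} {h : List (ℕ × Bool)} {β : Str} :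
    agree j h β = true ↔ ∀ p ∈ h, V (Th j) β p.1 = some p.2 := by
  simp [agree]

theorem agree_mono {j : ℕ} {h : List (ℕ × Bool)} {β β' : Str} (hβ : β <+: β')
    (ha : agree j h β = true) : agree j h β' = true := by
  rw [agree_iff] at ha ⊢
  exact fun p hp => V_mono hβ (ha p hp)

theorem ex_agree {j : ℕ} {B : ℕ → Bool} {h : List (ℕ × Bool)}
    (H : ∀ p ∈ h, ∃ k, V (Th j) (pr B k) p.1 = some p.2) : ∃ K, agree j h (pr B K) = true := by
  induction h with
  | nil => exact ⟨0, by simp [agree]⟩
  | cons p h ih =>
    obtain ⟨K, hK⟩ := ih (fun q hq => H q (List.mem_cons_of_mem _ hq))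
    obtain ⟨k, hk⟩ := H p List.mem_cons_self
    refine ⟨max K k, ?_⟩
    rw [agree_iff]
    intro q hq
    rcases List.mem_cons.1 hq with rfl | hq
    · exact V_mono (pr_prefix B (le_max_right _ _)) hk
    · exact V_mono (pr_prefix B (le_max_left _ _)) (agree_iff.1 hK q hq)

theorem conf_incompat {j : ℕ} {h h' : List (ℕ × Bool)} {β β' : Str} (c : Conf h h')
    (ha : agree j h β = true) (ha' : agree j h' β' = true) : ¬ β <+: β' := by
  intro hp
  have h1 := agree_iff.1 (agree_mono hp ha)
  have h2 := agree_iff.1 ha'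
  obtain ⟨n, ⟨h3, h4⟩ | ⟨h3, h4⟩⟩ := c
  · have e1 := h1 _ h3
    have e2 := h2 _ h4
    simp only at e1 e2
    rw [e1] at e2; simp at e2
  · have e1 := h1 _ h3
    have e2 := h2 _ h4
    simp only at e1 e2
    rw [e1] at e2; simp at e2

/-- the counting argument -/
theorem count_contra {e j s T t : ℕ} {F : Frame} (H : FInv e j s T F) (ht : ∃ l ∈ F, l.1 = t)
    (hall : ∀ l ∈ F, l.1 = t → l.2.1.length = t ∧ ∃ β, agree j l.2.1 β = true ∧
      ∃ s', C e s' β t = true) : False := by
  classical
  set Lt := F.filter (fun l => l.1 = t) with hLt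
  have hmem : ∀ l ∈ Lt, l ∈ F ∧ l.1 = t := by
    intro l hl
    rw [hLt, List.mem_filter] at hl
    exact ⟨hl.1, by simpa using hl.2⟩
  have h1 : ∀ l : Leaf, ∃ (β : Str) (s' : ℕ), l ∈ Lt → agree j l.2.1 β = true ∧ C e s' β t = true := by
    intro l
    by_cases hl : l ∈ Lt
    · obtain ⟨h2, h3⟩ := hmem l hl
      obtain ⟨_, β, h4, s', h5⟩ := hall l h2 h3
      exact ⟨β, s', fun _ => ⟨h4, h5⟩⟩
    · exact ⟨[], 0, fun h => absurd h hl⟩
  choose βf sf hf using h1
  set S := (Lt.map sf).sum with hS
  have hle : ∀ l ∈ Lt, sf l ≤ S := by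
    intro l hl
    exact List.single_le_sum (by simp) _ (List.mem_map.2 ⟨l, hl, rfl⟩)
  have hb : (Lt.map βf).length < 2 ^ t := by
    apply C_bound (e := e) (s := S)
    · rw [List.pairwise_map]
      have hc := H.tree.conf
      rw [List.pairwise_map] at hc
      have hc2 := hc.filter (fun l => decide (l.1 = t))
      refine hc2.imp_of_mem ?_
      intro l l' hl hl' hcc
      have m1 := hmem l hl
      have m2 := hmem l' hl'
      have c : Conf l.2.1 l'.2.1 := hcc (m1.2.trans m2.2.symm)
      exact ⟨conf_incompat c (hf l hl).1 (hf l' hl').1,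
        conf_incompat c.symm (hf l' hl').1 (hf l hl).1⟩
    · intro β hβ
      obtain ⟨l, hl, rfl⟩ := List.mem_map.1 hβ
      exact C_mono (hle l hl) (hf l hl).2
  have hk := H.tree.kraft t (by
    obtain ⟨l, hl, h2⟩ := ht
    exact ⟨sig l, List.mem_map.2 ⟨l, hl, rfl⟩, h2⟩)
  have hk2 : kr t (F.map sig) = Lt.length := by
    unfold kr
    rw [List.filter_map, List.map_map]
    have : ((fun x : Sig => decide (x.1 = t)) ∘ sig) = (fun l : Leaf => decide (l.1 = t)) := rfl
    rw [this, ← hLt]
    have h3 : Lt.map ((fun x : Sig => 2 ^ (t - x.2.length)) ∘ sig) = Lt.map (fun _ => 1) := by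
      apply List.map_congr_left
      intro l hl
      obtain ⟨h4, h5⟩ := hmem l hl
      have h6 := (hall l h4 h5).1
      simp [sig, h6]
    rw [h3]
    simp
  rw [List.length_map] at hb
  omega

theorem Ps_even {j : ℕ} (h : j % 2 = 0) : Ps j = j / 2 + 1 := by simp [Ps, h]
theorem Th_even {j : ℕ} (h : j % 2 = 0) : Th j = 0 := by simp [Th, h]
theorem Ps_odd {j : ℕ} (h : j % 2 ≠ 0) : Ps j = 0 := by simp [Ps, h]

theorem V_zero (σ : Str) (n : ℕ) : V 0 σ n = σ[n]? := by simp [V]

theorem V_zero_pr {B : ℕ → Bool} {k n : ℕ} {v : Bool} (h : V 0 (pr B k) n = some v) : v = B n := by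
  rw [V_zero, pr_getElem?] at h
  split at h
  · simpa using h.symm
  · simp at h

/-- two comparable prefixes of a sequence give the same value -/
theorem V_unique {m : ℕ} {σ τ ρ : Str} {n : ℕ} {v w : Bool} (h1 : σ <+: ρ) (h2 : τ <+: ρ)
    (hv : V m σ n = some v) (hw : V m τ n = some w) : v = w := by
  have e1 := V_mono h1 hv
  have e2 := V_mono h2 hw
  rw [e1] at e2
  exact Option.some.inj e2

theorem verify {B X : ℕ → Bool} (hB : ¬ Computable B) {e : ℕ} {b : ℕ → Option Str}
    (hb : PermOK B b) (hb1 : (∀ s, b s = none) → ¬ Delta2 B)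
    (hc : ∀ j q, Computable (fun s => vals j (cq e b j q s)))
    (ha : ∀ j τ, Computable₂ (apx e b j τ))
    (hask : ∀ s K t, Asked e b s (pr B K) t → ∃ s', C e s' (pr B K) t = true)
    (hX : ∀ s, ∃ z ∈ bot (state e b s), z <+: pr X s)
    (j : ℕ) (g : ℕ → Bool)
    (hgX : ∀ n, ∃ k, V (Ps j) (pr X k) n = some (g n))
    (hgB : ∀ n, ∃ k, V (Th j) (pr B k) n = some (g n)) : False := by
  obtain ⟨s0, hs0⟩ := stab hB hb hc (j + 1)
  have hlen : ∀ s ≥ s0, j < (state e b s).2.length := fun s hs => (hs0 s hs).2
  have hnil : ∀ s ≥ s0, acts e s (b s) (state e b s) j = [] := fun s hs =>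
    (hs0 s hs).1 j (Nat.lt_succ_self j)
  have hq : ∀ s ≥ s0, Quiet e b j s := fun s hs =>
    ⟨fun i hi => (hs0 s hs).1 i (by omega), le_of_lt (hlen s hs)⟩
  set F := frameAt e b j s0 with hFdef
  have hF : ∀ s ≥ s0, (state e b s).2[j]? = some F := by
    intro s hs
    rw [frameAt_spec (hlen s hs)]
    congr 1
    induction s, hs using Nat.le_induction with
    | base => rfl
    | succ n hn ih => rw [frame_keep (hq n hn) (hnil n hn) (hlen n hn), ih]
  have hno : ∀ s ≥ s0, ∀ F1 l F2 R, F = F1 ++ l :: F2 →
      ¬ ActRel e s (b s) (alive (state e b s) s) j F1 l F2 R := by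
    intro s hs F1 l F2 R hFe hR
    have : (j, refresh (alive (state e b s) s) F1 ++ R ++ refresh (alive (state e b s) s) F2) ∈
        acts e s (b s) (state e b s) j := mem_acts.2 ⟨rfl, F1, l, F2, R, by rw [hF s hs, hFe], hR, rfl⟩
    rw [hnil s hs] at this
    simp at this
  have hInv := state_inv e b
  have hFI : FInv e j s0 (state e b s0).1 F := (hInv s0).fr j F (hF s0 (le_refl _))
  obtain ⟨l, hl, hld, hlX⟩ : ∃ l ∈ F, l.2.2.2 = false ∧ l.2.2.1 <+: pr X s0 := by
    obtain ⟨z, hz, h1⟩ := hX s0
    obtain ⟨τ, h2, h3⟩ := (hInv s0).bot_down (hF s0 (le_refl _)) hz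
    obtain ⟨l, h4, h5, rfl⟩ := mem_cones.1 h2
    exact ⟨l, h4, h5, h3.trans h1⟩
  have hlX' : ∀ s ≥ s0, l.2.2.1 <+: pr X s := fun s hs => hlX.trans (pr_prefix X hs)
  have hXal : ∀ s, pr X s ∈ alive (state e b s) s := fun s => mem_alive.2 ⟨by simp, hX s⟩
  obtain ⟨F1, F2, hsplit⟩ := List.append_of_mem hl
  have hle : l.2.1.length ≤ l.1 := hFI.tree.le (sig l) (List.mem_map.2 ⟨l, hl, rfl⟩)
  rcases Nat.lt_or_eq_of_le hle with hlt | heq
  · -- incomplete leaf
    by_cases hj : j % 2 = 0
    · have hgB' : ∀ n, g n = B n := by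
        intro n
        obtain ⟨k, hk⟩ := hgB n
        rw [Th_even hj] at hk
        exact V_zero_pr hk
      rcases hb with hb | hb
      · -- not limit computable
        apply hb1 hb
        refine ⟨apx e b j l.2.2.1, ha j _, ?_⟩
        intro n
        obtain ⟨k, hk⟩ := hgX n
        refine ⟨max s0 k, fun s hs => ?_⟩
        have hs1 : s0 ≤ s := by omega
        have hXs : V (Ps j) (pr X s) n = some (B n) := by
          rw [← hgB' n]
          exact V_mono (pr_prefix X (by omega)) hk
        have hns : n < s := by simpa using V_lt hXs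
        unfold apx
        cases hh : ((alive (state e b s) s).filterMap
            (fun ρ => if pfx l.2.2.1 ρ then V (Ps j) ρ n else none)).head? with
        | none =>
          exfalso
          rw [List.head?_eq_none_iff, List.filterMap_eq_nil_iff] at hh
          have := hh (pr X s) (hXal s)
          rw [if_pos (pfx_iff.2 (hlX' s hs1)), hXs] at this
          simp at this
        | some v =>
          have hm := List.mem_of_head? hh
          rw [List.mem_filterMap] at hm
          obtain ⟨ρ, hρ, h1⟩ := hm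
          split at h1
          · rename_i h2
            rw [pfx_iff] at h2
            show v = B n
            by_contra hne
            cases hBn : B n with
            | false =>
              have hv : v = true := by
                rw [hBn] at hne
                simpa using hne
              rw [hBn] at hXs
              rw [hv] at h1
              exact hno s hs1 F1 l F2 _ hsplit ⟨hld, Or.inl ⟨hlt, pr X s, hXal s, ρ, hρ, n, hns,
                hlX' s hs1, h2, hXs, h1, rfl⟩⟩
            | true =>
              have hv : v = false := by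
                rw [hBn] at hne
                simpa using hne
              rw [hBn] at hXs
              rw [hv] at h1
              exact hno s hs1 F1 l F2 _ hsplit ⟨hld, Or.inl ⟨hlt, ρ, hρ, pr X s, hXal s, n, hns,
                h2, hlX' s hs1, h1, hXs, rfl⟩⟩
          · simp at h1
      · -- limit computable
        have hv : ∀ n, n < (vals j l.2.2.1).length → (vals j l.2.2.1)[n]? = some (B n) := by
          intro n hn
          have h1 := vals_get hn
          rw [List.getElem?_eq_getElem hn] at h1
          obtain ⟨k, hk⟩ := hgX n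
          have h2 := V_unique (hlX.trans (pr_prefix X (le_max_left s0 k)))
            (pr_prefix X (le_max_right s0 k)) h1 hk
          rw [List.getElem?_eq_getElem hn, h2, hgB' n]
        have hperm : ∃ S, ∀ s ≥ S, permit (b s) (vals j l.2.2.1) = true := by
          have : ∀ m, m ≤ (vals j l.2.2.1).length → ∃ S, ∀ s ≥ S, ∃ w, b s = some w ∧
              ∀ n < m, w[n]? = some (B n) := by
            intro m
            induction m with
            | zero =>
              intro _
              obtain ⟨S, hS⟩ := hb 0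
              refine ⟨S, fun s hs => ?_⟩
              obtain ⟨w, hw, _⟩ := hS s hs
              exact ⟨w, hw, fun n hn => absurd hn (Nat.not_lt_zero _)⟩
            | succ m ih =>
              intro hm
              obtain ⟨S1, hS1⟩ := ih (by omega)
              obtain ⟨S2, hS2⟩ := hb m
              refine ⟨max S1 S2, fun s hs => ?_⟩
              obtain ⟨w, hw, h1⟩ := hS1 s (by omega)
              obtain ⟨w', hw', h2⟩ := hS2 s (by omega)
              rw [hw] at hw'
              have : w = w' := Option.some.inj hw'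
              subst this
              refine ⟨w, hw, fun n hn => ?_⟩
              rcases Nat.lt_or_ge n m with h3 | h3
              · exact h1 n h3
              · have : n = m := by omega
                subst this
                exact h2
          obtain ⟨S, hS⟩ := this _ (le_refl _)
          refine ⟨S, fun s hs => ?_⟩
          obtain ⟨w, hw, h1⟩ := hS s hs
          rw [hw]
          simp only [permit]
          rw [pfx_iff, List.prefix_iff_getElem?]
          intro i hi
          rw [h1 i hi, ← hv i hi, List.getElem?_eq_getElem hi]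
        obtain ⟨S, hS⟩ := hperm
        obtain ⟨k, hk⟩ := hgX (vals j l.2.2.1).length
        set s := max S (max s0 k) with hs
        have h1 : V (Ps j) (pr X s) (vals j l.2.2.1).length = some (g _) :=
          V_mono (pr_prefix X (by omega)) hk
        exact hno s (by omega) F1 l F2 _ hsplit ⟨hld, Or.inr (Or.inl ⟨hlt, hS s (by omega), pr X s,
          hXal s, hlX' s (by omega), by rw [h1]; rfl, rfl⟩)⟩
    · -- identity functional: splitting always possible
      set s := s0 + 1 with hs
      obtain ⟨z, hz, h1⟩ := (hInv s).bot_up (hF s (by omega)) (mem_cones.2 ⟨l, hl, hld, rfl⟩)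
      have hzl := (hInv s).bot_len hz
      have hzs : z.length < s := by omega
      obtain ⟨ρ0, h2, h3⟩ := extend_len (z := z ++ [false]) (s := s) (by simp; omega)
      obtain ⟨ρ1, h4, h5⟩ := extend_len (z := z ++ [true]) (s := s) (by simp; omega)
      have hz0 : z <+: ρ0 := (List.prefix_append _ _).trans h3
      have hz1 : z <+: ρ1 := (List.prefix_append _ _).trans h5
      refine hno s (by omega) F1 l F2 _ hsplit ⟨hld, Or.inl ⟨hlt, ρ0, mem_alive.2 ⟨h2, z, hz, hz0⟩,
        ρ1, mem_alive.2 ⟨h4, z, hz, hz1⟩, z.length, hzs, h1.trans hz0, h1.trans hz1, ?_, ?_, rfl⟩⟩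
      · rw [Ps_odd hj, V_zero]
        obtain ⟨t, rfl⟩ := h3
        simp
      · rw [Ps_odd hj, V_zero]
        obtain ⟨t, rfl⟩ := h5
        simp
  · -- complete leaf
    have hh : ∀ p ∈ l.2.1, ∃ k, V (Th j) (pr B k) p.1 = some p.2 := by
      intro p hp
      obtain ⟨k, hk⟩ := hgX p.1
      have h1 := hFI.hist l hl p hp
      have h2 := V_unique (hlX.trans (pr_prefix X (le_max_left s0 k)))
        (pr_prefix X (le_max_right s0 k)) h1 hk
      obtain ⟨k', hk'⟩ := hgB p.1
      exact ⟨k', by rw [hk', h2]⟩
    classical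
    have hex := ex_agree hh
    obtain ⟨K, hK⟩ : ∃ K, K = Nat.find hex := ⟨_, rfl⟩
    have hK1 : agree j l.2.1 (pr B K) = true := by rw [hK]; exact Nat.find_spec hex
    have hge := hFI.ge l hl
    have hK0 : K ≠ 0 := by
      intro h0
      rw [h0] at hK1
      have hne : l.2.1 ≠ [] := by
        intro h
        rw [h] at heq
        simp at heq
        omega
      obtain ⟨p, hp⟩ := List.exists_mem_of_ne_nil _ hne
      have := V_lt (agree_iff.1 hK1 p hp)
      simp at this
    obtain ⟨K', rfl⟩ := Nat.exists_eq_succ_of_ne_zero hK0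
    have hK2 : agree j l.2.1 (pr B (K' + 1)).dropLast = false := by
      have : (pr B (K' + 1)).dropLast = pr B K' := by rw [pr_succ]; simp
      rw [this]
      have h1 := Nat.find_min hex (m := K') (by rw [← hK]; exact Nat.lt_succ_self _)
      simpa using h1
    obtain ⟨s', hs'⟩ := hask s0 (K' + 1) l.1
      ⟨j, F, l, hF s0 (le_refl _), hl, rfl, heq, hK1, hK2⟩
    have hother : ∀ l' ∈ F1 ++ F2, l'.1 = l.1 → l'.2.2.2 = true := by
      intro l' hl' ht
      by_contra hd
      have hd' : l'.2.2.2 = false := by simpa using hd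
      set s := max s0 (max s' (K' + 1)) with hs
      exact hno s (by omega) F1 l F2 _ hsplit ⟨hld, Or.inr (Or.inr ⟨heq, ⟨l', hl', ht, hd'⟩,
        pr B (K' + 1), by simp; omega, hK1, C_mono (by omega) hs', rfl⟩)⟩
    refine count_contra (t := l.1) hFI ⟨l, hl, rfl⟩ ?_
    intro l' hl' ht
    by_cases hll : l' = l
    · subst hll
      exact ⟨heq, pr B (K' + 1), hK1, s', hs'⟩
    · have hm : l' ∈ F1 ++ F2 := by
        rw [hsplit, List.mem_append, List.mem_cons] at hl'
        rw [List.mem_append]
        rcases hl' with h | h | h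
        · exact Or.inl h
        · exact absurd h hll
        · exact Or.inr h
      have hd := hother l' hm ht
      obtain ⟨h1, β, h2, s'', h3⟩ := hFI.dead l' hl' hd
      rw [ht] at h1 h3
      exact ⟨h1, β, h2, s'', h3⟩

end Pool.Agent.H641R3.PC
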