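import Mathlib
import Pool.Agent.H641R3.PC.B
import Pool.Agent.H641R3.PC.Defs2
import Pool.Agent.H641R3.PC.Ver

set_option autoImplicit false

/-! Computability of the trees (helper116). -/

namespace Pool.Agent.H641R3.PC

open Encodable

section funs2

variable {α : Type} [Primcodable α]

theorem q_asksL {S : α → St} {b : α → Str} (hS : Primrec S) (hb : Primrec b) :
    Primrec fun a => asksL (S a) (b a) := by
  unfold asksL
  refine Primrec.list_flatMap (Primrec.list_range.comp (Primrec.list_length.comp
    (Primrec.snd.comp hS))) ?_
  have hF : Primrec fun p : α × ℕ => (((S p.1).2[p.2]?).getD [] : Frame) :=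
    Primrec.option_getD.comp (Primrec.list_getElem?.comp (Primrec.snd.comp (hS.comp Primrec.fst))
      Primrec.snd) (Primrec.const [])
  refine Primrec.listFilterMap (α := α × ℕ) hF ?_
  have hj : Primrec fun p : (α × ℕ) × Leaf => p.1.2 := Primrec.snd.comp Primrec.fst
  have hbb : Primrec fun p : (α × ℕ) × Leaf => b p.1.1 := hb.comp (Primrec.fst.comp Primrec.fst)
  have l1 : Primrec fun p : (α × ℕ) × Leaf => p.2.1 := Primrec.fst.comp Primrec.snd
  have l2 : Primrec fun p : (α × ℕ) × Leaf => p.2.2.1 :=
    Primrec.fst.comp (Primrec.snd.comp Primrec.snd)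
  have hd : Primrec fun p : (α × ℕ) × Leaf => (b p.1.1).dropLast := by
    have := Primrec.list_take.comp (Primrec.pred.comp (Primrec.list_length.comp hbb)) hbb
    refine this.of_eq fun p => ?_
    rw [List.dropLast_eq_take]
    rfl
  refine Primrec.ite ?_ (Primrec.option_some.comp l1) (Primrec.const none)
  exact (Primrec.eq.comp (Primrec.list_length.comp l2) l1).and
    ((q_bool (q_agree hj l2 hbb)).and (Primrec.eq.comp (q_agree hj l2 hd) (Primrec.const false)))

theorem q_hitN {i : α → ℕ} {r s : α → Str} (hi : Primrec i) (hr : Primrec r) (hs : Primrec s) :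
    Primrec fun a => hitN (i a) (r a) (s a) := by
  unfold hitN
  refine q_all (Primrec.list_range.comp (Primrec.nat_add.comp hi (Primrec.const 3))) ?_
  have hU : Primrec fun p : α × ℕ => U (i p.1) (r p.1) p.2 :=
    q_U (hi.comp Primrec.fst) (hr.comp Primrec.fst) Primrec.snd
  exact ((Primrec.eq.comp (q_isSome hU) (Primrec.const true)).and
    (Primrec.eq.comp hU (Primrec.list_getElem?.comp (hs.comp Primrec.fst) Primrec.snd))).decide

theorem q_respects {e t : α → ℕ} {b s : α → Str} (he : Primrec e) (hb : Primrec b)
    (ht : Primrec t) (hs : Primrec s) : Primrec fun a => respects (e a) (b a) (t a) (s a) := by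
  unfold respects
  refine q_all (Primrec.list_range.comp (Primrec.succ.comp (Primrec.list_length.comp hs))) ?_
  have f : Primrec fun p : α × ℕ => p.1 := Primrec.fst
  refine Primrec.or.comp (Primrec.not.comp (q_comp (he.comp f)
    (Primrec.list_take.comp Primrec.snd (hs.comp f)) (hb.comp f))) ?_
  exact q_C (he.comp f) Primrec.snd (hb.comp f) (ht.comp f)

theorem q_TA {T : α → List (ℕ × St)} {r s : α → Str} (hT : Primrec T) (hr : Primrec r)
    (hs : Primrec s) : Primrec fun a => TA (T a) (r a) (s a) := by
  unfold TA
  refine Primrec.and.comp ?_ ?_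
  · refine q_all hT ?_
    refine q_all (α := α × (ℕ × St)) (Primrec.list_range.comp (Primrec.succ.comp
      (Primrec.list_length.comp (hr.comp Primrec.fst)))) ?_
    have f : Primrec fun p : (α × (ℕ × St)) × ℕ => p.1.1 := Primrec.fst.comp Primrec.fst
    have hrr : Primrec fun p : (α × (ℕ × St)) × ℕ => (r p.1.1).take p.2 :=
      Primrec.list_take.comp Primrec.snd (hr.comp f)
    refine q_all (α := (α × (ℕ × St)) × ℕ)
      (q_asksL (Primrec.snd.comp (Primrec.snd.comp Primrec.fst)) hrr) ?_
    exact q_respects (α := ((α × (ℕ × St)) × ℕ) × ℕ)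
      ((Primrec.fst.comp (Primrec.snd.comp Primrec.fst)).comp Primrec.fst)
      (hrr.comp Primrec.fst) Primrec.snd ((hs.comp f).comp Primrec.fst)
  · refine q_all (Primrec.list_range.comp (Primrec.list_length.comp hs)) ?_
    exact Primrec.not.comp (q_hitN Primrec.snd (hr.comp Primrec.fst) (hs.comp Primrec.fst))

theorem q_TQ {S : α → St} {s : α → Str} (hS : Primrec S) (hs : Primrec s) :
    Primrec fun a => TQ (S a) (s a) := by
  unfold TQ
  exact q_any (q_bot hS) (q_pfx Primrec.snd (hs.comp Primrec.fst))

end funs2

theorem ta_primrec : Primrec (fun p : List (ℕ × St) × (Str × Str) => TA p.1 p.2.1 p.2.2) :=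
  q_TA Primrec.fst (Primrec.fst.comp Primrec.snd) (Primrec.snd.comp Primrec.snd)

/-- computable tables -/
theorem c_map_range {α σ : Type} [Primcodable α] [Primcodable σ] {g : α → ℕ → σ} (hg : Computable₂ g)
    {f : α → ℕ} (hf : Computable f) : Computable fun a => (List.range (f a)).map (g a) := by
  have h2 : Computable₂ (fun (a : α) (q : ℕ × List σ) => q.2 ++ [g a q.1]) := by
    have f1 : Computable (fun r : α × (ℕ × List σ) => r.2.2) := Computable.snd.comp Computable.snd
    have f2 : Computable (fun r : α × (ℕ × List σ) => g r.1 r.2.1) :=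
      hg.comp Computable.fst (Computable.fst.comp Computable.snd)
    exact Computable.list_append.comp f1 (Computable.list_cons.comp f2 (Computable.const []))
  have := Computable.nat_rec hf (Computable.const ([] : List σ)) h2
  refine this.of_eq ?_
  intro a
  induction f a with
  | zero => rfl
  | succ m ih =>
    rw [List.range_succ, List.map_append, ← ih]
    rfl

theorem tbl_computable {b : ℕ → Option Str} (hb : Computable b) : Computable (tbl b) := by
  have hst := state_computable hb
  have h1 : Primrec (fun p : ℕ × ℕ => p.2 / (p.1 + 1)) :=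
    Primrec.nat_div.comp Primrec.snd (Primrec.succ.comp Primrec.fst)
  have h2 : Primrec (fun p : ℕ × ℕ => p.2 % (p.1 + 1)) :=
    Primrec.nat_mod.comp Primrec.snd (Primrec.succ.comp Primrec.fst)
  have h3 : Computable₂ (fun (s k : ℕ) => ((k / (s + 1), state (k / (s + 1)) b (k % (s + 1))) : ℕ × St)) := by
    have h4 : Computable (fun p : ℕ × ℕ => state (p.2 / (p.1 + 1)) b (p.2 % (p.1 + 1))) := by
      have h5 := hst.comp h1.to_comp h2.to_comp
      exact h5
    exact Computable.pair h1.to_comp h4
  have h6 : Computable (fun s : ℕ => s * (s + 1)) :=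
    (Primrec.nat_mul.comp Primrec.id (Primrec.succ)).to_comp
  have h7 := c_map_range h3 h6
  refine h7.of_eq fun s => ?_
  rfl

theorem treeA_computable {b : ℕ → Option Str} (hb : Computable b) :
    Computable₂ (fun ρ x => treeA b ρ x) := by
  have ht := tbl_computable hb
  have hd : Computable (fun p : Str × ℕ => (decode p.2 : Option Str)) :=
    Computable.decode.comp Computable.snd
  have hlen : Computable (fun p : (Str × ℕ) × Str => tbl b p.2.length) := by
    have h1 := ht.comp (Computable.list_length.comp (Computable.snd (α := Str × ℕ) (β := Str)))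
    exact h1
  have hs : Computable (fun p : (Str × ℕ) × Str => TA (tbl b p.2.length) p.1.1 p.2) := by
    have h1 := ta_primrec.to_comp
    have h2 : Computable (fun p : (Str × ℕ) × Str =>
        ((tbl b p.2.length, (p.1.1, p.2)) : List (ℕ × St) × (Str × Str))) :=
      Computable.pair hlen (Computable.pair (Computable.fst.comp Computable.fst) Computable.snd)
    have h3 := h1.comp h2
    exact h3
  have := Computable.option_casesOn hd (Computable.const false) hs.to₂
  refine this.of_eq ?_
  rintro ⟨ρ, x⟩
  unfold treeA
  simp only
  cases (decode x : Option Str) <;> rfl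

theorem treeQ_computable {b : ℕ → Option Str} (hb : Computable b) (e : ℕ) :
    Computable (treeQ e b) := by
  have hst : Computable (fun p : ℕ × Str => state e b p.2.length) := by
    have h1 := (state_computable hb).comp (Computable.const e)
      (Computable.list_length.comp (Computable.snd (α := ℕ) (β := Str)))
    exact h1
  have hq : Primrec (fun p : St × Str => TQ p.1 p.2) := q_TQ Primrec.fst Primrec.snd
  have hs : Computable (fun p : ℕ × Str => TQ (state e b p.2.length) p.2) := by
    have h1 := hq.to_comp
    have h3 := h1.comp (Computable.pair hst Computable.snd)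
    exact h3
  have := Computable.option_casesOn (Computable.decode (α := Str)) (Computable.const false) hs.to₂
  refine this.of_eq ?_
  intro x
  unfold treeQ
  cases (decode x : Option Str) <;> rfl

theorem cq_computable {b : ℕ → Option Str} (hb : Computable b) (e j q : ℕ) :
    Computable (fun s => vals j (cq e b j q s)) := by
  have hst : Computable (fun s : ℕ => state e b s) := by
    have h1 := (state_computable hb).comp (Computable.const e) Computable.id
    exact h1
  have hp : Primrec (fun S : St => vals j
      ((((((S.2[j]?).getD [] : Frame))[q]?).map (fun l => l.2.2.1)).getD [])) := by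
    refine q_vals (Primrec.const j) ?_
    refine Primrec.option_getD.comp ?_ (Primrec.const [])
    refine Primrec.option_map ?_ ?_
    · exact Primrec.list_getElem?.comp (Primrec.option_getD.comp (Primrec.list_getElem?.comp
        Primrec.snd (Primrec.const j)) (Primrec.const [])) (Primrec.const q)
    · exact (Primrec.fst.comp (Primrec.snd.comp (Primrec.snd.comp Primrec.snd)) :
        Primrec fun p : St × Leaf => p.2.2.2.1).to₂
  have h1 := hp.to_comp
  have h2 := h1.comp hst
  exact h2

theorem apx_computable {b : ℕ → Option Str} (hb : Computable b) (e j : ℕ) (τ : Str) :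
    Computable₂ (apx e b j τ) := by
  have hst : Computable (fun p : ℕ × ℕ => state e b p.2) := by
    have h1 := (state_computable hb).comp (Computable.const e) (Computable.snd (α := ℕ) (β := ℕ))
    exact h1
  have hp : Primrec (fun p : St × (ℕ × ℕ) =>
      (((alive p.1 p.2.2).filterMap (fun ρ => if pfx τ ρ then V (Ps j) ρ p.2.1 else none)).head?).getD
        false) := by
    refine Primrec.option_getD.comp (Primrec.list_head?.comp ?_) (Primrec.const false)
    refine Primrec.listFilterMap (q_alive Primrec.fst (Primrec.snd.comp Primrec.snd)) ?_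
    exact Primrec.ite (q_bool (q_pfx (Primrec.const τ) Primrec.snd))
      (q_V (Primrec.const (Ps j)) Primrec.snd (Primrec.fst.comp (Primrec.snd.comp Primrec.fst)))
      (Primrec.const none)
  have h1 := hp.to_comp
  have h2 := h1.comp (Computable.pair hst (Computable.id (α := ℕ × ℕ)))
  exact h2

end Pool.Agent.H641R3.PC
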