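import Pool.Agent.H641R3.PC.Count

set_option autoImplicit false

namespace Pool.Agent.H641R3.PC

open Pool.Agent.Helper743 (RecT cert pre)

theorem bn_dec : ∀ c : Bool, decide (bn c = 1) = c := by decide

theorem tree_rec {F : Str → ℕ → Bool} (hF : Computable₂ F) {len : ℕ → ℕ} (hlen : Computable len)
    (B : ℕ → Bool) :
    RecursiveIn {fun n => Part.some (if B n then 1 else 0)}
      (fun n => Part.some (if F (pr B (len n)) n then 1 else 0) : ℕ →. ℕ) := by
  set O : Set (ℕ →. ℕ) := {fun n => Part.some (if B n then 1 else 0)} with hO
  have hG : RecT O (fun n => bn (B n)) := by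
    have h0 : Nat.RecursiveIn O (fun n => Part.some (if B n then 1 else 0)) :=
      Nat.RecursiveIn.oracle _ rfl
    refine h0.of_eq ?_
    intro n
    show Part.some (if B n = true then 1 else 0) = Part.some (bn (B n))
    cases B n <;> rfl
  have hm : Computable (fun l : List ℕ => l.map (fun v => decide (v = 1))) := by
    have : Primrec (fun l : List ℕ => l.map (fun v => decide (v = 1))) :=
      Primrec.list_map Primrec.id
        ((PrimrecRel.decide Primrec.eq).comp Primrec.snd (Primrec.const 1))
    exact this.to_comp
  have hbn : Computable bn := (Primrec.dom_finite bn).to_comp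
  have hpc : Computable (fun q : (List ℕ × ℕ) × ℕ =>
      if q.1.1.length = len q.1.2 then
        some (bn (F (q.1.1.map (fun v => decide (v = 1))) q.1.2)) else none) := by
    have hdec : Computable (fun q : (List ℕ × ℕ) × ℕ => decide (q.1.1.length = len q.1.2)) := by
      have h1 : Computable₂ (fun a b : ℕ => decide (a = b)) := (PrimrecRel.decide Primrec.eq).to_comp
      exact h1.comp (Computable.list_length.comp (Computable.fst.comp Computable.fst))
        (hlen.comp (Computable.snd.comp Computable.fst))
    have h2 : Computable (fun q : (List ℕ × ℕ) × ℕ =>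
        some (bn (F (q.1.1.map (fun v => decide (v = 1))) q.1.2))) :=
      Computable.option_some.comp (hbn.comp (hF.comp (hm.comp (Computable.fst.comp Computable.fst))
        (Computable.snd.comp Computable.fst)))
    refine (Computable.cond hdec h2 (Computable.const none)).of_eq ?_
    intro q
    by_cases h : q.1.1.length = len q.1.2 <;> simp [h]
  have hpre : ∀ n, (pre (fun n => bn (B n)) n).map (fun v => decide (v = 1)) = pr B n := by
    intro n
    simp only [pre, pr, List.map_map]
    apply List.map_congr_left
    intro i _
    exact bn_dec (B i)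
  have key := cert hG (fun τ x _ => if τ.length = len x then
      some (bn (F (τ.map (fun v => decide (v = 1))) x)) else none) hpc
    (fun x => bn (F (pr B (len x)) x)) ?_ ?_
  · refine RecursiveIn.iff_nat.2 (Nat.RecursiveIn.of_eq key ?_)
    intro n
    show Part.some (bn (F (pr B (len n)) n)) = Part.some (if F (pr B (len n)) n = true then 1 else 0)
    cases F (pr B (len n)) n <;> rfl
  · intro x
    refine ⟨len x, 0, ?_⟩
    have : (pre (fun n => bn (B n)) (len x)).length = len x := by simp
    simp only [this, if_true]
    rfl
  · intro x n w y h
    split at h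
    · rename_i h1
      have h2 : n = len x := by simpa using h1
      subst h2
      rw [hpre] at h
      exact (Option.some.inj h).symm
    · simp at h

theorem len_computable : Computable (fun x : ℕ => ((Encodable.decode (α := Str) x).getD []).length) :=
  Computable.list_length.comp (Computable.option_getD Computable.decode (Computable.const []))

theorem exists_TQ (e : ℕ) (b : ℕ → Option Str) :
    ∃ X : ℕ → Bool, ∀ s, TQ (state e b s) (pr X s) = true := by
  have K1 : ∀ n, ∃ σ : Str, σ.length = n ∧ TQ (state e b σ.length) σ = true := by
    intro n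
    obtain ⟨z, hz⟩ := (state_inv e b n).bot_ne
    have hl := (state_inv e b n).bot_len hz
    obtain ⟨ρ, h1, h2⟩ := extend_len (z := z) (s := n) (by omega)
    refine ⟨ρ, h1, ?_⟩
    rw [h1]
    unfold TQ
    rw [List.any_eq_true]
    exact ⟨z, hz, pfx_iff.2 h2⟩
  have K2 : ∀ (σ : Str) (m : ℕ), TQ (state e b σ.length) σ = true → m ≤ σ.length →
      TQ (state e b (σ.take m).length) (σ.take m) = true := by
    intro σ m h hm
    unfold TQ at h ⊢
    rw [List.any_eq_true] at h ⊢
    obtain ⟨z', hz', h1⟩ := h
    rw [pfx_iff] at h1
    obtain ⟨z, hz, h2⟩ := state_bot e b hm z' hz'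
    have hl := (state_inv e b m).bot_len hz
    have hml : (σ.take m).length = m := by simp; omega
    rw [hml]
    refine ⟨z, hz, pfx_iff.2 ?_⟩
    rw [List.prefix_take_iff]
    exact ⟨h2.trans h1, by omega⟩
  obtain ⟨X, hX⟩ := koenig (P := fun σ => TQ (state e b σ.length) σ = true) K1 K2
  refine ⟨X, fun s => ?_⟩
  have := hX s
  rw [pr_length] at this
  exact this

theorem TQ_iff {st : St} {σ : Str} : TQ st σ = true ↔ ∃ z ∈ bot st, z <+: σ := by
  unfold TQ
  rw [List.any_eq_true]
  constructor
  · rintro ⟨z, hz, h⟩; exact ⟨z, hz, pfx_iff.1 h⟩
  · rintro ⟨z, hz, h⟩; exact ⟨z, hz, pfx_iff.2 h⟩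

theorem treeA_pr (b : ℕ → Option Str) (ρ : Str) (X : ℕ → Bool) (n : ℕ) :
    treeA b ρ (Encodable.encode (pr X n)) = TA (tbl b n) ρ (pr X n) := by
  unfold treeA
  rw [Encodable.encodek]
  simp

theorem treeQ_pr (e : ℕ) (b : ℕ → Option Str) (X : ℕ → Bool) (n : ℕ) :
    treeQ e b (Encodable.encode (pr X n)) = TQ (state e b n) (pr X n) := by
  unfold treeQ
  rw [Encodable.encodek]
  simp

theorem main
    (E1 : ∀ {b : ℕ → Option Str}, Computable b → Computable₂ (fun ρ x => treeA b ρ x))
    (E2 : ∀ {b : ℕ → Option Str}, Computable b → ∀ e, Computable (treeQ e b))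
    (E3 : ∀ {b : ℕ → Option Str}, Computable b → ∀ e j q, Computable (fun s => vals j (cq e b j q s)))
    (E4 : ∀ {b : ℕ → Option Str}, Computable b → ∀ e j τ, Computable₂ (apx e b j τ)) :
    ∀ B : ℕ → Bool, ¬ Computable B →
      ∃ T : ℕ → Bool,
        RecursiveIn {fun n => Part.some (if B n then 1 else 0)}
          (fun n => Part.some (if T n then 1 else 0)) ∧
        (∃ f : ℕ → Bool, ∀ n : ℕ,
          T (Encodable.encode (List.ofFn (fun i : Fin n => f i))) = true) ∧
        ∀ f : ℕ → Bool,
          (∀ n : ℕ, T (Encodable.encode (List.ofFn (fun i : Fin n => f i))) = true) →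
            (¬ RecursiveIn {fun n => Part.some (if B n then 1 else 0)}
                (fun n => Part.some (if f n then 1 else 0)) ∧
             ¬ RecursiveIn {fun n => Part.some (if f n then 1 else 0)}
                (fun n => Part.some (if B n then 1 else 0))) := by
  intro B hB
  simp only [pr_eq_ofFn]
  -- the permission sequence
  obtain ⟨b, hbc, hb, hb1⟩ : ∃ b : ℕ → Option Str, Computable b ∧ PermOK B b ∧
      ((∀ s, b s = none) → ¬ Delta2 B) := by
    by_cases hD : Delta2 B
    · obtain ⟨a, ha, hlim⟩ := hD
      refine ⟨fun s => some ((List.range s).map (fun n => a n s)), ?_, Or.inr ?_, ?_⟩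
      · refine Computable.option_some.comp ?_
        -- build by recursion
        have h1 : Computable (fun s : ℕ => Nat.rec (motive := fun _ => List Bool) []
            (fun n l => l ++ [a n s]) s) := by
          refine Computable.nat_rec (f := fun s : ℕ => s) (g := fun _ => ([] : List Bool))
            (h := fun s (p : ℕ × List Bool) => p.2 ++ [a p.1 s]) Computable.id
            (Computable.const _) ?_
          exact Computable.list_concat.comp (Computable.snd.comp Computable.snd)
            (ha.comp (Computable.fst.comp Computable.snd) Computable.fst)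
        refine h1.of_eq ?_
        intro s
        have : ∀ m, (Nat.rec (motive := fun _ => List Bool) [] (fun n l => l ++ [a n s]) m) =
            (List.range m).map (fun n => a n s) := by
          intro m
          induction m with
          | zero => rfl
          | succ m ih =>
            rw [List.range_succ, List.map_append, ← ih]
            rfl
        exact this s
      · intro n
        obtain ⟨S, hS⟩ := hlim n
        refine ⟨max S (n + 1), fun s hs => ⟨_, rfl, ?_⟩⟩
        have hn : n < s := by omega
        rw [List.getElem?_map, List.getElem?_range hn]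
        simp [hS s (by omega)]
      · intro h
        have := h 0
        simp at this
    · exact ⟨fun _ => none, Computable.const none, Or.inl (fun _ => rfl), fun _ => hD⟩
  have hlt : ∀ {m : ℕ} {k n : ℕ}, m < k → k ≤ n → m < n := fun h1 h2 => lt_of_lt_of_le h1 h2
  by_cases hA : ∃ X : ℕ → Bool, (∀ n, TA (tbl b n) (pr B n) (pr X n) = true) ∧
      ∃ e, ∀ n, ∃ k, U e (pr X k) n = some (B n)
  · -- second class
    obtain ⟨X, hX, e, hXe⟩ := hA
    have hask : ∀ s K t, Asked e b s (pr B K) t → ∃ s', C e s' (pr B K) t = true := by
      intro s K t ht
      -- X computes the prefix of B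
      have h1 : ∃ k, comp e (pr X k) (pr B K) = true := by
        have : ∀ m, m ≤ K → ∃ k, ∀ i < m, U e (pr X k) i = (pr B K)[i]? := by
          intro m
          induction m with
          | zero => intro _; exact ⟨0, fun i hi => absurd hi (Nat.not_lt_zero _)⟩
          | succ m ih =>
            intro hm
            obtain ⟨k1, h1⟩ := ih (by omega)
            obtain ⟨k2, h2⟩ := hXe m
            refine ⟨max k1 k2, fun i hi => ?_⟩
            rcases Nat.lt_or_ge i m with h3 | h3
            · have h4 := h1 i h3
              rw [pr_getElem?, if_pos (by omega)] at h4 ⊢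
              exact U_mono (pr_prefix X (le_max_left _ _)) h4
            · have : i = m := by omega
              subst this
              rw [pr_getElem?, if_pos (by omega)]
              exact U_mono (pr_prefix X (le_max_right _ _)) h2
        obtain ⟨k, hk⟩ := this K (le_refl _)
        refine ⟨k, comp_iff.2 ?_⟩
        intro i hi
        rw [pr_length] at hi
        exact hk i hi
      obtain ⟨k, hk⟩ := h1
      set n := max (e + 1) (max s (max K k)) with hn
      have h2 := hX n
      rw [TA_iff (by simp)] at h2
      have h3 := h2.1 e (by omega) s (by omega) K (by omega) t ht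
      rw [respects_iff] at h3
      refine ⟨k, h3 k (by simp; omega) ?_⟩
      rw [take_pr X n k (by omega)]
      exact hk
    refine ⟨treeQ e b, ?_, ?_, ?_⟩
    · have h1 : Computable₂ (fun (_ : Str) (x : ℕ) => treeQ e b x) := (E2 hbc e).comp Computable.snd
      exact tree_rec h1 len_computable B
    · obtain ⟨Y, hY⟩ := exists_TQ e b
      exact ⟨Y, fun n => by rw [treeQ_pr]; exact hY n⟩
    · intro Y hY
      have hY' : ∀ s, ∃ z ∈ bot (state e b s), z <+: pr Y s := by
        intro s
        have := hY s
        rw [treeQ_pr] at this
        exact TQ_iff.1 this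
      constructor
      · intro hr
        obtain ⟨c, hc⟩ := U_complete hr
        have hodd : (2 * c + 1) % 2 ≠ 0 := by omega
        refine verify hB hb hb1 (E3 hbc e) (E4 hbc e) hask hY' (2 * c + 1) Y ?_ ?_
        · intro n
          refine ⟨n + 1, ?_⟩
          rw [Ps_odd hodd, V_zero, pr_getElem?, if_pos (Nat.lt_succ_self n)]
        · intro n
          obtain ⟨k, hk⟩ := hc n
          refine ⟨k, ?_⟩
          have h1 : Th (2 * c + 1) = c + 1 := by
            unfold Th
            rw [if_neg hodd]
            omega
          rw [h1]
          simp only [V, Nat.succ_ne_zero, if_false, Nat.add_sub_cancel]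
          exact hk
      · intro hr
        obtain ⟨c, hc⟩ := U_complete hr
        have heven : (2 * c) % 2 = 0 := by omega
        refine verify hB hb hb1 (E3 hbc e) (E4 hbc e) hask hY' (2 * c) B ?_ ?_
        · intro n
          obtain ⟨k, hk⟩ := hc n
          refine ⟨k, ?_⟩
          have h1 : Ps (2 * c) = c + 1 := by
            rw [Ps_even heven]
            omega
          rw [h1]
          simp only [V, Nat.succ_ne_zero, if_false, Nat.add_sub_cancel]
          exact hk
        · intro n
          refine ⟨n + 1, ?_⟩
          rw [Th_even heven, V_zero, pr_getElem?, if_pos (Nat.lt_succ_self n)]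
  · -- first class
    refine ⟨fun x => treeA b (pr B (((Encodable.decode (α := Str) x).getD []).length)) x, ?_, ?_, ?_⟩
    · exact tree_rec (E1 hbc) len_computable B
    · obtain ⟨X, hX⟩ := koenig (P := fun σ => TA (tbl b σ.length) (pr B σ.length) σ = true)
        (fun n => by
          obtain ⟨σ, h1, h2⟩ := exists_TA b B n
          exact ⟨σ, h1, by rw [h1]; exact h2⟩)
        (fun σ m h hm => by
          have h1 := TA_take rfl h hm
          have h2 : (σ.take m).length = m := by simp; omega
          rw [h2]; exact h1)
      refine ⟨X, fun n => ?_⟩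
      have h1 : (((Encodable.decode (α := Str) (Encodable.encode (pr X n))).getD []).length) = n := by
        rw [Encodable.encodek]; simp
      beta_reduce
      rw [h1, treeA_pr]
      have := hX n
      rw [pr_length] at this
      exact this
    · intro X hX
      have hX' : ∀ n, TA (tbl b n) (pr B n) (pr X n) = true := by
        intro n
        have h1 : (((Encodable.decode (α := Str) (Encodable.encode (pr X n))).getD []).length) = n := by
          rw [Encodable.encodek]; simp
        have := hX n
        beta_reduce at this
        rw [h1, treeA_pr] at this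
        exact this
      constructor
      · intro hr
        obtain ⟨c, hc⟩ := U_complete hr
        choose kf hkf using hc
        set K := max (c + 3) (∑ n ∈ Finset.range (c + 3), kf n) with hK
        have h2 := hX' K
        rw [TA_iff (by simp)] at h2
        have h3 := h2.2 c (by omega)
        have h4 : hitN c (pr B K) (pr X K) = true := by
          rw [hitN_iff]
          intro n hn
          have h5 : kf n ≤ ∑ n ∈ Finset.range (c + 3), kf n :=
            Finset.single_le_sum (fun _ _ => Nat.zero_le _) (Finset.mem_range.2 hn)
          have h6 := U_mono (pr_prefix B (show kf n ≤ K by omega)) (hkf n)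
          rw [h6]
          refine ⟨rfl, ?_⟩
          rw [pr_getElem?, if_pos (by omega)]
        rw [h4] at h3
        simp at h3
      · intro hr
        obtain ⟨c, hc⟩ := U_complete hr
        exact hA ⟨X, hX', c, hc⟩

end Pool.Agent.H641R3.PC
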