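import Pool.Agent.H641R3.PC.Mono

set_option autoImplicit false

namespace Pool.Agent.H641R3.PC

/-- conflicting histories -/
def Conf (h h' : List (ℕ × Bool)) : Prop :=
  ∃ n, ((n, false) ∈ h ∧ (n, true) ∈ h') ∨ ((n, true) ∈ h ∧ (n, false) ∈ h')

theorem Conf.symm {h h' : List (ℕ × Bool)} (c : Conf h h') : Conf h' h := by
  obtain ⟨n, h1 | h1⟩ := c
  · exact ⟨n, Or.inr ⟨h1.2, h1.1⟩⟩
  · exact ⟨n, Or.inl ⟨h1.2, h1.1⟩⟩

theorem Conf.mono {h h' k k' : List (ℕ × Bool)} (c : Conf h h') (h1 : ∀ x ∈ h, x ∈ k)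
    (h2 : ∀ x ∈ h', x ∈ k') : Conf k k' := by
  obtain ⟨n, h3 | h3⟩ := c
  · exact ⟨n, Or.inl ⟨h1 _ h3.1, h2 _ h3.2⟩⟩
  · exact ⟨n, Or.inr ⟨h1 _ h3.1, h2 _ h3.2⟩⟩

abbrev Sig := ℕ × List (ℕ × Bool)

/-- signature of a leaf -/
def sig (l : Leaf) : Sig := (l.1, l.2.1)

/-- Kraft sum of tag `t` -/
def kr (t : ℕ) (L : List Sig) : ℕ := ((L.filter (fun x => x.1 = t)).map (fun x => 2 ^ (t - x.2.length))).sum

/-- the histories form complete splitting trees -/
structure TreeOK (L : List Sig) : Prop where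
  conf : L.Pairwise (fun x y => x.1 = y.1 → Conf x.2 y.2)
  kraft : ∀ t, (∃ x ∈ L, x.1 = t) → kr t L = 2 ^ t
  le : ∀ x ∈ L, x.2.length ≤ x.1

theorem kr_append (t : ℕ) (L1 L2 : List Sig) : kr t (L1 ++ L2) = kr t L1 + kr t L2 := by
  simp [kr]

theorem kr_cons (t : ℕ) (x : Sig) (L : List Sig) :
    kr t (x :: L) = (if x.1 = t then 2 ^ (t - x.2.length) else 0) + kr t L := by
  unfold kr
  by_cases h : x.1 = t
  · simp [h]
  · simp [h]

theorem kr_nil (t : ℕ) : kr t [] = 0 := by simp [kr]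

theorem TreeOK.split {L1 L2 : List Sig} {t n : ℕ} {h : List (ℕ × Bool)}
    (H : TreeOK (L1 ++ (t, h) :: L2)) (ht : h.length < t) :
    TreeOK (L1 ++ [(t, h ++ [(n, false)]), (t, h ++ [(n, true)])] ++ L2) := by
  obtain ⟨hc, hk, hl⟩ := H
  have hsub : ∀ (b : Bool), ∀ x ∈ h, x ∈ h ++ [(n, b)] := fun b x hx => List.mem_append_left _ hx
  refine ⟨?_, ?_, ?_⟩
  · rw [List.pairwise_append, List.pairwise_cons] at hc
    obtain ⟨h1, ⟨h2, h3⟩, h4⟩ := hc
    rw [List.append_assoc, List.pairwise_append]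
    refine ⟨h1, ?_, ?_⟩
    · show List.Pairwise _ ((t, h ++ [(n, false)]) :: (t, h ++ [(n, true)]) :: L2)
      rw [List.pairwise_cons, List.pairwise_cons]
      refine ⟨?_, ?_, h3⟩
      · intro y hy
        rcases List.mem_cons.1 hy with rfl | hy
        · intro _
          exact ⟨n, Or.inl ⟨by simp, by simp⟩⟩
        · intro heq
          exact (h2 y hy heq).mono (hsub _) (fun _ h => h)
      · intro y hy heq
        exact (h2 y hy heq).mono (hsub _) (fun _ h => h)
    · intro x hx y hy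
      simp only [List.cons_append, List.nil_append, List.mem_cons] at hy
      rcases hy with rfl | rfl | hy
      · intro heq
        exact (h4 x hx (t, h) (by simp) heq).mono (fun _ h => h) (hsub _)
      · intro heq
        exact (h4 x hx (t, h) (by simp) heq).mono (fun _ h => h) (hsub _)
      · exact h4 x hx y (by simp [hy])
  · intro t' ht'
    have h1 : ∃ x ∈ L1 ++ (t, h) :: L2, x.1 = t' := by
      obtain ⟨x, hx, rfl⟩ := ht'
      simp only [List.mem_append, List.mem_cons, List.not_mem_nil, or_false] at hx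
      rcases hx with (hx | rfl | rfl) | hx
      · exact ⟨x, by simp [hx], rfl⟩
      · exact ⟨(t, h), by simp, rfl⟩
      · exact ⟨(t, h), by simp, rfl⟩
      · exact ⟨x, by simp [hx], rfl⟩
    rw [← hk t' h1]
    rw [kr_append, kr_append, kr_append, kr_cons, kr_cons, kr_cons, kr_nil]
    by_cases htt : t = t'
    · subst htt
      simp only [if_true, List.length_append, List.length_cons, List.length_nil]
      have : t - h.length = (t - (h.length + (0 + 1))) + 1 := by omega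
      rw [this, pow_succ]
      omega
    · simp [htt]
  · intro x hx
    simp only [List.mem_append, List.mem_cons, List.not_mem_nil, or_false] at hx
    rcases hx with (hx | rfl | rfl) | hx
    · exact hl x (by simp [hx])
    · simp; omega
    · simp; omega
    · exact hl x (by simp [hx])

/-- invariants of a single frame -/
structure FInv (e j s T : ℕ) (F : Frame) : Prop where
  ne : F ≠ []
  lt : ∀ l ∈ F, l.1 < T
  ge : ∀ l ∈ F, e + 4 ≤ l.1
  len : ∀ l ∈ F, l.2.2.2 = false → l.2.2.1.length ≤ s - 1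
  living : ∀ l ∈ F, ∃ l' ∈ F, l'.1 = l.1 ∧ l'.2.2.2 = false
  hist : ∀ l ∈ F, ∀ p ∈ l.2.1, V (Ps j) l.2.2.1 p.1 = some p.2
  tree : TreeOK (F.map sig)
  dead : ∀ l ∈ F, l.2.2.2 = true → l.2.1.length = l.1 ∧
    ∃ β, agree j l.2.1 β = true ∧ ∃ s', C e s' β l.1 = true

/-- invariants of the state -/
structure Inv (e s : ℕ) (st : St) : Prop where
  ge : e + 4 ≤ st.1
  fr : ∀ j F, st.2[j]? = some F → FInv e j s st.1 F
  disj : ∀ (i j : ℕ) (F G : Frame), i < j → st.2[i]? = some F → st.2[j]? = some G → ∀ l ∈ F, ∀ l' ∈ G, l.1 ≠ l'.1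
  down : ∀ (i j : ℕ) (F G : Frame), i < j → st.2[i]? = some F → st.2[j]? = some G →
    ∀ τ ∈ cones G, ∃ τ' ∈ cones F, τ' <+: τ
  up : ∀ (i j : ℕ) (F G : Frame), i < j → st.2[i]? = some F → st.2[j]? = some G →
    ∀ τ ∈ cones F, ∃ t, (∃ l ∈ G, l.1 = t) ∧ ∀ l ∈ G, l.1 = t → τ <+: l.2.2.1

theorem mem_refresh {A : List Str} {F : Frame} {l' : Leaf} :
    l' ∈ refresh A F ↔ ∃ l ∈ F, l' = (l.1, l.2.1, fresh A l.2.2.1, l.2.2.2) := by
  simp only [refresh, List.mem_map]
  constructor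
  · rintro ⟨l, hl, rfl⟩; exact ⟨l, hl, rfl⟩
  · rintro ⟨l, hl, rfl⟩; exact ⟨l, hl, rfl⟩

theorem sig_refresh (A : List Str) (F : Frame) : (refresh A F).map sig = F.map sig := by
  simp [refresh, sig, Function.comp_def]

/-- signatures of the replaced leaves -/
theorem ActRel.sig_cases {e s : ℕ} {b : Option Str} {A : List Str} {j : ℕ} {F1 : Frame} {l : Leaf}
    {F2 : Frame} {R : List Leaf} (h : ActRel e s b A j F1 l F2 R) :
    R.map sig = [sig l] ∨ (l.2.1.length < l.1 ∧ ∃ n, R.map sig =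
      [(l.1, l.2.1 ++ [(n, false)]), (l.1, l.2.1 ++ [(n, true)])]) := by
  obtain ⟨_, h | h | h⟩ := h
  · obtain ⟨h1, ρ0, _, ρ1, _, n, _, _, _, _, _, rfl⟩ := h
    exact Or.inr ⟨h1, n, rfl⟩
  · obtain ⟨h1, _, ρ0, _, _, _, rfl⟩ := h
    exact Or.inl rfl
  · obtain ⟨h1, _, β, _, _, _, rfl⟩ := h
    exact Or.inl rfl

/-- every replaced leaf extends the old one -/
theorem ActRel.mem {e s : ℕ} {b : Option Str} {A : List Str} {j : ℕ} {F1 : Frame} {l : Leaf}
    {F2 : Frame} {R : List Leaf} (h : ActRel e s b A j F1 l F2 R) {r : Leaf} (hr : r ∈ R) :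
    r.1 = l.1 ∧ l.2.2.1 <+: r.2.2.1 ∧ (r.2.2.2 = false → r.2.2.1 ∈ A) := by
  obtain ⟨_, h | h | h⟩ := h
  · obtain ⟨h1, ρ0, h2, ρ1, h3, n, _, h4, h5, _, _, rfl⟩ := h
    simp only [List.mem_cons, List.not_mem_nil, or_false] at hr
    rcases hr with rfl | rfl
    · exact ⟨rfl, h4, fun _ => h2⟩
    · exact ⟨rfl, h5, fun _ => h3⟩
  · obtain ⟨h1, _, ρ0, h2, h3, _, rfl⟩ := h
    simp only [List.mem_cons, List.not_mem_nil, or_false] at hr
    subst hr
    exact ⟨rfl, h3, fun _ => h2⟩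
  · obtain ⟨h1, _, β, _, _, _, rfl⟩ := h
    simp only [List.mem_cons, List.not_mem_nil, or_false] at hr
    subst hr
    exact ⟨rfl, List.prefix_refl _, fun h => by simp at h⟩

theorem ActRel.ne {e s : ℕ} {b : Option Str} {A : List Str} {j : ℕ} {F1 : Frame} {l : Leaf}
    {F2 : Frame} {R : List Leaf} (h : ActRel e s b A j F1 l F2 R) : ∃ r, r ∈ R := by
  obtain ⟨_, h | h | h⟩ := h
  · obtain ⟨h1, ρ0, h2, ρ1, h3, n, _, h4, h5, _, _, rfl⟩ := h
    exact ⟨_, List.mem_cons_self⟩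
  · obtain ⟨h1, _, ρ0, h2, h3, _, rfl⟩ := h
    exact ⟨_, List.mem_cons_self⟩
  · obtain ⟨h1, _, β, _, _, _, rfl⟩ := h
    exact ⟨_, List.mem_cons_self⟩

/-- parent of a leaf of the new frame -/
theorem parent {e s : ℕ} {b : Option Str} {A : List Str} {j : ℕ} {F1 : Frame} {l : Leaf}
    {F2 : Frame} {R : List Leaf} (h : ActRel e s b A j F1 l F2 R) {l' : Leaf}
    (hl' : l' ∈ refresh A F1 ++ R ++ refresh A F2) :
    ∃ l0 ∈ F1 ++ l :: F2, l'.1 = l0.1 ∧ l0.2.2.1 <+: l'.2.2.1 ∧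
      (l'.2.2.2 = false → l0.2.2.2 = false ∧ (l'.2.2.1 ∈ A ∨ l'.2.2.1 = fresh A l0.2.2.1)) := by
  simp only [List.mem_append] at hl'
  rcases hl' with (h1 | h1) | h1
  · rw [mem_refresh] at h1
    obtain ⟨l0, h2, rfl⟩ := h1
    exact ⟨l0, by simp [h2], rfl, fresh_prefix _ _, fun h => ⟨h, Or.inr rfl⟩⟩
  · obtain ⟨h2, h3, h4⟩ := h.mem h1
    exact ⟨l, by simp, h2, h3, fun h5 => ⟨h.1, Or.inl (h4 h5)⟩⟩
  · rw [mem_refresh] at h1
    obtain ⟨l0, h2, rfl⟩ := h1
    exact ⟨l0, by simp [h2], rfl, fresh_prefix _ _, fun h => ⟨h, Or.inr rfl⟩⟩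

/-- every tag survives -/
theorem tag_survives {e s : ℕ} {b : Option Str} {A : List Str} {j : ℕ} {F1 : Frame} {l : Leaf}
    {F2 : Frame} {R : List Leaf} (h : ActRel e s b A j F1 l F2 R) {l0 : Leaf}
    (hl0 : l0 ∈ F1 ++ l :: F2) :
    ∃ l' ∈ refresh A F1 ++ R ++ refresh A F2, l'.1 = l0.1 := by
  simp only [List.mem_append, List.mem_cons] at hl0
  rcases hl0 with h1 | rfl | h1
  · exact ⟨(l0.1, l0.2.1, fresh A l0.2.2.1, l0.2.2.2), by simp only [List.mem_append]; left; left; exact mem_refresh.2 ⟨l0, h1, rfl⟩, rfl⟩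
  · obtain ⟨r, hr⟩ := h.ne
    exact ⟨r, by simp [hr], (h.mem hr).1⟩
  · exact ⟨(l0.1, l0.2.1, fresh A l0.2.2.1, l0.2.2.2), by simp only [List.mem_append]; right; exact mem_refresh.2 ⟨l0, h1, rfl⟩, rfl⟩

theorem FInv.act {e j s T : ℕ} {b : Option Str} {A : List Str} {F1 : Frame} {l : Leaf}
    {F2 : Frame} {R : List Leaf} (H : FInv e j s T (F1 ++ l :: F2))
    (h : ActRel e s b A j F1 l F2 R) (hA : ∀ ρ ∈ A, ρ.length = s) :
    FInv e j (s + 1) T (refresh A F1 ++ R ++ refresh A F2) := by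
  refine ⟨?_, ?_, ?_, ?_, ?_, ?_, ?_, ?_⟩
  · obtain ⟨r, hr⟩ := h.ne
    intro h0
    have : r ∈ refresh A F1 ++ R ++ refresh A F2 := by simp [hr]
    rw [h0] at this
    simp at this
  · intro l' hl'
    obtain ⟨l0, h0, h1, _⟩ := parent h hl'
    rw [h1]; exact H.lt l0 h0
  · intro l' hl'
    obtain ⟨l0, h0, h1, _⟩ := parent h hl'
    rw [h1]; exact H.ge l0 h0
  · intro l' hl' hd
    obtain ⟨l0, h0, h1, h2, h3⟩ := parent h hl'
    obtain ⟨h4, h5⟩ := h3 hd
    rcases h5 with h5 | h5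
    · have := hA _ h5; omega
    · rcases fresh_cases A l0.2.2.1 with h6 | h6
      · rw [← h5] at h6
        have := hA _ h6; omega
      · rw [h5, h6]
        have := H.len l0 h0 h4
        omega
  · intro l' hl'
    obtain ⟨l0, h0, h1, _⟩ := parent h hl'
    obtain ⟨l1, h2, h3, h4⟩ := H.living l0 h0
    rw [h1, ← h3]
    simp only [List.mem_append, List.mem_cons] at h2
    rcases h2 with h2 | rfl | h2
    · exact ⟨(l1.1, l1.2.1, fresh A l1.2.2.1, l1.2.2.2), by
        simp only [List.mem_append]; left; left; exact mem_refresh.2 ⟨l1, h2, rfl⟩, rfl, h4⟩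
    · obtain ⟨_, h5 | h5 | h5⟩ := h
      · obtain ⟨_, ρ0, _, ρ1, _, n, _, _, _, _, _, rfl⟩ := h5
        exact ⟨(l1.1, l1.2.1 ++ [(n, false)], ρ0, false), by simp, rfl, rfl⟩
      · obtain ⟨_, _, ρ0, _, _, _, rfl⟩ := h5
        exact ⟨(l1.1, l1.2.1, ρ0, false), by simp, rfl, rfl⟩
      · obtain ⟨_, ⟨l2, h6, h7, h8⟩, _⟩ := h5
        rw [List.mem_append] at h6
        refine ⟨(l2.1, l2.2.1, fresh A l2.2.2.1, l2.2.2.2), ?_, h7, h8⟩
        simp only [List.mem_append]
        rcases h6 with h6 | h6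
        · left; left; exact mem_refresh.2 ⟨l2, h6, rfl⟩
        · right; exact mem_refresh.2 ⟨l2, h6, rfl⟩
    · exact ⟨(l1.1, l1.2.1, fresh A l1.2.2.1, l1.2.2.2), by
        simp only [List.mem_append]; right; exact mem_refresh.2 ⟨l1, h2, rfl⟩, rfl, h4⟩
  · intro l' hl' p hp
    simp only [List.mem_append] at hl'
    rcases hl' with (h1 | h1) | h1
    · rw [mem_refresh] at h1
      obtain ⟨l0, h2, rfl⟩ := h1
      exact V_mono (fresh_prefix _ _) (H.hist l0 (by simp [h2]) p hp)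
    · have hold := H.hist l (by simp)
      obtain ⟨_, h5 | h5 | h5⟩ := h
      · obtain ⟨_, ρ0, _, ρ1, _, n, _, h6, h7, h8, h9, rfl⟩ := h5
        simp only [List.mem_cons, List.not_mem_nil, or_false] at h1
        rcases h1 with rfl | rfl
        · simp only [List.mem_append, List.mem_cons, List.not_mem_nil, or_false] at hp
          rcases hp with hp | rfl
          · exact V_mono h6 (hold p hp)
          · exact h8
        · simp only [List.mem_append, List.mem_cons, List.not_mem_nil, or_false] at hp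
          rcases hp with hp | rfl
          · exact V_mono h7 (hold p hp)
          · exact h9
      · obtain ⟨_, _, ρ0, _, h6, _, rfl⟩ := h5
        simp only [List.mem_cons, List.not_mem_nil, or_false] at h1
        subst h1
        exact V_mono h6 (hold p hp)
      · obtain ⟨_, _, _, _, _, _, rfl⟩ := h5
        simp only [List.mem_cons, List.not_mem_nil, or_false] at h1
        subst h1
        exact hold p hp
    · rw [mem_refresh] at h1
      obtain ⟨l0, h2, rfl⟩ := h1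
      exact V_mono (fresh_prefix _ _) (H.hist l0 (by simp [h2]) p hp)
  · have ht := H.tree
    rw [List.map_append, List.map_cons] at ht
    rw [List.map_append, List.map_append, sig_refresh, sig_refresh]
    rcases h.sig_cases with h1 | ⟨h1, n, h2⟩
    · rw [h1]; simpa using ht
    · rw [h2]
      exact TreeOK.split ht h1
  · intro l' hl' hd
    simp only [List.mem_append] at hl'
    rcases hl' with (h1 | h1) | h1
    · rw [mem_refresh] at h1
      obtain ⟨l0, h2, rfl⟩ := h1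
      exact H.dead l0 (by simp [h2]) hd
    · obtain ⟨_, h5 | h5 | h5⟩ := h
      · obtain ⟨_, ρ0, _, ρ1, _, n, _, h6, h7, h8, h9, rfl⟩ := h5
        simp only [List.mem_cons, List.not_mem_nil, or_false] at h1
        rcases h1 with rfl | rfl <;> simp at hd
      · obtain ⟨_, _, ρ0, _, h6, _, rfl⟩ := h5
        simp only [List.mem_cons, List.not_mem_nil, or_false] at h1
        subst h1
        simp at hd
      · obtain ⟨h6, _, β, _, h7, h8, rfl⟩ := h5
        simp only [List.mem_cons, List.not_mem_nil, or_false] at h1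
        subst h1
        exact ⟨h6, β, h7, s, h8⟩
    · rw [mem_refresh] at h1
      obtain ⟨l0, h2, rfl⟩ := h1
      exact H.dead l0 (by simp [h2]) hd

theorem FInv.mono {e j s T T' : ℕ} {F : Frame} (H : FInv e j s T F) (hT : T ≤ T') :
    FInv e j (s + 1) T' F :=
  ⟨H.ne, fun l hl => lt_of_lt_of_le (H.lt l hl) hT, H.ge,
    fun l hl hd => le_trans (H.len l hl hd) (by omega), H.living, H.hist, H.tree, H.dead⟩

end Pool.Agent.H641R3.PC
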