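import Pool.Agent.H641R3.PC.Inv

set_option autoImplicit false

namespace Pool.Agent.H641R3.PC

theorem bot_of_last {st : St} {F : Frame} (h : st.2[st.2.length - 1]? = some F) : bot st = cones F := by
  unfold bot
  have : st.2.reverse.head? = some F := by
    rw [List.head?_reverse, List.getLast?_eq_getElem?, h]
  rw [this]

theorem bot_of_nil {st : St} (h : st.2 = []) : bot st = [[]] := by
  unfold bot; rw [h]; rfl

theorem cones_ne {e j s T : ℕ} {F : Frame} (H : FInv e j s T F) : ∃ τ, τ ∈ cones F := by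
  obtain ⟨l, hl⟩ := List.exists_mem_of_ne_nil F H.ne
  obtain ⟨l', h1, _, h3⟩ := H.living l hl
  exact ⟨_, mem_cones.2 ⟨l', h1, h3, rfl⟩⟩

theorem exists_last {st : St} (h : st.2 ≠ []) : ∃ F, st.2[st.2.length - 1]? = some F := by
  have : 0 < st.2.length := List.length_pos_of_ne_nil h
  exact ⟨_, List.getElem?_eq_getElem (by omega)⟩

theorem Inv.bot_ne {e s : ℕ} {st : St} (H : Inv e s st) : ∃ τ, τ ∈ bot st := by
  by_cases h : st.2 = []
  · exact ⟨[], by rw [bot_of_nil h]; simp⟩
  · obtain ⟨F, hF⟩ := exists_last h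
    rw [bot_of_last hF]
    exact cones_ne (H.fr _ _ hF)

theorem Inv.bot_len {e s : ℕ} {st : St} (H : Inv e s st) {τ : Str} (hτ : τ ∈ bot st) :
    τ.length ≤ s - 1 := by
  by_cases h : st.2 = []
  · rw [bot_of_nil h] at hτ
    simp at hτ; simp [hτ]
  · obtain ⟨F, hF⟩ := exists_last h
    rw [bot_of_last hF, mem_cones] at hτ
    obtain ⟨l, h1, h2, rfl⟩ := hτ
    exact (H.fr _ _ hF).len l h1 h2

theorem Inv.bot_down {e s : ℕ} {st : St} (H : Inv e s st) {i : ℕ} {F : Frame}
    (hF : st.2[i]? = some F) {τ : Str} (hτ : τ ∈ bot st) : ∃ τ' ∈ cones F, τ' <+: τ := by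
  have hi : i < st.2.length := (List.getElem?_eq_some_iff.1 hF).1
  have hne : st.2 ≠ [] := by rintro h; rw [h] at hi; simp at hi
  obtain ⟨G, hG⟩ := exists_last hne
  rw [bot_of_last hG] at hτ
  rcases Nat.lt_or_ge i (st.2.length - 1) with h | h
  · exact H.down i _ F G h hF hG τ hτ
  · have : i = st.2.length - 1 := by omega
    subst this
    rw [hF] at hG
    simp only [Option.some.injEq] at hG
    subst hG
    exact ⟨τ, hτ, List.prefix_refl _⟩

theorem Inv.bot_up {e s : ℕ} {st : St} (H : Inv e s st) {i : ℕ} {F : Frame}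
    (hF : st.2[i]? = some F) {τ : Str} (hτ : τ ∈ cones F) : ∃ z ∈ bot st, τ <+: z := by
  have hi : i < st.2.length := (List.getElem?_eq_some_iff.1 hF).1
  have hne : st.2 ≠ [] := by rintro h; rw [h] at hi; simp at hi
  obtain ⟨G, hG⟩ := exists_last hne
  rw [bot_of_last hG]
  rcases Nat.lt_or_ge i (st.2.length - 1) with h | h
  · obtain ⟨t, ⟨l, hl, rfl⟩, h2⟩ := H.up i _ F G h hF hG τ hτ
    obtain ⟨l', h3, h4, h5⟩ := (H.fr _ _ hG).living l hl
    exact ⟨_, mem_cones.2 ⟨l', h3, h5, rfl⟩, h2 l' h3 h4⟩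
  · have : i = st.2.length - 1 := by omega
    subst this
    rw [hF] at hG
    simp only [Option.some.injEq] at hG
    subst hG
    exact ⟨τ, hτ, List.prefix_refl _⟩

theorem extend_len {z : Str} {s : ℕ} (h : z.length ≤ s) : ∃ ρ : Str, ρ.length = s ∧ z <+: ρ :=
  ⟨z ++ List.replicate (s - z.length) false, by simp; omega, List.prefix_append _ _⟩

theorem alive_of_bot {st : St} {s : ℕ} {z : Str} (hz : z ∈ bot st) (h : z.length ≤ s) :
    ∃ ρ ∈ alive st s, z <+: ρ := by
  obtain ⟨ρ, h1, h2⟩ := extend_len h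
  exact ⟨ρ, mem_alive.2 ⟨h1, z, hz, h2⟩, h2⟩

theorem alive_len {st : St} {s : ℕ} : ∀ ρ ∈ alive st s, ρ.length = s :=
  fun _ h => (mem_alive.1 h).1

theorem mem_newFrame {T : ℕ} {Z : List Str} {l : Leaf} :
    l ∈ newFrame T Z ↔ ∃ i, ∃ h : i < Z.length, l = (T + i, [], Z[i], false) := by
  simp only [newFrame, List.mem_map, List.mem_range]
  constructor
  · rintro ⟨i, hi, rfl⟩
    exact ⟨i, hi, by simp [hi]⟩
  · rintro ⟨i, hi, rfl⟩
    exact ⟨i, hi, by simp [hi]⟩

theorem mem_cones_newFrame {T : ℕ} {Z : List Str} {τ : Str} :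
    τ ∈ cones (newFrame T Z) ↔ τ ∈ Z := by
  rw [mem_cones]
  constructor
  · rintro ⟨l, hl, _, rfl⟩
    obtain ⟨i, hi, rfl⟩ := mem_newFrame.1 hl
    exact List.getElem_mem hi
  · intro h
    obtain ⟨i, hi, rfl⟩ := List.getElem_of_mem h
    exact ⟨_, mem_newFrame.2 ⟨i, hi, rfl⟩, rfl, rfl⟩

theorem filter_tag {T k : ℕ} (n i : ℕ) (hi : i < n) (hk : k = T + i) :
    ((List.range n).map (fun i => ((T + i, []) : Sig))).filter (fun x => x.1 = k) = [(k, [])] := by
  subst hk
  induction n with
  | zero => omega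
  | succ n ih =>
    rw [List.range_succ, List.map_append, List.filter_append]
    rcases Nat.lt_or_ge i n with h | h
    · rw [ih h]
      have : ¬ (T + n = T + i) := by omega
      simp [this]
      omega
    · have hin : i = n := by omega
      subst hin
      have : ((List.range i).map (fun i => ((T + i, []) : Sig))).filter (fun x => x.1 = T + i) = [] := by
        rw [List.filter_eq_nil_iff]
        intro x hx
        rw [List.mem_map] at hx
        obtain ⟨m, hm, rfl⟩ := hx
        rw [List.mem_range] at hm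
        simp; omega
      rw [this]
      simp

theorem sig_newFrame (T : ℕ) (Z : List Str) :
    (newFrame T Z).map sig = (List.range Z.length).map (fun i => ((T + i, []) : Sig)) := by
  simp [newFrame, sig, Function.comp_def]

theorem FInv.new {e j s T : ℕ} {Z : List Str} (hT : e + 4 ≤ T) (hZ : ∃ z, z ∈ Z)
    (hlen : ∀ z ∈ Z, z.length ≤ s - 1) : FInv e j (s + 1) (T + Z.length) (newFrame T Z) := by
  refine ⟨?_, ?_, ?_, ?_, ?_, ?_, ?_, ?_⟩
  · obtain ⟨z, hz⟩ := hZ
    obtain ⟨i, hi, rfl⟩ := List.getElem_of_mem hz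
    intro h0
    have : ((T + i, [], Z[i], false) : Leaf) ∈ newFrame T Z := mem_newFrame.2 ⟨i, hi, rfl⟩
    rw [h0] at this
    simp at this
  · intro l hl
    obtain ⟨i, hi, rfl⟩ := mem_newFrame.1 hl
    show T + i < T + Z.length
    omega
  · intro l hl
    obtain ⟨i, hi, rfl⟩ := mem_newFrame.1 hl
    show e + 4 ≤ T + i
    omega
  · intro l hl _
    obtain ⟨i, hi, rfl⟩ := mem_newFrame.1 hl
    have := hlen _ (List.getElem_mem hi)
    show Z[i].length ≤ s + 1 - 1
    omega
  · intro l hl
    obtain ⟨i, hi, rfl⟩ := mem_newFrame.1 hl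
    exact ⟨_, hl, rfl, rfl⟩
  · intro l hl p hp
    obtain ⟨i, hi, rfl⟩ := mem_newFrame.1 hl
    simp at hp
  · rw [sig_newFrame]
    refine ⟨?_, ?_, ?_⟩
    · rw [List.pairwise_map]
      refine List.Pairwise.imp ?_ (List.pairwise_lt_range (n := Z.length))
      intro a b hab heq
      simp only at heq
      omega
    · rintro t ⟨x, hx, rfl⟩
      rw [List.mem_map] at hx
      obtain ⟨i, hi, rfl⟩ := hx
      rw [List.mem_range] at hi
      unfold kr
      rw [filter_tag Z.length i hi rfl]
      simp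
    · intro x hx
      rw [List.mem_map] at hx
      obtain ⟨i, hi, rfl⟩ := hx
      simp
  · intro l hl hd
    obtain ⟨i, hi, rfl⟩ := mem_newFrame.1 hl
    simp at hd

/-- bottom cones only get longer -/
theorem step_bot {e s : ℕ} {st : St} (H : Inv e s st) (b : Option Str) :
    ∀ z' ∈ bot (step e s b st), ∃ z ∈ bot st, z <+: z' := by
  intro z' hz'
  rcases step_cases e s b st with ⟨j, F1, l, F2, R, h1, h2, _, h4⟩ | ⟨_, h4⟩
  · rw [h4, bot_concat, mem_cones] at hz'
    obtain ⟨l', h5, h6, rfl⟩ := hz'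
    obtain ⟨l0, h7, _, h8, h9⟩ := parent h2 h5
    obtain ⟨h10, h11⟩ := h9 h6
    have key : l'.2.2.1 ∈ alive st s := by
      rcases h11 with h11 | h11
      · exact h11
      · rw [h11]
        obtain ⟨z, hz, h12⟩ := H.bot_up h1 (mem_cones.2 ⟨l0, h7, h10, rfl⟩)
        obtain ⟨ρ, h13, h14⟩ := alive_of_bot hz (le_trans (H.bot_len hz) (by omega : s - 1 ≤ s))
        exact fresh_mem h13 (h12.trans h14)
    rw [mem_alive] at key
    exact key.2
  · rw [h4, bot_concat] at hz'
    rw [mem_cones_newFrame] at hz'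
    exact ⟨z', hz', List.prefix_refl _⟩

theorem Inv.step {e s : ℕ} {st : St} (H : Inv e s st) (b : Option Str) :
    Inv e (s + 1) (step e s b st) := by
  rcases step_cases e s b st with ⟨j, F1, l, F2, R, h1, h2, _, h4⟩ | ⟨_, h4⟩
  · rw [h4]
    have hj : j < st.2.length := (List.getElem?_eq_some_iff.1 h1).1
    set F' := refresh (alive st s) F1 ++ R ++ refresh (alive st s) F2 with hF'
    have htl : (st.2.take j).length = j := by simp; omega
    have hget : ∀ (i : ℕ) (G : Frame), (st.2.take j ++ [F'])[i]? = some G →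
        (i < j ∧ st.2[i]? = some G) ∨ (i = j ∧ G = F') := by
      intro i G hG
      rcases Nat.lt_trichotomy i j with h | h | h
      · left
        rw [List.getElem?_append_left (by omega), List.getElem?_take_of_lt h] at hG
        exact ⟨h, hG⟩
      · right
        subst h
        rw [List.getElem?_append_right (by omega), htl, Nat.sub_self] at hG
        simp at hG
        exact ⟨rfl, hG.symm⟩
      · rw [List.getElem?_eq_none (by simp; omega)] at hG
        simp at hG
    refine ⟨H.ge, ?_, ?_, ?_, ?_⟩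
    · intro i G hG
      rcases hget i G hG with ⟨hi, h5⟩ | ⟨rfl, rfl⟩
      · exact (H.fr i G h5).mono (le_refl _)
      · exact (H.fr i _ h1).act h2 alive_len
    · intro i k F G hik hF hG
      rcases hget k G hG with ⟨hk, h5⟩ | ⟨rfl, rfl⟩
      · rcases hget i F hF with ⟨hi, h6⟩ | ⟨rfl, rfl⟩
        · exact H.disj i k F G hik h6 h5
        · omega
      · rcases hget i F hF with ⟨hi, h6⟩ | ⟨rfl, rfl⟩
        · intro l1 hl1 l2 hl2
          obtain ⟨l0, h7, h8, _⟩ := parent h2 hl2
          rw [h8]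
          exact H.disj i k F _ hik h6 h1 l1 hl1 l0 h7
        · omega
    · intro i k F G hik hF hG
      rcases hget k G hG with ⟨hk, h5⟩ | ⟨rfl, rfl⟩
      · rcases hget i F hF with ⟨hi, h6⟩ | ⟨rfl, rfl⟩
        · exact H.down i k F G hik h6 h5
        · omega
      · rcases hget i F hF with ⟨hi, h6⟩ | ⟨rfl, rfl⟩
        · intro τ hτ
          rw [mem_cones] at hτ
          obtain ⟨l', h7, h8, rfl⟩ := hτ
          obtain ⟨l0, h9, _, h10, h11⟩ := parent h2 h7
          obtain ⟨τ', h12, h13⟩ := H.down i k F _ hik h6 h1 _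
            (mem_cones.2 ⟨l0, h9, (h11 h8).1, rfl⟩)
          exact ⟨τ', h12, h13.trans h10⟩
        · omega
    · intro i k F G hik hF hG
      rcases hget k G hG with ⟨hk, h5⟩ | ⟨rfl, rfl⟩
      · rcases hget i F hF with ⟨hi, h6⟩ | ⟨rfl, rfl⟩
        · exact H.up i k F G hik h6 h5
        · omega
      · rcases hget i F hF with ⟨hi, h6⟩ | ⟨rfl, rfl⟩
        · intro τ hτ
          obtain ⟨t, ⟨l0, h7, rfl⟩, h8⟩ := H.up i k F _ hik h6 h1 τ hτ
          obtain ⟨l', h9, h10⟩ := tag_survives (A := alive st s) h2 h7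
          refine ⟨l0.1, ⟨l', h9, h10⟩, ?_⟩
          intro l1 hl1 ht
          obtain ⟨l2, h11, h12, h13, _⟩ := parent h2 hl1
          exact (h8 l2 h11 (h12.symm.trans ht)).trans h13
        · omega
  · rw [h4]
    have hget : ∀ (i : ℕ) (G : Frame), (st.2 ++ [newFrame st.1 (bot st)])[i]? = some G →
        (i < st.2.length ∧ st.2[i]? = some G) ∨ (i = st.2.length ∧ G = newFrame st.1 (bot st)) := by
      intro i G hG
      rcases Nat.lt_trichotomy i st.2.length with h | h | h
      · left
        rw [List.getElem?_append_left h] at hG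
        exact ⟨h, hG⟩
      · right
        subst h
        rw [List.getElem?_append_right (le_refl _), Nat.sub_self] at hG
        simp at hG
        exact ⟨rfl, hG.symm⟩
      · rw [List.getElem?_eq_none (by simp; omega)] at hG
        simp at hG
    refine ⟨le_trans H.ge (Nat.le_add_right _ _), ?_, ?_, ?_, ?_⟩
    · intro i G hG
      rcases hget i G hG with ⟨hi, h5⟩ | ⟨rfl, rfl⟩
      · exact (H.fr i G h5).mono (Nat.le_add_right _ _)
      · exact FInv.new H.ge H.bot_ne (fun z hz => H.bot_len hz)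
    · intro i k F G hik hF hG
      rcases hget k G hG with ⟨hk, h5⟩ | ⟨rfl, rfl⟩
      · rcases hget i F hF with ⟨hi, h6⟩ | ⟨rfl, rfl⟩
        · exact H.disj i k F G hik h6 h5
        · omega
      · rcases hget i F hF with ⟨hi, h6⟩ | ⟨rfl, rfl⟩
        · intro l1 hl1 l2 hl2
          have := (H.fr i F h6).lt l1 hl1
          obtain ⟨m, hm, rfl⟩ := mem_newFrame.1 hl2
          show l1.1 ≠ st.1 + m
          omega
        · omega
    · intro i k F G hik hF hG
      rcases hget k G hG with ⟨hk, h5⟩ | ⟨rfl, rfl⟩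
      · rcases hget i F hF with ⟨hi, h6⟩ | ⟨rfl, rfl⟩
        · exact H.down i k F G hik h6 h5
        · omega
      · rcases hget i F hF with ⟨hi, h6⟩ | ⟨rfl, rfl⟩
        · intro τ hτ
          rw [mem_cones_newFrame] at hτ
          exact H.bot_down h6 hτ
        · omega
    · intro i k F G hik hF hG
      rcases hget k G hG with ⟨hk, h5⟩ | ⟨rfl, rfl⟩
      · rcases hget i F hF with ⟨hi, h6⟩ | ⟨rfl, rfl⟩
        · exact H.up i k F G hik h6 h5
        · omega
      · rcases hget i F hF with ⟨hi, h6⟩ | ⟨rfl, rfl⟩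
        · intro τ hτ
          obtain ⟨z, hz, h7⟩ := H.bot_up h6 hτ
          obtain ⟨m, hm, rfl⟩ := List.getElem_of_mem hz
          refine ⟨st.1 + m, ⟨_, mem_newFrame.2 ⟨m, hm, rfl⟩, rfl⟩, ?_⟩
          intro l hl ht
          obtain ⟨m', hm', rfl⟩ := mem_newFrame.1 hl
          have : m' = m := by
            have : st.1 + m' = st.1 + m := ht
            omega
          subst this
          exact h7
        · omega

theorem state_inv (e : ℕ) (b : ℕ → Option Str) (s : ℕ) : Inv e s (state e b s) := by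
  induction s with
  | zero =>
    refine ⟨le_refl _, ?_, ?_, ?_, ?_⟩
    · intro j F h; simp [state] at h
    · intro i j F G _ h; simp [state] at h
    · intro i j F G _ h; simp [state] at h
    · intro i j F G _ h; simp [state] at h
  | succ s ih => exact ih.step (b s)

theorem state_bot (e : ℕ) (b : ℕ → Option Str) {s s' : ℕ} (h : s ≤ s') :
    ∀ z' ∈ bot (state e b s'), ∃ z ∈ bot (state e b s), z <+: z' := by
  induction s', h using Nat.le_induction with
  | base => intro z hz; exact ⟨z, hz, List.prefix_refl _⟩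
  | succ n _ ih =>
    intro z' hz'
    obtain ⟨z, hz, h1⟩ := step_bot (state_inv e b n) (b n) z' hz'
    obtain ⟨y, hy, h2⟩ := ih z hz
    exact ⟨y, hy, h2.trans h1⟩

end Pool.Agent.H641R3.PC
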