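import Pool.Agent.H641R3.PC.Basic

set_option autoImplicit false

namespace Pool.Agent.H641R3.PC

theorem V_mono {m : ℕ} {σ τ : List Bool} {n : ℕ} {v : Bool} (h : σ <+: τ)
    (hv : V m σ n = some v) : V m τ n = some v := by
  unfold V at hv ⊢
  split at hv
  · rename_i h0
    rw [if_pos h0]
    obtain ⟨t, rfl⟩ := h
    obtain ⟨h1, h2⟩ := List.getElem?_eq_some_iff.1 hv
    rw [List.getElem?_append_left h1, hv]
  · rename_i h0
    rw [if_neg h0]
    exact U_mono h hv

theorem V_lt {m : ℕ} {σ : List Bool} {n : ℕ} {v : Bool} (h : V m σ n = some v) :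
    n < σ.length := by
  unfold V at h
  split at h
  · exact (List.getElem?_eq_some_iff.1 h).1
  · exact U_lt h

end Pool.Agent.H641R3.PC
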