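import Pool.Agent.H641R3.PC.Vals

set_option autoImplicit false

namespace Pool.Agent.H641R3.PC

/-- frame number `j` at stage `s` -/
def frameAt (e : ℕ) (b : ℕ → Option Str) (j s : ℕ) : Frame := ((state e b s).2[j]?).getD []

/-- cone of leaf number `q` in frame `j` at stage `s` -/
def cq (e : ℕ) (b : ℕ → Option Str) (j q s : ℕ) : Str :=
  (((frameAt e b j s)[q]?).map (fun l => l.2.2.1)).getD []

/-- no action below level `j`, and at least `j` frames -/
def Quiet (e : ℕ) (b : ℕ → Option Str) (j s : ℕ) : Prop :=
  (∀ i < j, acts e s (b s) (state e b s) i = []) ∧ j ≤ (state e b s).2.length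

theorem frameAt_spec {e : ℕ} {b : ℕ → Option Str} {j s : ℕ} (h : j < (state e b s).2.length) :
    (state e b s).2[j]? = some (frameAt e b j s) := by
  unfold frameAt
  rw [List.getElem?_eq_getElem h]
  rfl

theorem grow {e : ℕ} {b : ℕ → Option Str} {j s : ℕ} (h : Quiet e b j s) :
    j + 1 ≤ (state e b (s + 1)).2.length := by
  obtain ⟨h1, h2⟩ := h
  show j + 1 ≤ (step e s (b s) (state e b s)).2.length
  rcases step_cases e s (b s) (state e b s) with ⟨k, F1, l, F2, R, h3, h4, _, h5⟩ | ⟨_, h5⟩
  · rw [h5]
    have hk : k < (state e b s).2.length := (List.getElem?_eq_some_iff.1 h3).1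
    have hjk : j ≤ k := by
      by_contra hlt
      push Not at hlt
      have h6 := h1 k hlt
      have : (k, refresh (alive (state e b s) s) F1 ++ R ++ refresh (alive (state e b s) s) F2) ∈
          acts e s (b s) (state e b s) k := mem_acts.2 ⟨rfl, F1, l, F2, R, h3, h4, rfl⟩
      rw [h6] at this
      simp at this
    simp
    omega
  · rw [h5]
    simp
    omega

theorem frame_keep {e : ℕ} {b : ℕ → Option Str} {j s : ℕ} (h : Quiet e b j s)
    (ha : acts e s (b s) (state e b s) j = []) (hj : j < (state e b s).2.length) :
    frameAt e b j (s + 1) = frameAt e b j s := by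
  have h' : (state e b (s + 1)).2[j]? = (state e b s).2[j]? := by
    show (step e s (b s) (state e b s)).2[j]? = _
    rcases step_cases e s (b s) (state e b s) with ⟨k, F1, l, F2, R, h3, h4, _, h5⟩ | ⟨_, h5⟩
    · rw [h5]
      have hk : k < (state e b s).2.length := (List.getElem?_eq_some_iff.1 h3).1
      have hjk : j < k := by
        by_contra hlt
        push Not at hlt
        have h6 : acts e s (b s) (state e b s) k = [] := by
          rcases Nat.lt_or_ge k j with h7 | h7
          · exact h.1 k h7
          · have : k = j := by omega
            rw [this]; exact ha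
        have : (k, refresh (alive (state e b s) s) F1 ++ R ++ refresh (alive (state e b s) s) F2) ∈
            acts e s (b s) (state e b s) k := mem_acts.2 ⟨rfl, F1, l, F2, R, h3, h4, rfl⟩
        rw [h6] at this
        simp at this
      show ((state e b s).2.take k ++ _)[j]? = _
      rw [List.getElem?_append_left (by simp; omega), List.getElem?_take_of_lt hjk]
    · rw [h5]
      show ((state e b s).2 ++ _)[j]? = _
      rw [List.getElem?_append_left hj]
  unfold frameAt
  rw [h']

theorem frame_act {e : ℕ} {b : ℕ → Option Str} {j s : ℕ} (h : Quiet e b j s)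
    (ha : acts e s (b s) (state e b s) j ≠ []) (hj : j < (state e b s).2.length) :
    ∃ F1 l F2 R, frameAt e b j s = F1 ++ l :: F2 ∧
      ActRel e s (b s) (alive (state e b s) s) j F1 l F2 R ∧
      frameAt e b j (s + 1) =
        refresh (alive (state e b s) s) F1 ++ R ++ refresh (alive (state e b s) s) F2 := by
  rcases step_cases e s (b s) (state e b s) with ⟨k, F1, l, F2, R, h3, h4, h6, h5⟩ | ⟨h6, h5⟩
  · have hk : k < (state e b s).2.length := (List.getElem?_eq_some_iff.1 h3).1
    have hmem : (k, refresh (alive (state e b s) s) F1 ++ R ++ refresh (alive (state e b s) s) F2) ∈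
          acts e s (b s) (state e b s) k := mem_acts.2 ⟨rfl, F1, l, F2, R, h3, h4, rfl⟩
    have hkj : k = j := by
      rcases Nat.lt_trichotomy k j with h7 | h7 | h7
      · rw [h.1 k h7] at hmem; simp at hmem
      · exact h7
      · exact absurd (h6 j h7) ha
    subst hkj
    refine ⟨F1, l, F2, R, ?_, h4, ?_⟩
    · have := frameAt_spec hj
      rw [h3] at this
      exact (Option.some.inj this).symm
    · unfold frameAt
      show ((step e s (b s) (state e b s)).2[k]?).getD [] = _
      rw [h5]
      have htl : ((state e b s).2.take k).length = k := by simp; omega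
      show (((state e b s).2.take k ++ _)[k]?).getD [] = _
      rw [List.getElem?_append_right (by omega), htl, Nat.sub_self]
      simp
  · exact absurd (h6 j) ha

theorem refresh_get (A : List Str) (F : Frame) (q : ℕ) :
    (refresh A F)[q]? = (F[q]?).map (fun l => (l.1, l.2.1, fresh A l.2.2.1, l.2.2.2)) := by
  simp [refresh]

/-- hypotheses on the permission sequence -/
def PermOK (B : ℕ → Bool) (b : ℕ → Option Str) : Prop :=
  (∀ s, b s = none) ∨ (∀ n, ∃ S, ∀ s ≥ S, ∃ w, b s = some w ∧ w[n]? = some (B n))

theorem computable_limit {g : ℕ → List Bool} (hg : Computable g) {f : ℕ → Bool}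
    (h1 : ∀ n, ∃ s, n < (g s).length) (h2 : ∀ n s v, (g s)[n]? = some v → v = f n) :
    Computable f := by
  have hc : Computable₂ (fun (n s : ℕ) => (g s)[n]?) :=
    Computable.list_getElem?.comp (hg.comp Computable.snd) Computable.fst
  have hp := Partrec.rfindOpt hc
  refine (hp.of_eq ?_ : Partrec (fun n => Part.some (f n)))
  intro n
  rw [Part.eq_some_iff]
  have hdom : (Nat.rfindOpt (fun s => (g s)[n]?)).Dom := by
    rw [Nat.rfindOpt_dom]
    obtain ⟨s, hs⟩ := h1 n
    exact ⟨s, (g s)[n], by rw [Option.mem_def, List.getElem?_eq_getElem hs]⟩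
  obtain ⟨v, hv⟩ := Part.dom_iff_mem.1 hdom
  obtain ⟨s, hs⟩ := Nat.rfindOpt_spec hv
  rw [Option.mem_def] at hs
  rw [← h2 n s v hs]
  exact hv

theorem stab {B : ℕ → Bool} (hB : ¬ Computable B) {e : ℕ} {b : ℕ → Option Str}
    (hb : PermOK B b) (hc : ∀ j q, Computable (fun s => vals j (cq e b j q s))) :
    ∀ j, ∃ s0, ∀ s ≥ s0, Quiet e b j s := by
  intro j
  induction j with
  | zero => exact ⟨0, fun s _ => ⟨fun i hi => absurd hi (Nat.not_lt_zero _), Nat.zero_le _⟩⟩
  | succ j ih =>
    obtain ⟨s0, h0⟩ := ih
    -- after s0 + 1 frame j exists
    have hlen : ∀ s ≥ s0 + 1, j < (state e b s).2.length := by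
      intro s hs
      obtain ⟨s', rfl⟩ : ∃ s', s = s' + 1 := ⟨s - 1, by omega⟩
      have := grow (h0 s' (by omega))
      omega
    have hpot : ∀ s ≥ s0 + 1, pot (frameAt e b j (s + 1)) ≤ pot (frameAt e b j s) := by
      intro s hs
      by_cases ha : acts e s (b s) (state e b s) j = []
      · rw [frame_keep (h0 s (by omega)) ha (hlen s hs)]
      · obtain ⟨F1, l, F2, R, h1, h2, h3⟩ := frame_act (h0 s (by omega)) ha (hlen s hs)
        rw [h1, h3]
        rcases pot_act h2 with h4 | ⟨h4, _⟩
        · exact le_of_lt h4
        · exact le_of_eq h4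
    obtain ⟨s1, hs1, hconst⟩ := ev_const (fun s => pot (frameAt e b j s)) (s0 + 1) hpot
    -- description of the acts after s1
    have hact : ∀ s ≥ s1, acts e s (b s) (state e b s) j ≠ [] → ∃ (q : ℕ) (l l' : Leaf),
        (frameAt e b j s)[q]? = some l ∧ (frameAt e b j (s + 1))[q]? = some l' ∧
        permit (b s) (vals j l.2.2.1) = true ∧
        (vals j l.2.2.1).length < (vals j l'.2.2.1).length := by
      intro s hs ha
      obtain ⟨F1, l, F2, R, h1, h2, h3⟩ := frame_act (h0 s (by omega)) ha (hlen s (by omega))
      rcases pot_act h2 with h4 | ⟨_, h4, l', rfl, h5, h6⟩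
      · have e1 := hconst s hs
        have e2 := hconst (s + 1) (by omega)
        rw [← h1, ← h3] at h4
        omega
      · refine ⟨F1.length, l, l', ?_, ?_, h4, h6⟩
        · rw [h1]; simp
        · rw [h3]; simp [refresh]
    have hgrow : ∀ s ≥ s1, ∀ (q : ℕ) (l : Leaf), (frameAt e b j s)[q]? = some l → ∃ l' : Leaf,
        (frameAt e b j (s + 1))[q]? = some l' ∧ l.2.2.1 <+: l'.2.2.1 := by
      intro s hs q l hl
      by_cases ha : acts e s (b s) (state e b s) j = []
      · rw [frame_keep (h0 s (by omega)) ha (hlen s (by omega))]
        exact ⟨l, hl, List.prefix_refl _⟩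
      · obtain ⟨F1, l0, F2, R, h1, h2, h3⟩ := frame_act (h0 s (by omega)) ha (hlen s (by omega))
        rcases pot_act h2 with h4 | ⟨_, h4, l', rfl, h5, h6⟩
        · have e1 := hconst s hs
          have e2 := hconst (s + 1) (by omega)
          rw [← h1, ← h3] at h4
          omega
        · rw [h1] at hl
          rw [h3]
          rcases Nat.lt_trichotomy q F1.length with hq | hq | hq
          · rw [List.getElem?_append_left hq] at hl
            refine ⟨(l.1, l.2.1, fresh (alive (state e b s) s) l.2.2.1, l.2.2.2), ?_,
              fresh_prefix _ _⟩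
            rw [List.append_assoc, List.getElem?_append_left (by simpa [refresh] using hq),
              refresh_get, hl]
            rfl
          · subst hq
            rw [List.getElem?_append_right (le_refl _), Nat.sub_self] at hl
            simp only [List.getElem?_cons_zero, Option.some.injEq] at hl
            subst hl
            exact ⟨l', by simp [refresh], h5⟩
          · rw [List.getElem?_append_right (by omega)] at hl
            obtain ⟨m, hm⟩ : ∃ m, q = F1.length + 1 + m := ⟨q - (F1.length + 1), by omega⟩
            have e3 : q - F1.length = m + 1 := by omega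
            rw [e3, List.getElem?_cons_succ] at hl
            refine ⟨(l.1, l.2.1, fresh (alive (state e b s) s) l.2.2.1, l.2.2.2), ?_,
              fresh_prefix _ _⟩
            have hlen1 : (refresh (alive (state e b s) s) F1 ++ [l']).length = F1.length + 1 := by
              simp [refresh]
            rw [List.getElem?_append_right (by omega), hlen1]
            have e4 : q - (F1.length + 1) = m := by omega
            rw [e4, refresh_get, hl]
            rfl
    have hgrow2 : ∀ s ≥ s1, ∀ s' ≥ s, ∀ (q : ℕ) (l : Leaf), (frameAt e b j s)[q]? = some l → ∃ l' : Leaf,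
        (frameAt e b j s')[q]? = some l' ∧ l.2.2.1 <+: l'.2.2.1 := by
      intro s hs s' hs' q l hl
      induction s', hs' using Nat.le_induction with
      | base => exact ⟨l, hl, List.prefix_refl _⟩
      | succ n hn ihn =>
        obtain ⟨l1, h1, h2⟩ := ihn
        obtain ⟨l2, h3, h4⟩ := hgrow n (by omega) q l1 h1
        exact ⟨l2, h3, h2.trans h4⟩
    have hlenle : ∀ s ≥ s1, (frameAt e b j s).length ≤ (frameAt e b j s1).length := by
      intro s hs
      induction s, hs using Nat.le_induction with
      | base => exact le_refl _
      | succ n hn ihn =>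
        refine le_trans ?_ ihn
        by_cases ha : acts e n (b n) (state e b n) j = []
        · rw [frame_keep (h0 n (by omega)) ha (hlen n (by omega))]
        · obtain ⟨F1, l0, F2, R, h1, h2, h3⟩ := frame_act (h0 n (by omega)) ha (hlen n (by omega))
          rcases pot_act h2 with h4 | ⟨_, h4, l', rfl, h5, h6⟩
          · have e1 := hconst n hn
            have e2 := hconst (n + 1) (by omega)
            rw [← h1, ← h3] at h4
            omega
          · rw [h1, h3]; simp [refresh]
    have hcqmono : ∀ q s s', s1 ≤ s → s ≤ s' → q < (frameAt e b j s1).length →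
        cq e b j q s <+: cq e b j q s' := by
      intro q s s' hs hs' hq
      obtain ⟨l, hl, _⟩ := hgrow2 s1 (le_refl _) s hs q _ (List.getElem?_eq_getElem hq)
      obtain ⟨l', hl', h2⟩ := hgrow2 s hs s' hs' q l hl
      unfold cq
      rw [hl, hl']
      exact h2
    -- each leaf stops
    have hleaf : ∀ q, q < (frameAt e b j s1).length → ∃ S, ∀ s ≥ S, s1 ≤ s →
        ¬ (∃ l l' : Leaf, (frameAt e b j s)[q]? = some l ∧ (frameAt e b j (s + 1))[q]? = some l' ∧
        permit (b s) (vals j l.2.2.1) = true ∧
        (vals j l.2.2.1).length < (vals j l'.2.2.1).length) := by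
      intro q hq
      rcases hb with hb | hb
      · refine ⟨0, fun s _ _ => ?_⟩
        rintro ⟨l, l', _, _, h3, _⟩
        rw [hb s] at h3
        simp [permit] at h3
      · by_cases hbd : ∃ m, ∀ s ≥ s1, (vals j (cq e b j q s)).length ≤ m
        · -- bounded
          obtain ⟨m, hm⟩ := hbd
          have hmon : ∀ s ≥ s1, m - (vals j (cq e b j q (s + 1))).length ≤
              m - (vals j (cq e b j q s)).length := by
            intro s hs
            have := (vals_mono (j := j) (hcqmono q s (s + 1) hs (by omega) hq)).length_le
            omega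
          obtain ⟨S, hS, hSc⟩ := ev_const (fun s => m - (vals j (cq e b j q s)).length) s1 hmon
          refine ⟨S, fun s hs hs1' => ?_⟩
          rintro ⟨l, l', h1, h2, _, h4⟩
          have e1 := hSc s hs
          have e2 := hSc (s + 1) (by omega)
          have c1 : cq e b j q s = l.2.2.1 := by unfold cq; rw [h1]; rfl
          have c2 : cq e b j q (s + 1) = l'.2.2.1 := by unfold cq; rw [h2]; rfl
          have m1 := hm s hs1'
          have m2 := hm (s + 1) (by omega)
          rw [c1] at e1 m1
          rw [c2] at e2 m2
          omega
        · -- unbounded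
          push Not at hbd
          classical
          have hex : ∀ n, ∃ s, s1 ≤ s ∧ n < (vals j (cq e b j q s)).length := by
            intro n
            obtain ⟨s, hs, h⟩ := hbd n
            exact ⟨s, hs, h⟩
          choose sf hsf1 hsf2 using hex
          let f : ℕ → Bool := fun n => (vals j (cq e b j q (sf n)))[n]'(hsf2 n)
          have hcons : ∀ (n s : ℕ) (v : Bool), s1 ≤ s → (vals j (cq e b j q s))[n]? = some v → v = f n := by
            intro n s v hs hv
            have hfn : (vals j (cq e b j q (sf n)))[n]? = some (f n) :=
              List.getElem?_eq_getElem (hsf2 n)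
            rcases Nat.le_total s (sf n) with h | h
            · obtain ⟨t, ht⟩ := vals_mono (j := j) (hcqmono q s (sf n) hs h hq)
              have hlt : n < (vals j (cq e b j q s)).length := (List.getElem?_eq_some_iff.1 hv).1
              rw [← ht, List.getElem?_append_left hlt, hv] at hfn
              exact Option.some.inj hfn
            · obtain ⟨t, ht⟩ := vals_mono (j := j) (hcqmono q (sf n) s (hsf1 n) h hq)
              rw [← ht, List.getElem?_append_left (hsf2 n), hfn] at hv
              exact (Option.some.inj hv).symm
          have hcf : Computable f := by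
            have hg : Computable (fun s => vals j (cq e b j q (s1 + s))) :=
              (hc j q).comp (Primrec.nat_add.to_comp.comp (Computable.const s1) Computable.id)
            refine computable_limit hg ?_ ?_
            · intro n
              refine ⟨sf n - s1, ?_⟩
              have := hsf1 n
              rw [Nat.add_sub_cancel' this]
              exact hsf2 n
            · intro n s v hv
              exact hcons n (s1 + s) v (by omega) hv
          have hne : ∃ n, f n ≠ B n := by
            by_contra hall
            push Not at hall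
            have : f = B := funext hall
            rw [this] at hcf
            exact hB hcf
          obtain ⟨n, hn⟩ := hne
          obtain ⟨S, hS⟩ := hb n
          refine ⟨max S (sf n), fun s hs hs1' => ?_⟩
          rintro ⟨l, l', h1, _, h3, _⟩
          have c1 : cq e b j q s = l.2.2.1 := by unfold cq; rw [h1]; rfl
          rw [← c1] at h3
          obtain ⟨w, hw1, hw2⟩ := hS s (by omega)
          rw [hw1] at h3
          simp only [permit] at h3
          rw [pfx_iff] at h3
          have hlt : n < (vals j (cq e b j q s)).length := by
            have := (vals_mono (j := j) (hcqmono q (sf n) s (hsf1 n) (by omega) hq)).length_le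
            have := hsf2 n
            omega
          have hv : (vals j (cq e b j q s))[n]? = some (B n) := by
            obtain ⟨t, ht⟩ := h3
            rw [← ht, List.getElem?_append_left hlt] at hw2
            exact hw2
          exact hn (hcons n s _ hs1' hv).symm
    choose! Sf hSf using hleaf
    obtain ⟨S, hS⟩ : ∃ S, ∀ q < (frameAt e b j s1).length, Sf q ≤ S := by
      refine ⟨((List.range (frameAt e b j s1).length).map Sf).sum, ?_⟩
      intro q hq
      exact List.single_le_sum (by simp) _ (List.mem_map.2 ⟨q, List.mem_range.2 hq, rfl⟩)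
    refine ⟨max S s1, fun s hs => ⟨?_, hlen s (by omega)⟩⟩
    intro i hi
    rcases Nat.lt_or_ge i j with h | h
    · exact (h0 s (by omega)).1 i h
    · have hij : i = j := by omega
      subst hij
      by_contra ha
      obtain ⟨q, l, l', h1, h2, h3, h4⟩ := hact s (by omega) ha
      have hq : q < (frameAt e b i s1).length := by
        have h5 := (List.getElem?_eq_some_iff.1 h1).1
        have h6 := hlenle s (by omega)
        omega
      have := hS q hq
      exact hSf q hq s (by omega) (by omega) ⟨l, l', h1, h2, h3, h4⟩

end Pool.Agent.H641R3.PC
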