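import Pool.Agent.H641R3.PC.Ver

set_option autoImplicit false

namespace Pool.Agent.H641R3.PC

/-- a complete leaf stays as long as its tag is present -/
def Stay (t j : ℕ) (h : List (ℕ × Bool)) (st : St) : Prop :=
  t < st.1 ∧ ((∃ F, st.2[j]? = some F ∧ ∃ l ∈ F, l.1 = t ∧ l.2.1 = h) ∨
    (∀ (i : ℕ) (G : Frame), st.2[i]? = some G → ∀ l ∈ G, l.1 ≠ t))

theorem stay_step {t j : ℕ} {h : List (ℕ × Bool)} (hh : h.length = t) {e s : ℕ} {st : St}
    (H : Inv e s st) (b : Option Str) (hs : Stay t j h st) : Stay t j h (step e s b st) := by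
  obtain ⟨ht, hs⟩ := hs
  rcases step_cases e s b st with ⟨k, F1, l0, F2, R, h1, h2, _, h4⟩ | ⟨_, h4⟩
  · rw [h4]
    refine ⟨ht, ?_⟩
    have hk : k < st.2.length := (List.getElem?_eq_some_iff.1 h1).1
    set F' := refresh (alive st s) F1 ++ R ++ refresh (alive st s) F2 with hF'
    have htl : (st.2.take k).length = k := by simp; omega
    have hget : ∀ (i : ℕ) (G : Frame), (st.2.take k ++ [F'])[i]? = some G →
        (i < k ∧ st.2[i]? = some G) ∨ (i = k ∧ G = F') := by
      intro i G hG
      rcases Nat.lt_trichotomy i k with h | h | h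
      · left
        rw [List.getElem?_append_left (by omega), List.getElem?_take_of_lt h] at hG
        exact ⟨h, hG⟩
      · right
        subst h
        rw [List.getElem?_append_right (by omega), htl, Nat.sub_self] at hG
        simp at hG
        exact ⟨rfl, hG.symm⟩
      · rw [List.getElem?_eq_none (by simp; omega)] at hG
        simp at hG
    have hgetk : (st.2.take k ++ [F'])[k]? = some F' := by
      rw [List.getElem?_append_right (by omega), htl, Nat.sub_self]
      simp
    rcases hs with ⟨F, hF, l, hl, rfl, rfl⟩ | hs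
    · rcases Nat.lt_trichotomy k j with hkj | hkj | hkj
      · -- dropped
        right
        intro i G hG l' hl'
        rcases hget i G hG with ⟨hi, h5⟩ | ⟨rfl, rfl⟩
        · exact H.disj i j G F (by omega) h5 hF l' hl' l hl
        · obtain ⟨l1, h6, h7, _⟩ := parent h2 hl'
          rw [h7]
          exact H.disj i j _ F hkj h1 hF l1 h6 l hl
      · subst hkj
        left
        refine ⟨F', hgetk, ?_⟩
        rw [hF] at h1
        have hFe : F = F1 ++ l0 :: F2 := Option.some.inj h1
        rw [hFe, List.mem_append, List.mem_cons] at hl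
        rcases hl with hl | rfl | hl
        · exact ⟨(l.1, l.2.1, fresh (alive st s) l.2.2.1, l.2.2.2), by
            rw [hF', List.mem_append, List.mem_append]; left; left
            exact mem_refresh.2 ⟨l, hl, rfl⟩, rfl, rfl⟩
        · obtain ⟨_, h5 | h5 | h5⟩ := h2
          · omega
          · omega
          · obtain ⟨_, _, β, _, _, _, rfl⟩ := h5
            exact ⟨(l.1, l.2.1, l.2.2.1, true), by simp [hF'], rfl, rfl⟩
        · exact ⟨(l.1, l.2.1, fresh (alive st s) l.2.2.1, l.2.2.2), by
            rw [hF', List.mem_append, List.mem_append]; right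
            exact mem_refresh.2 ⟨l, hl, rfl⟩, rfl, rfl⟩
      · left
        refine ⟨F, ?_, l, hl, rfl, rfl⟩
        show (st.2.take k ++ [F'])[j]? = some F
        rw [List.getElem?_append_left (by omega), List.getElem?_take_of_lt hkj, hF]
    · right
      intro i G hG l' hl'
      rcases hget i G hG with ⟨hi, h5⟩ | ⟨rfl, rfl⟩
      · exact hs i G h5 l' hl'
      · obtain ⟨l1, h6, h7, _⟩ := parent h2 hl'
        rw [h7]
        exact hs i _ h1 l1 h6
  · rw [h4]
    refine ⟨lt_of_lt_of_le ht (Nat.le_add_right _ _), ?_⟩
    rcases hs with ⟨F, hF, l, hl, rfl, rfl⟩ | hs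
    · left
      refine ⟨F, ?_, l, hl, rfl, rfl⟩
      show (st.2 ++ [newFrame st.1 (bot st)])[j]? = some F
      rw [List.getElem?_append_left (List.getElem?_eq_some_iff.1 hF).1, hF]
    · right
      intro i G hG l' hl'
      rcases Nat.lt_or_ge i st.2.length with hi | hi
      · have h5 : st.2[i]? = some G := by
          have hG' : (st.2 ++ [newFrame st.1 (bot st)])[i]? = some G := hG
          rwa [List.getElem?_append_left hi] at hG'
        exact hs i G h5 l' hl'
      · have hG' : (st.2 ++ [newFrame st.1 (bot st)])[i]? = some G := hG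
        rw [List.getElem?_append_right hi] at hG'
        have h0 : i - st.2.length = 0 := by
          by_contra hne
          rw [List.getElem?_eq_none (by simp; omega)] at hG'
          simp at hG'
        rw [h0] at hG'
        simp only [List.getElem?_cons_zero, Option.some.injEq] at hG'
        subst hG'
        obtain ⟨m, hm, rfl⟩ := mem_newFrame.1 hl'
        show st.1 + m ≠ t
        omega

theorem asked_unique {e : ℕ} {b : ℕ → Option Str} {s s' : ℕ} {β β' ρ : Str} {t : ℕ}
    (h : Asked e b s β t) (h' : Asked e b s' β' t) (hβ : β <+: ρ) (hβ' : β' <+: ρ) : β = β' := by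
  wlog hss : s ≤ s' generalizing s s' β β'
  · exact (this h' h hβ' hβ (by omega)).symm
  obtain ⟨j, F, l, h1, h2, h3, h4, h5, h6⟩ := h
  obtain ⟨j', F', l', k1, k2, k3, k4, k5, k6⟩ := h'
  have hst : Stay t j l.2.1 (state e b s) :=
    ⟨by rw [← h3]; exact ((state_inv e b s).fr j F h1).lt l h2, Or.inl ⟨F, h1, l, h2, h3, rfl⟩⟩
  have hst' : Stay t j l.2.1 (state e b s') := by
    clear k1 k5 k6
    induction s', hss using Nat.le_induction with
    | base => exact hst
    | succ n _ ih => exact stay_step h4 (state_inv e b n) (b n) ih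
  obtain ⟨_, ⟨F'', m1, l'', m2, m3, m4⟩ | hno⟩ := hst'
  · have hjj : j = j' := by
      rcases Nat.lt_trichotomy j j' with hlt | heq | hlt
      · exact absurd (m3.trans k3.symm)
          ((state_inv e b s').disj j j' F'' F' hlt m1 k1 l'' m2 l' k2)
      · exact heq
      · exact absurd (k3.trans m3.symm)
          ((state_inv e b s').disj j' j F' F'' hlt k1 m1 l' k2 l'' m2)
    subst hjj
    rw [k1] at m1
    have hFF : F' = F'' := Option.some.inj m1
    subst hFF
    have hconf := ((state_inv e b s').fr j F' k1).tree.conf
    have hsym : ∀ x ∈ F'.map sig, ∀ y ∈ F'.map sig, x = y ∨ (x.1 = y.1 → Conf x.2 y.2) := by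
      have : Std.Symm (fun x y : Sig => x = y ∨ (x.1 = y.1 → Conf x.2 y.2)) := ⟨by
        rintro x y (h | h)
        · exact Or.inl h.symm
        · exact Or.inr (fun e => (h e.symm).symm)⟩
      apply List.Pairwise.forall_of_forall
      · intro x _; exact Or.inl rfl
      · exact hconf.imp (fun h => Or.inr h)
    have hh : l'.2.1 = l.2.1 := by
      rcases hsym (sig l') (List.mem_map.2 ⟨l', k2, rfl⟩) (sig l'')
        (List.mem_map.2 ⟨l'', m2, rfl⟩) with h7 | h7
      · have := congrArg Prod.snd h7
        simp only [sig] at this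
        rw [this, m4]
      · have c : Conf l'.2.1 l.2.1 := by
          have := h7 (k3.trans m3.symm)
          simp only [sig, m4] at this
          exact this
        rcases Nat.le_total β.length β'.length with hle | hle
        · exact absurd (prefix_of_length_le hβ hβ' hle) (conf_incompat c.symm h5 k5)
        · exact absurd (prefix_of_length_le hβ' hβ hle) (conf_incompat c k5 h5)
    rw [hh] at k5 k6
    have key : ∀ γ γ' : Str, γ <+: γ' → agree j l.2.1 γ = true → agree j l.2.1 γ'.dropLast = false →
        γ = γ' := by
      intro γ γ' hp ha hn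
      by_contra hne
      have hlt : γ.length < γ'.length := by
        rcases Nat.lt_or_eq_of_le hp.length_le with h | h
        · exact h
        · exact absurd (hp.eq_of_length h) hne
      have hp2 : γ <+: γ'.dropLast := by
        apply prefix_of_length_le hp (List.dropLast_prefix _)
        simp; omega
      rw [agree_mono hp2 ha] at hn
      simp at hn
    rcases Nat.le_total β.length β'.length with hle | hle
    · exact key β β' (prefix_of_length_le hβ hβ' hle) h5 k6
    · exact (key β' β (prefix_of_length_le hβ' hβ hle) k5 h6).symm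
  · exact absurd k3 (hno j' F' k1 l' k2)

theorem asked_ge {e : ℕ} {b : ℕ → Option Str} {s : ℕ} {β : Str} {t : ℕ} (h : Asked e b s β t) :
    e + 4 ≤ t := by
  obtain ⟨j, F, l, h1, h2, h3, h4, h5, h6⟩ := h
  rw [← h3]
  exact ((state_inv e b s).fr j F h1).ge l h2

end Pool.Agent.H641R3.PC
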