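import Pool.Agent.H641R3.PC.Inv2

set_option autoImplicit false

namespace Pool.Agent.H641R3.PC

theorem tw_get (L : List (Option Bool)) :
    ∀ n, n < ((L.takeWhile Option.isSome).filterMap id).length →
      L[n]? = some (((L.takeWhile Option.isSome).filterMap id)[n]?) := by
  induction L with
  | nil => intro n hn; simp at hn
  | cons x L ih =>
    intro n hn
    cases x with
    | none => simp at hn
    | some v =>
      have e : ((some v :: L).takeWhile Option.isSome).filterMap id =
          v :: ((L.takeWhile Option.isSome).filterMap id) := by simp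
      rw [e] at hn ⊢
      cases n with
      | zero => simp
      | succ n =>
        rw [List.length_cons] at hn
        rw [List.getElem?_cons_succ, List.getElem?_cons_succ]
        exact ih n (by omega)

theorem tw_stop (L : List (Option Bool)) :
    L[((L.takeWhile Option.isSome).filterMap id).length]? = none ∨
    L[((L.takeWhile Option.isSome).filterMap id).length]? = some none := by
  induction L with
  | nil => left; simp
  | cons x L ih =>
    cases x with
    | none => right; simp
    | some v =>
      have e : ((some v :: L).takeWhile Option.isSome).filterMap id =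
          v :: ((L.takeWhile Option.isSome).filterMap id) := by simp
      rw [e, List.length_cons, List.getElem?_cons_succ]
      exact ih

theorem vals_get {j : ℕ} {τ : Str} {n : ℕ} (h : n < (vals j τ).length) :
    V (Ps j) τ n = (vals j τ)[n]? := by
  have h1 := tw_get ((List.range τ.length).map (fun n => V (Ps j) τ n)) n h
  rw [List.getElem?_map] at h1
  cases hr : (List.range τ.length)[n]? with
  | none => rw [hr] at h1; simp at h1
  | some m =>
    rw [hr] at h1
    obtain ⟨h2, h3⟩ := List.getElem?_eq_some_iff.1 hr
    simp only [List.getElem_range] at h3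
    subst h3
    rw [Option.map_some] at h1
    exact Option.some.inj h1

theorem vals_stop (j : ℕ) (τ : Str) : V (Ps j) τ (vals j τ).length = none := by
  have h1 := tw_stop ((List.range τ.length).map (fun n => V (Ps j) τ n))
  change ((List.range τ.length).map (fun n => V (Ps j) τ n))[(vals j τ).length]? = none ∨
    ((List.range τ.length).map (fun n => V (Ps j) τ n))[(vals j τ).length]? = some none at h1
  rcases Nat.lt_or_ge (vals j τ).length τ.length with h | h
  · have h2 : (List.range τ.length)[(vals j τ).length]? = some (vals j τ).length := by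
      rw [List.getElem?_range h]
    rw [List.getElem?_map, h2] at h1
    simpa using h1
  · cases hv : V (Ps j) τ (vals j τ).length with
    | none => rfl
    | some v =>
      have := V_lt hv
      omega

theorem vals_len_le {j m : ℕ} {τ : Str} (h : ∀ n < m, (V (Ps j) τ n).isSome) :
    m ≤ (vals j τ).length := by
  by_contra hlt
  push Not at hlt
  have := h _ hlt
  rw [vals_stop] at this
  simp at this

theorem vals_mono {j : ℕ} {τ ρ : Str} (h : τ <+: ρ) : vals j τ <+: vals j ρ := by
  have hle : (vals j τ).length ≤ (vals j ρ).length := by
    apply vals_len_le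
    intro n hn
    have h1 := vals_get hn
    rw [List.getElem?_eq_getElem hn] at h1
    rw [V_mono h h1]
    rfl
  rw [List.prefix_iff_getElem?]
  intro i hi
  have h1 := vals_get hi
  rw [List.getElem?_eq_getElem hi] at h1
  have h2 := V_mono h h1
  rw [← vals_get (by omega), h2]

theorem vals_follow {j : ℕ} {τ ρ : Str} (h : τ <+: ρ) (hd : (V (Ps j) ρ (vals j τ).length).isSome) :
    (vals j τ).length < (vals j ρ).length := by
  apply vals_len_le
  intro n hn
  rcases Nat.lt_or_ge n (vals j τ).length with h1 | h1
  · have h2 := vals_get h1
    rw [List.getElem?_eq_getElem h1] at h2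
    rw [V_mono h h2]
    rfl
  · have : n = (vals j τ).length := by omega
    rw [this]; exact hd

/-- potential of a frame -/
def pot (F : Frame) : ℕ := (F.map (fun l => 2 * (2 ^ (l.1 - l.2.1.length) - 1) +
  (if l.2.2.2 then 0 else 1))).sum

theorem pot_append (F G : Frame) : pot (F ++ G) = pot F + pot G := by simp [pot]

theorem pot_cons (l : Leaf) (G : Frame) : pot (l :: G) = 2 * (2 ^ (l.1 - l.2.1.length) - 1) +
  (if l.2.2.2 then 0 else 1) + pot G := by simp [pot]

theorem pot_nil : pot [] = 0 := rfl

theorem pot_refresh (A : List Str) (F : Frame) : pot (refresh A F) = pot F := by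
  simp [pot, refresh, Function.comp_def]

/-- the effect of an action on the potential -/
theorem pot_act {e s : ℕ} {b : Option Str} {A : List Str} {j : ℕ} {F1 : Frame} {l : Leaf}
    {F2 : Frame} {R : List Leaf} (h : ActRel e s b A j F1 l F2 R) :
    pot (refresh A F1 ++ R ++ refresh A F2) < pot (F1 ++ l :: F2) ∨
    (pot (refresh A F1 ++ R ++ refresh A F2) = pot (F1 ++ l :: F2) ∧
      permit b (vals j l.2.2.1) = true ∧ ∃ l' : Leaf, R = [l'] ∧
        l.2.2.1 <+: l'.2.2.1 ∧ (vals j l.2.2.1).length < (vals j l'.2.2.1).length) := by
  obtain ⟨hd, h5 | h5 | h5⟩ := h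
  · obtain ⟨h1, ρ0, _, ρ1, _, n, _, _, _, _, _, rfl⟩ := h5
    left
    rw [pot_append, pot_append, pot_append, pot_refresh, pot_refresh, pot_cons, pot_cons, pot_cons,
      pot_nil, hd]
    simp only [List.length_append, List.length_cons, List.length_nil]
    have h2 : l.1 - l.2.1.length = (l.1 - (l.2.1.length + (0 + 1))) + 1 := by omega
    rw [h2, pow_succ]
    have h3 : 0 < 2 ^ (l.1 - (l.2.1.length + (0 + 1))) := by positivity
    generalize 2 ^ (l.1 - (l.2.1.length + (0 + 1))) = P at h3 ⊢
    simp only [Bool.false_eq_true, if_false]
    omega
  · obtain ⟨h1, h2, ρ0, _, h3, h4, rfl⟩ := h5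
    right
    refine ⟨?_, h2, _, rfl, h3, vals_follow h3 h4⟩
    rw [pot_append, pot_append, pot_append, pot_refresh, pot_refresh, pot_cons, pot_cons,
      pot_nil, hd]
    simp
    omega
  · obtain ⟨h1, _, β, _, h2, h3, rfl⟩ := h5
    left
    rw [pot_append, pot_append, pot_append, pot_refresh, pot_refresh, pot_cons, pot_cons,
      pot_nil, hd]
    simp
    omega

/-- an eventually non-increasing sequence of natural numbers is eventually constant -/
theorem ev_const (f : ℕ → ℕ) (s0 : ℕ) (h : ∀ s ≥ s0, f (s + 1) ≤ f s) :
    ∃ s1 ≥ s0, ∀ s ≥ s1, f s = f s1 := by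
  have key : ∀ m s, s0 ≤ s → f s ≤ m → ∃ s1 ≥ s, ∀ s' ≥ s1, f s' = f s1 := by
    intro m
    induction m with
    | zero =>
      intro s hs hm
      refine ⟨s, le_refl _, ?_⟩
      intro s' hs'
      induction s', hs' using Nat.le_induction with
      | base => rfl
      | succ n hn ih =>
        have := h n (by omega)
        omega
    | succ m ih =>
      intro s hs hm
      by_cases hex : ∃ s' ≥ s, f s' ≤ m
      · obtain ⟨s', hs', hm'⟩ := hex
        obtain ⟨s1, h1, h2⟩ := ih s' (by omega) hm'
        exact ⟨s1, by omega, h2⟩
      · push Not at hex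
        refine ⟨s, le_refl _, ?_⟩
        have hle : ∀ s' ≥ s, f s' ≤ f s := by
          intro s' hs'
          induction s', hs' using Nat.le_induction with
          | base => exact le_refl _
          | succ n hn ih =>
            have := h n (by omega)
            omega
        intro s' hs'
        have h1 := hex s' hs'
        have h2 := hex s (le_refl _)
        have h3 := hle s' hs'
        omega
  exact key (f s0) s0 (le_refl _) (le_refl _)

end Pool.Agent.H641R3.PC
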